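import Pool.Agent.Lib.MP_6bd702_percw.TipsA

/-!
# Colours on the boundary of a rectangle
-/

set_option autoImplicit false

namespace Pool.Agent.Perc

open Finset

variable {ω ω' : Cfg} {F F' : Set (ℤ × ℤ)} {e a a' : UE} {f : ℤ × ℤ} {u v : ℤ × ℤ}
  {x₀ x₁ y₀ y₁ : ℤ}

/-- `w` is at sup-distance at most `ρ` from `x`. -/
def Wi (ρ : ℤ) (x w : ℤ × ℤ) : Prop :=
  x.1 - ρ ≤ w.1 ∧ w.1 ≤ x.1 + ρ ∧ x.2 - ρ ≤ w.2 ∧ w.2 ≤ x.2 + ρ

/-- Vertical moves. -/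
theorem seg_v {c a b : ℤ} (hc : x₀ ≤ c ∧ c ≤ x₁) (ha : y₀ ≤ a) (hab : a ≤ b) (hb : b ≤ y₁)
    (h : ∀ j, a ≤ j → j < b → ((c, j, true) : UE) ∉ MM ω (RF x₀ x₁ y₀ y₁) e) :
    potR ω x₀ x₁ y₀ y₁ e (c, a) = potR ω x₀ x₁ y₀ y₁ e (c, b) := by
  revert hb h
  induction b, hab using Int.leInduction with
  | base => intro _ _; rfl
  | succ b hab ih =>
    intro hb h
    rw [ih (by omega) fun j h1 h2 => h j h1 (by omega)]
    have h1 := h b hab (by omega)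
    have h2 := potR_joins (ω := ω) (e := e) (a := (c, b, true)) (p := (c, b)) (q := (c, b + 1))
      (x₀ := x₀) (x₁ := x₁) (y₀ := y₀) (y₁ := y₁)
      (by simp [Joins, ua, ub]) (by unfold InR; simp only; omega) (by unfold InR; simp only; omega)
    by_contra hne
    exact h1 (h2.2 hne)

/-- Horizontal moves. -/
theorem seg_h {c a b : ℤ} (hc : y₀ ≤ c ∧ c ≤ y₁) (ha : x₀ ≤ a) (hab : a ≤ b) (hb : b ≤ x₁)
    (h : ∀ j, a ≤ j → j < b → ((j, c, false) : UE) ∉ MM ω (RF x₀ x₁ y₀ y₁) e) :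
    potR ω x₀ x₁ y₀ y₁ e (a, c) = potR ω x₀ x₁ y₀ y₁ e (b, c) := by
  revert hb h
  induction b, hab using Int.leInduction with
  | base => intro _ _; rfl
  | succ b hab ih =>
    intro hb h
    rw [ih (by omega) fun j h1 h2 => h j h1 (by omega)]
    have h1 := h b hab (by omega)
    have h2 := potR_joins (ω := ω) (e := e) (a := (b, c, false)) (p := (b, c)) (q := (b + 1, c))
      (x₀ := x₀) (x₁ := x₁) (y₀ := y₀) (y₁ := y₁)
      (by simp [Joins, ua, ub]) (by unfold InR; simp only; omega) (by unfold InR; simp only; omega)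
    by_contra hne
    exact h1 (h2.2 hne)

/-- All boundary unit edges of the component are within `ρ` of `x`. -/
def Close (ω : Cfg) (x₀ x₁ y₀ y₁ : ℤ) (e : UE) (ρ : ℤ) (x : ℤ × ℤ) : Prop :=
  ∀ a ∈ MM ω (RF x₀ x₁ y₀ y₁) e, BdE x₀ x₁ y₀ y₁ a → Wi ρ x (ua a) ∧ Wi ρ x (ub a)

/-- Moves along a vertical side outside the ball. -/
theorem mv_v {ρ : ℤ} {x : ℤ × ℤ} (H : Close ω x₀ x₁ y₀ y₁ e ρ x) {c a b : ℤ}
    (hx : x₀ ≤ x₁) (hc : c = x₀ ∨ c = x₁) (ha : y₀ ≤ a ∧ a ≤ y₁) (hb : y₀ ≤ b ∧ b ≤ y₁)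
    (h : ∀ j, ((a ≤ j ∧ j ≤ b) ∨ (b ≤ j ∧ j ≤ a)) → ¬ Wi ρ x (c, j)) :
    potR ω x₀ x₁ y₀ y₁ e (c, a) = potR ω x₀ x₁ y₀ y₁ e (c, b) := by
  have key : ∀ a b : ℤ, y₀ ≤ a → a ≤ b → b ≤ y₁ → (∀ j, a ≤ j → j ≤ b → ¬ Wi ρ x (c, j)) →
      potR ω x₀ x₁ y₀ y₁ e (c, a) = potR ω x₀ x₁ y₀ y₁ e (c, b) := by
    intro a b h1 h2 h3 h4
    refine seg_v (by omega) h1 h2 h3 fun j h5 h6 h7 => ?_
    have h8 := H _ h7 (Or.inr ⟨rfl, by simp only; omega, by simp only; omega, hc⟩)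
    rw [ua_mk] at h8
    exact h4 j h5 (by omega) h8.1
  rcases le_total a b with hab | hab
  · exact key a b ha.1 hab hb.2 fun j h1 h2 => h j (Or.inl ⟨h1, h2⟩)
  · exact (key b a hb.1 hab ha.2 fun j h1 h2 => h j (Or.inr ⟨h1, h2⟩)).symm

/-- Moves along a horizontal side outside the ball. -/
theorem mv_h {ρ : ℤ} {x : ℤ × ℤ} (H : Close ω x₀ x₁ y₀ y₁ e ρ x) {c a b : ℤ}
    (hy : y₀ ≤ y₁) (hc : c = y₀ ∨ c = y₁) (ha : x₀ ≤ a ∧ a ≤ x₁) (hb : x₀ ≤ b ∧ b ≤ x₁)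
    (h : ∀ j, ((a ≤ j ∧ j ≤ b) ∨ (b ≤ j ∧ j ≤ a)) → ¬ Wi ρ x (j, c)) :
    potR ω x₀ x₁ y₀ y₁ e (a, c) = potR ω x₀ x₁ y₀ y₁ e (b, c) := by
  have key : ∀ a b : ℤ, x₀ ≤ a → a ≤ b → b ≤ x₁ → (∀ j, a ≤ j → j ≤ b → ¬ Wi ρ x (j, c)) →
      potR ω x₀ x₁ y₀ y₁ e (a, c) = potR ω x₀ x₁ y₀ y₁ e (b, c) := by
    intro a b h1 h2 h3 h4
    refine seg_h (by omega) h1 h2 h3 fun j h5 h6 h7 => ?_
    have h8 := H _ h7 (Or.inl ⟨rfl, by simp only; omega, by simp only; omega, hc⟩)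
    rw [ua_mk] at h8
    exact h4 j h5 (by omega) h8.1
  rcases le_total a b with hab | hab
  · exact key a b ha.1 hab hb.2 fun j h1 h2 => h j (Or.inl ⟨h1, h2⟩)
  · exact (key b a hb.1 hab ha.2 fun j h1 h2 => h j (Or.inr ⟨h1, h2⟩)).symm

/-- Ring lemma: the boundary vertices outside the ball are on one side. -/
theorem ring_eq {ρ : ℤ} {x : ℤ × ℤ} (H : Close ω x₀ x₁ y₀ y₁ e ρ x)
    (h2x : 2 * ρ < x₁ - x₀) (h2y : 2 * ρ < y₁ - y₀) (hx : x₀ ≤ x₁) (hy : y₀ ≤ y₁) {w w' : ℤ × ℤ}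
    (hw : OnBd x₀ x₁ y₀ y₁ w) (hw' : OnBd x₀ x₁ y₀ y₁ w') (h : ¬ Wi ρ x w) (h' : ¬ Wi ρ x w') :
    potR ω x₀ x₁ y₀ y₁ e w = potR ω x₀ x₁ y₀ y₁ e w' := by
  obtain ⟨p, q⟩ := x
  obtain ⟨z1, hz1, hz1'⟩ : ∃ z1, (z1 = x₀ ∨ z1 = x₁) ∧ (z1 < p - ρ ∨ p + ρ < z1) := by
    by_cases hp : 2 * p ≤ x₀ + x₁
    · exact ⟨x₁, Or.inr rfl, by omega⟩
    · exact ⟨x₀, Or.inl rfl, by omega⟩
  obtain ⟨z2, hz2, hz2'⟩ : ∃ z2, (z2 = y₀ ∨ z2 = y₁) ∧ (z2 < q - ρ ∨ q + ρ < z2) := by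
    by_cases hp : 2 * q ≤ y₀ + y₁
    · exact ⟨y₁, Or.inr rfl, by omega⟩
    · exact ⟨y₀, Or.inl rfl, by omega⟩
  have key : ∀ w : ℤ × ℤ, OnBd x₀ x₁ y₀ y₁ w → ¬ Wi ρ (p, q) w →
      potR ω x₀ x₁ y₀ y₁ e w = potR ω x₀ x₁ y₀ y₁ e (z1, z2) := by
    rintro ⟨w1, w2⟩ hw h
    unfold OnBd at hw
    unfold Wi at h
    simp only at hw h
    have mv : ∀ c a b : ℤ, (c = x₀ ∨ c = x₁) → y₀ ≤ a → a ≤ y₁ → y₀ ≤ b → b ≤ y₁ →
        ((c < p - ρ ∨ p + ρ < c) ∨ (a < q - ρ ∧ b < q - ρ) ∨ (q + ρ < a ∧ q + ρ < b)) →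
        potR ω x₀ x₁ y₀ y₁ e (c, a) = potR ω x₀ x₁ y₀ y₁ e (c, b) := by
      intro c a b hc h1 h2 h3 h4 h5
      refine mv_v H hx hc ⟨h1, h2⟩ ⟨h3, h4⟩ fun j hj => ?_
      unfold Wi; simp only; omega
    have mh : ∀ c a b : ℤ, (c = y₀ ∨ c = y₁) → x₀ ≤ a → a ≤ x₁ → x₀ ≤ b → b ≤ x₁ →
        ((c < q - ρ ∨ q + ρ < c) ∨ (a < p - ρ ∧ b < p - ρ) ∨ (p + ρ < a ∧ p + ρ < b)) →
        potR ω x₀ x₁ y₀ y₁ e (a, c) = potR ω x₀ x₁ y₀ y₁ e (b, c) := by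
      intro c a b hc h1 h2 h3 h4 h5
      refine mv_h H hy hc ⟨h1, h2⟩ ⟨h3, h4⟩ fun j hj => ?_
      unfold Wi; simp only; omega
    have hz1b : x₀ ≤ z1 ∧ z1 ≤ x₁ := by omega
    have hz2b : y₀ ≤ z2 ∧ z2 ≤ y₁ := by omega
    by_cases hv : w1 = x₀ ∨ w1 = x₁
    · by_cases hd : w1 < p - ρ ∨ p + ρ < w1
      · rw [mv w1 w2 z2 hv (by omega) (by omega) (by omega) (by omega) (Or.inl hd),
          mh z2 w1 z1 hz2 (by omega) (by omega) (by omega) (by omega) (Or.inl hz2')]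
      · by_cases hu : q + ρ < w2
        · rw [mv w1 w2 y₁ hv (by omega) (by omega) (by omega) (by omega) (by omega),
            mh y₁ w1 z1 (Or.inr rfl) (by omega) (by omega) (by omega) (by omega) (by omega),
            mv z1 y₁ z2 hz1 (by omega) (by omega) (by omega) (by omega) (Or.inl hz1')]
        · rw [mv w1 w2 y₀ hv (by omega) (by omega) (by omega) (by omega) (by omega),
            mh y₀ w1 z1 (Or.inl rfl) (by omega) (by omega) (by omega) (by omega) (by omega),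
            mv z1 y₀ z2 hz1 (by omega) (by omega) (by omega) (by omega) (Or.inl hz1')]
    · have hv' : w2 = y₀ ∨ w2 = y₁ := by omega
      by_cases hd : w2 < q - ρ ∨ q + ρ < w2
      · rw [mh w2 w1 z1 hv' (by omega) (by omega) (by omega) (by omega) (Or.inl hd),
          mv z1 w2 z2 hz1 (by omega) (by omega) (by omega) (by omega) (Or.inl hz1')]
      · by_cases hu : p + ρ < w1
        · rw [mh w2 w1 x₁ hv' (by omega) (by omega) (by omega) (by omega) (by omega),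
            mv x₁ w2 z2 (Or.inr rfl) (by omega) (by omega) (by omega) (by omega) (by omega),
            mh z2 x₁ z1 hz2 (by omega) (by omega) (by omega) (by omega) (Or.inl hz2')]
        · rw [mh w2 w1 x₀ hv' (by omega) (by omega) (by omega) (by omega) (by omega),
            mv x₀ w2 z2 (Or.inl rfl) (by omega) (by omega) (by omega) (by omega) (by omega),
            mh z2 x₀ z1 hz2 (by omega) (by omega) (by omega) (by omega) (Or.inl hz2')]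
  rw [key w hw h, key w' hw' h']

/-- Close exits: for one end `p` of `e` all the boundary vertices on the side of `p` are within `ρ`
of `x`. -/
theorem close_side {ρ : ℤ} {x : ℤ × ℤ} (he : Joins e u v) (hu : InR x₀ x₁ y₀ y₁ u)
    (hv : InR x₀ x₁ y₀ y₁ v) (H : Close ω x₀ x₁ y₀ y₁ e ρ x)
    (h2x : 2 * ρ < x₁ - x₀) (h2y : 2 * ρ < y₁ - y₀) (hx : x₀ ≤ x₁) (hy : y₀ ≤ y₁) :
    (∀ w, OnBd x₀ x₁ y₀ y₁ w → potR ω x₀ x₁ y₀ y₁ e w = potR ω x₀ x₁ y₀ y₁ e u → Wi ρ x w) ∨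
    (∀ w, OnBd x₀ x₁ y₀ y₁ w → potR ω x₀ x₁ y₀ y₁ e w = potR ω x₀ x₁ y₀ y₁ e v → Wi ρ x w) := by
  by_contra hcon
  push Not at hcon
  obtain ⟨⟨w, hw, h1, h2⟩, w', hw', h1', h2'⟩ := hcon
  have h3 := ring_eq H h2x h2y hx hy hw hw' h2 h2'
  rw [h1, h1'] at h3
  exact (potR_joins he hu hv).1 mem_MM_self h3

/-- If both ends of `e` are joined to the boundary then the component has a boundary unit edge. -/
theorem exists_tip (he : Joins e u v) (hu : InR x₀ x₁ y₀ y₁ u) (hv : InR x₀ x₁ y₀ y₁ v)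
    (hx : x₀ ≤ x₁) (hy : y₀ ≤ y₁)
    (h1 : ToBd x₀ x₁ y₀ y₁ ω u) (h2 : ToBd x₀ x₁ y₀ y₁ ω v) :
    ∃ t ∈ MM ω (RF x₀ x₁ y₀ y₁) e, BdE x₀ x₁ y₀ y₁ t := by
  by_contra hcon
  push Not at hcon
  obtain ⟨w, hw, hwb⟩ := h1
  obtain ⟨w', hw', hwb'⟩ := h2
  have H : Close ω x₀ x₁ y₀ y₁ e (-1) (0, 0) := fun a ha hb => absurd hb (hcon a ha)
  have h3 := ring_eq H (by omega) (by omega) hx hy hwb hwb' (by unfold Wi; simp only; omega)
    (by unfold Wi; simp only; omega)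
  rw [← potR_conn hw, ← potR_conn hw'] at h3
  exact (potR_joins he hu hv).1 mem_MM_self h3

/-- Conversely the end of parity of `u` of a boundary unit edge of the component is joined to `u`. -/
theorem toBd_of_tip (he : Joins e u v) {t : UE} (ht : t ∈ MM ω (RF x₀ x₁ y₀ y₁) e)
    (hb : BdE x₀ x₁ y₀ y₁ t) (hx : x₀ ≤ x₁) (hy : y₀ ≤ y₁) : ToBd x₀ x₁ y₀ y₁ ω u := by
  obtain ⟨p, q, hj, -, hc⟩ := MM_conn he ht
  refine ⟨p, hc.mono SS_sub, ?_⟩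
  obtain ⟨x, y, b⟩ := t
  unfold BdE at hb
  simp only at hb
  unfold OnBd
  rcases hj with ⟨rfl, -⟩ | ⟨rfl, -⟩ <;> cases b <;> simp [ua, ub] at hb ⊢ <;> omega

/-- Dichotomy: a boundary unit edge `t` of the component; either all of them are within `ρ` of `t`
or no other one is within `ρ` of `t`. -/
theorem tip_dichotomy {ρ : ℤ} (hρ : 1 ≤ ρ) (he : ¬ BdE x₀ x₁ y₀ y₁ e) {t : UE}
    (ht : t ∈ MM ω (RF x₀ x₁ y₀ y₁) e) (hb : BdE x₀ x₁ y₀ y₁ t) :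
    Close ω x₀ x₁ y₀ y₁ e ρ (ua t) ∨
      ∀ a ∈ MM ω (RF x₀ x₁ y₀ y₁) e, BdE x₀ x₁ y₀ y₁ a → Wi ρ (ua t) (ua a) →
        Wi ρ (ua t) (ub a) → a = t := by
  by_contra hcon
  unfold Close at hcon
  push Not at hcon
  obtain ⟨⟨a, ha, hab, hna⟩, a', ha', hab', h1, h2, h3⟩ := hcon
  have hat : a ≠ t := by
    rintro rfl
    refine hna (by unfold Wi; omega) ?_
    obtain ⟨x, y, b⟩ := a
    unfold Wi
    cases b <;> simp [ua, ub] <;> omega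
  have haa : a ≠ a' := by
    rintro rfl
    exact hna h1 h2
  rcases tips_le_two he ht ha ha' hb hab hab' with h | h | h
  · exact hat h.symm
  · exact h3 h.symm
  · exact haa h

/-- The far exit condition at `t`. -/
def FarTip (ω : Cfg) (x₀ x₁ y₀ y₁ : ℤ) (e : UE) (ρ : ℤ) (t : UE) : Prop :=
  t ∈ MM ω (RF x₀ x₁ y₀ y₁) e ∧ BdE x₀ x₁ y₀ y₁ t ∧
    ∀ a ∈ MM ω (RF x₀ x₁ y₀ y₁) e, BdE x₀ x₁ y₀ y₁ a → Wi ρ (ua t) (ua a) →
      Wi ρ (ua t) (ub a) → a = t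

/-- Colours near a far tip on the right side: above. -/
theorem farTip_up {ρ h : ℤ} (ht : FarTip ω x₀ x₁ y₀ y₁ e ρ (x₁, h, true)) (hx : x₀ < x₁)
    (h2x : ρ < x₁ - x₀) {w : ℤ × ℤ} (hw : OnBd x₀ x₁ y₀ y₁ w) (hwi : Wi ρ (x₁, h) w)
    (hup : (w.1 = x₁ ∧ h < w.2) ∨ w.2 = y₁) :
    potR ω x₀ x₁ y₀ y₁ e w = potR ω x₀ x₁ y₀ y₁ e (x₁, h + 1) := by
  obtain ⟨htM, htb, hfar⟩ := ht
  obtain ⟨w1, w2⟩ := w
  have hh : y₀ ≤ h ∧ h < y₁ := by unfold BdE at htb; simp at htb; exact htb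
  unfold OnBd at hw
  unfold Wi at hwi
  simp only at hw hwi hup
  have key : ∀ b, h + 1 ≤ b → b ≤ y₁ → b ≤ h + ρ →
      potR ω x₀ x₁ y₀ y₁ e (x₁, h + 1) = potR ω x₀ x₁ y₀ y₁ e (x₁, b) := by
    intro b h1 h2 h3
    refine seg_v (by omega) (by omega) h1 h2 fun j h4 h5 h6 => ?_
    have h7 := hfar _ h6 (Or.inr ⟨rfl, by simp only; omega, by simp only; omega, Or.inr rfl⟩)
      (by unfold Wi; simp [ua]; omega) (by unfold Wi; simp [ua, ub]; omega)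
    simp only [Prod.mk.injEq, true_and, and_true] at h7
    omega
  rcases hup with ⟨rfl, h1⟩ | rfl
  · exact (key w2 (by omega) (by omega) (by omega)).symm
  · rw [key w2 (by omega) (by omega) (by omega)]
    refine seg_h (by omega) (by omega) (by omega) (by omega) fun j h4 h5 h6 => ?_
    have h7 := hfar _ h6 (Or.inl ⟨rfl, by simp only; omega, by simp only; omega, Or.inr rfl⟩)
      (by unfold Wi; simp [ua]; omega) (by unfold Wi; simp [ua, ub]; omega)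
    simp at h7

/-- Colours near a far tip on the right side: below. -/
theorem farTip_down {ρ h : ℤ} (ht : FarTip ω x₀ x₁ y₀ y₁ e ρ (x₁, h, true)) (hx : x₀ < x₁)
    (h2x : ρ < x₁ - x₀) {w : ℤ × ℤ} (hw : OnBd x₀ x₁ y₀ y₁ w) (hwi : Wi ρ (x₁, h) w)
    (hdown : (w.1 = x₁ ∧ w.2 ≤ h) ∨ w.2 = y₀) (hρ : 1 ≤ ρ) :
    potR ω x₀ x₁ y₀ y₁ e w = potR ω x₀ x₁ y₀ y₁ e (x₁, h) := by
  obtain ⟨htM, htb, hfar⟩ := ht
  obtain ⟨w1, w2⟩ := w
  have hh : y₀ ≤ h ∧ h < y₁ := by unfold BdE at htb; simp at htb; exact htb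
  unfold OnBd at hw
  unfold Wi at hwi
  simp only at hw hwi hdown
  have key : ∀ b, b ≤ h → y₀ ≤ b → h - ρ ≤ b →
      potR ω x₀ x₁ y₀ y₁ e (x₁, b) = potR ω x₀ x₁ y₀ y₁ e (x₁, h) := by
    intro b h1 h2 h3
    refine seg_v (by omega) h2 h1 (by omega) fun j h4 h5 h6 => ?_
    have h7 := hfar _ h6 (Or.inr ⟨rfl, by simp only; omega, by simp only; omega, Or.inr rfl⟩)
      (by unfold Wi; simp [ua]; omega) (by unfold Wi; simp [ua, ub]; omega)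
    simp only [Prod.mk.injEq, true_and, and_true] at h7
    omega
  rcases hdown with ⟨rfl, h1⟩ | rfl
  · exact key w2 (by omega) (by omega) (by omega)
  · rw [← key w2 (by omega) (by omega) (by omega)]
    refine seg_h (by omega) (by omega) (by omega) (by omega) fun j h4 h5 h6 => ?_
    have h7 := hfar _ h6 (Or.inl ⟨rfl, by simp only; omega, by simp only; omega, Or.inl rfl⟩)
      (by unfold Wi; simp [ua]; omega) (by unfold Wi; simp [ua, ub]; omega)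
    simp at h7

end Pool.Agent.Perc
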