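import Pool.Agent.Lib.MP_6bd702_percw.RswB

/-!
# RSW in the face grid: blocking annuli and the one-arm bound
-/

set_option autoImplicit false

namespace Pool.Agent.Perc

open Finset
open Pool.Agent.MP_6bd702

/-- The faces of the box of radius `R` around `p`. -/
noncomputable def RFb (p : ℤ × ℤ) (R : ℤ) : Finset (ℤ × ℤ) :=
  RF (p.1 - R) (p.1 + R) (p.2 - R) (p.2 + R)

/-- A path of colour `col` from the box of radius `r` to the boundary of the box of radius `R`. -/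
def ArmB (col : ℤ) (p : ℤ × ℤ) (r R : ℤ) : Set Cfg :=
  {ω | ∃ u v, p.1 - r ≤ u.1 ∧ u.1 ≤ p.1 + r ∧ p.2 - r ≤ u.2 ∧ u.2 ≤ p.2 + r ∧
    (u.1 + u.2 - col) % 2 = 0 ∧ OnBd (p.1 - R) (p.1 + R) (p.2 - R) (p.2 + R) v ∧
    Conn ω (RFb p R) u v}

/-- Four crossings of the colour different from `col` around the box of radius `r`. -/
def Blk (col : ℤ) (p : ℤ × ℤ) (r : ℤ) : Set Cfg :=
  LR (col + 1) (p.1 - 4 * r) (p.1 + 4 * r) (p.2 + r) (p.2 + 4 * r) ∩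
  (LR (col + 1) (p.1 - 4 * r) (p.1 + 4 * r) (p.2 - 4 * r) (p.2 - r) ∩
  (BT (col + 1) (p.1 - 4 * r) (p.1 - r) (p.2 - 4 * r) (p.2 + 4 * r) ∩
  BT (col + 1) (p.1 + r) (p.1 + 4 * r) (p.2 - 4 * r) (p.2 + 4 * r)))

theorem mem_RFi {x₀ x₁ y₀ y₁ : ℤ} {f : ℤ × ℤ} :
    f ∈ RF x₀ x₁ y₀ y₁ ↔ x₀ ≤ f.1 ∧ f.1 < x₁ ∧ y₀ ≤ f.2 ∧ f.2 < y₁ := by
  simp only [RF, mem_product, mem_Ico, and_assoc]

theorem mem_RFb {p : ℤ × ℤ} {R : ℤ} {f : ℤ × ℤ} :
    f ∈ RFb p R ↔ p.1 - R ≤ f.1 ∧ f.1 < p.1 + R ∧ p.2 - R ≤ f.2 ∧ f.2 < p.2 + R := mem_RFi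

theorem incD_LR (c x₀ x₁ y₀ y₁ : ℤ) : IncD (parD c) (LR c x₀ x₁ y₀ y₁) := by
  rintro ω ω' h ⟨u, v, h1, h2, h3, h4, h5, h6⟩
  exact ⟨u, v, h1, h2, h3, h4, h5, incD_conn c _ h5 ω ω' h h6⟩

theorem incD_BT' (c x₀ x₁ y₀ y₁ : ℤ) : IncD (parD c) (BT c x₀ x₁ y₀ y₁) := by
  rintro ω ω' h ⟨u, v, h1, h2, h3, h4, h5, h6⟩
  exact ⟨u, v, h1, h2, h3, h4, h5, incD_conn c _ h5 ω ω' h h6⟩

theorem incD_inter' {D : ℤ × ℤ → Bool} {A B : Set Cfg} (hA : IncD D A) (hB : IncD D B) :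
    IncD D (A ∩ B) := fun ω ω' h h1 => ⟨hA ω ω' h h1.1, hB ω ω' h h1.2⟩

theorem depOn_inter' {S : Set (ℤ × ℤ)} {A B : Set Cfg} (hA : DepOn S A) (hB : DepOn S B) :
    DepOn S (A ∩ B) := fun ω ω' h => and_congr (hA ω ω' h) (hB ω ω' h)

theorem depOn_mono' {S S' : Set (ℤ × ℤ)} {A : Set Cfg} (hA : DepOn S A) (h : S ⊆ S') :
    DepOn S' A := fun ω ω' h' => hA ω ω' fun f hf => h' f (h hf)

theorem depOn_compl {S : Set (ℤ × ℤ)} {A : Set Cfg} (hA : DepOn S A) : DepOn S Aᶜ :=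
  fun ω ω' h => not_congr (hA ω ω' h)

/-- Harris' inequality for a finite family. -/
theorem harris_list {ι : Type} [DecidableEq ι] {S : Finset (ℤ × ℤ)} (D : ℤ × ℤ → Bool)
    (s : Finset ι) (A : ι → Set Cfg) (h1 : ∀ i ∈ s, DepOn S (A i)) (h2 : ∀ i ∈ s, IncD D (A i)) :
    ∏ i ∈ s, pr S (A i) ≤ pr S {ω | ∀ i ∈ s, ω ∈ A i} := by
  induction s using Finset.induction_on with
  | empty =>
    have : {ω : Cfg | ∀ i ∈ (∅ : Finset ι), ω ∈ A i} = Set.univ := by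
      ext ω; simp
    have h3 : pr S (Set.univ : Set Cfg) = 1 := by
      have := pr_compl S (∅ : Set Cfg)
      rw [Set.compl_empty] at this
      have h4 : pr S (∅ : Set Cfg) = 0 := by
        classical
        rw [ProbA.pr_eq_sum]
        simp
      rw [this, h4, sub_zero]
    rw [this, h3, Finset.prod_empty]
  | insert i s hi ih =>
    have h3 := ih (fun j hj => h1 j (mem_insert_of_mem hj)) (fun j hj => h2 j (mem_insert_of_mem hj))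
    have hD : DepOn S {ω | ∀ j ∈ s, ω ∈ A j} := fun ω ω' h =>
      forall₂_congr fun j hj => h1 j (mem_insert_of_mem hj) ω ω' h
    have hI : IncD D {ω | ∀ j ∈ s, ω ∈ A j} := fun ω ω' h h4 j hj =>
      h2 j (mem_insert_of_mem hj) ω ω' h (h4 j hj)
    have h4 := harris D (h1 i (mem_insert_self _ _)) hD (h2 i (mem_insert_self _ _)) hI
    rw [Finset.prod_insert hi]
    refine (mul_le_mul_of_nonneg_left h3 (pr_nonneg _ _)).trans (h4.trans (pr_mono _ ?_))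
    rintro ω ⟨h5, h6⟩ j hj
    rcases mem_insert.1 hj with rfl | hj
    · exact h5
    · exact h6 j hj

/-- A path in a vertical strip which goes from below `y₀` to above `y₁` crosses the rectangle. -/
theorem bt_of_conn {ω : Cfg} {c x₀ x₁ y₀ y₁ : ℤ} {F : Set (ℤ × ℤ)} {u v : ℤ × ℤ}
    (hF : ∀ f ∈ F, x₀ ≤ f.1 ∧ f.1 < x₁) (hy : y₀ < y₁) (hpar : (u.1 + u.2 - c) % 2 = 0)
    (hu : u.2 ≤ y₀) (hv : y₁ ≤ v.2) (h : Conn ω F u v) : ω ∈ BT c x₀ x₁ y₀ y₁ := by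
  rw [← RswF.lr_swap]
  have h2 : Conn (fun f : ℤ × ℤ => ω (f.2, f.1)) {f | (f.2, f.1) ∈ F} (u.2, u.1) (v.2, v.1) := by
    refine GridA.conn_lift (fun w : ℤ × ℤ => (w.2, w.1)) ?_ h
    rintro w w' ⟨x, y, hm, hh⟩
    refine ⟨y, x, hm, ?_⟩
    rcases hh with ⟨h1, ⟨rfl, rfl⟩ | ⟨rfl, rfl⟩⟩ | ⟨h1, ⟨rfl, rfl⟩ | ⟨rfl, rfl⟩⟩
    · exact Or.inl ⟨h1, Or.inl ⟨rfl, rfl⟩⟩
    · exact Or.inl ⟨h1, Or.inr ⟨rfl, rfl⟩⟩
    · exact Or.inr ⟨h1, Or.inr ⟨rfl, rfl⟩⟩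
    · exact Or.inr ⟨h1, Or.inl ⟨rfl, rfl⟩⟩
  exact RswF.lr_of_conn (F := {f | (f.2, f.1) ∈ F}) (fun f hf => hF _ hf) hy
    (by dsimp only; omega) hu hv h2

theorem lr_of_conn {ω : Cfg} {c x₀ x₁ y₀ y₁ : ℤ} {F : Set (ℤ × ℤ)} {u v : ℤ × ℤ}
    (hF : ∀ f ∈ F, y₀ ≤ f.2 ∧ f.2 < y₁) (hx : x₀ < x₁) (hpar : (u.1 + u.2 - c) % 2 = 0)
    (hu : u.1 ≤ x₀) (hv : x₁ ≤ v.1) (h : Conn ω F u v) : ω ∈ LR c x₀ x₁ y₀ y₁ :=
  RswF.lr_of_conn hF hx hpar hu hv h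

/-- The four crossings block every arm. -/
theorem blk_not_arm {col : ℤ} {p : ℤ × ℤ} {r : ℤ} (hr : 0 < r) {ω : Cfg} (h : ω ∈ Blk col p r) :
    ω ∉ ArmB col p r (4 * r) := by
  obtain ⟨hT, hB, hL, hR⟩ := h
  rintro ⟨u, v, h1, h2, h3, h4, h5, h6, h7⟩
  have hp := Conn.parity h7
  obtain ⟨h8, hv1, hv2, hv3, hv4⟩ := h6
  rcases h8 with h8 | h8 | h8 | h8
  · -- left
    have h9 : ω ∈ LR col (p.1 - 4 * r) (p.1 - r) (p.2 - 4 * r) (p.2 + 4 * r) :=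
      lr_of_conn (F := RFb p (4 * r)) (fun f hf => by
        have := mem_RFb.1 (mem_coe.1 hf); omega) (by omega) (by omega) (by omega) (by omega)
        h7.symm
    exact not_lr_and_bt col (by omega) (by omega) ω ⟨h9, hL⟩
  · have h9 : ω ∈ LR col (p.1 + r) (p.1 + 4 * r) (p.2 - 4 * r) (p.2 + 4 * r) :=
      lr_of_conn (F := RFb p (4 * r)) (fun f hf => by
        have := mem_RFb.1 (mem_coe.1 hf); omega) (by omega) (by omega) (by omega) (by omega) h7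
    exact not_lr_and_bt col (by omega) (by omega) ω ⟨h9, hR⟩
  · have h9 : ω ∈ BT (col + 1 + 1) (p.1 - 4 * r) (p.1 + 4 * r) (p.2 - 4 * r) (p.2 - r) :=
      bt_of_conn (F := RFb p (4 * r)) (fun f hf => by
        have := mem_RFb.1 (mem_coe.1 hf); omega) (by omega) (by omega) (by omega) (by omega)
        h7.symm
    exact not_lr_and_bt (col + 1) (by omega) (by omega) ω ⟨hB, h9⟩
  · have h9 : ω ∈ BT (col + 1 + 1) (p.1 - 4 * r) (p.1 + 4 * r) (p.2 + r) (p.2 + 4 * r) :=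
      bt_of_conn (F := RFb p (4 * r)) (fun f hf => by
        have := mem_RFb.1 (mem_coe.1 hf); omega) (by omega) (by omega) (by omega) (by omega) h7
    exact not_lr_and_bt (col + 1) (by omega) (by omega) ω ⟨hT, h9⟩

theorem depOn_Blk {col : ℤ} {p : ℤ × ℤ} {r : ℤ} (hr : 0 < r) :
    DepOn ((RFb p (4 * r) \ RFb p r : Finset (ℤ × ℤ)) : Set (ℤ × ℤ)) (Blk col p r) := by
  refine depOn_inter' (depOn_mono' (depOn_LR _ _ _ _ _) ?_) (depOn_inter'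
    (depOn_mono' (depOn_LR _ _ _ _ _) ?_) (depOn_inter'
    (depOn_mono' (depOn_BT _ _ _ _ _) ?_) (depOn_mono' (depOn_BT _ _ _ _ _) ?_)))
  all_goals
    intro f hf
    rw [mem_coe, mem_RFi] at hf
    rw [mem_coe, mem_sdiff, mem_RFb, mem_RFb]
    omega

theorem incD_Blk (col : ℤ) (p : ℤ × ℤ) (r : ℤ) : IncD (parD (col + 1)) (Blk col p r) :=
  incD_inter' (incD_LR _ _ _ _ _) (incD_inter' (incD_LR _ _ _ _ _)
    (incD_inter' (incD_BT' _ _ _ _ _) (incD_BT' _ _ _ _ _)))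

/-- **Blocking annuli** have positive probability. -/
theorem pr_Blk : ∃ c : ℝ, 0 < c ∧ ∀ (col : ℤ) (p : ℤ × ℤ) (r : ℤ) (S : Finset (ℤ × ℤ)), 0 < r →
    RFb p (4 * r) \ RFb p r ⊆ S → c ≤ pr S (Blk col p r) := by
  obtain ⟨c, hc, h⟩ := rswF 3
  obtain ⟨c', hc', h'⟩ := rswF' 3
  refine ⟨c * (c * (c' * c')), by positivity, ?_⟩
  intro col p r S hr hS
  set W := S ∪ RFb p (4 * r) with hW
  have hWb : RFb p (4 * r) ⊆ W := subset_union_right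
  have e : pr W (Blk col p r) = pr S (Blk col p r) := by
    rw [pr_eq_of_depOn (depOn_Blk hr) hS, pr_eq_of_depOn (depOn_Blk hr)
      (hS.trans subset_union_left)]
  rw [← e]
  have s1 : RF (p.1 - 4 * r) (p.1 + 4 * r) (p.2 + r) (p.2 + 4 * r) ⊆ W := by
    refine Subset.trans ?_ hWb
    intro f hf; rw [mem_RFi] at hf; rw [mem_RFb]; omega
  have s2 : RF (p.1 - 4 * r) (p.1 + 4 * r) (p.2 - 4 * r) (p.2 - r) ⊆ W := by
    refine Subset.trans ?_ hWb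
    intro f hf; rw [mem_RFi] at hf; rw [mem_RFb]; omega
  have s3 : RF (p.1 - 4 * r) (p.1 - r) (p.2 - 4 * r) (p.2 + 4 * r) ⊆ W := by
    refine Subset.trans ?_ hWb
    intro f hf; rw [mem_RFi] at hf; rw [mem_RFb]; omega
  have s4 : RF (p.1 + r) (p.1 + 4 * r) (p.2 - 4 * r) (p.2 + 4 * r) ⊆ W := by
    refine Subset.trans ?_ hWb
    intro f hf; rw [mem_RFi] at hf; rw [mem_RFb]; omega
  have p1 : c ≤ pr W (LR (col + 1) (p.1 - 4 * r) (p.1 + 4 * r) (p.2 + r) (p.2 + 4 * r)) := by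
    rw [pr_LR_window s1]
    exact h _ _ _ _ _ (by omega) (by omega) (by push_cast; omega)
  have p2 : c ≤ pr W (LR (col + 1) (p.1 - 4 * r) (p.1 + 4 * r) (p.2 - 4 * r) (p.2 - r)) := by
    rw [pr_LR_window s2]
    exact h _ _ _ _ _ (by omega) (by omega) (by push_cast; omega)
  have p3 : c' ≤ pr W (BT (col + 1) (p.1 - 4 * r) (p.1 - r) (p.2 - 4 * r) (p.2 + 4 * r)) := by
    rw [pr_BT_window s3]
    exact h' _ _ _ _ _ (by omega) (by omega) (by push_cast; omega)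
  have p4 : c' ≤ pr W (BT (col + 1) (p.1 + r) (p.1 + 4 * r) (p.2 - 4 * r) (p.2 + 4 * r)) := by
    rw [pr_BT_window s4]
    exact h' _ _ _ _ _ (by omega) (by omega) (by push_cast; omega)
  have d1 := depOn_mono' (depOn_LR (col + 1) (p.1 - 4 * r) (p.1 + 4 * r) (p.2 + r) (p.2 + 4 * r))
    (coe_subset.2 s1)
  have d2 := depOn_mono' (depOn_LR (col + 1) (p.1 - 4 * r) (p.1 + 4 * r) (p.2 - 4 * r) (p.2 - r))
    (coe_subset.2 s2)
  have d3 := depOn_mono' (depOn_BT (col + 1) (p.1 - 4 * r) (p.1 - r) (p.2 - 4 * r) (p.2 + 4 * r))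
    (coe_subset.2 s3)
  have d4 := depOn_mono' (depOn_BT (col + 1) (p.1 + r) (p.1 + 4 * r) (p.2 - 4 * r) (p.2 + 4 * r))
    (coe_subset.2 s4)
  have i3 := incD_BT' (col + 1) (p.1 - 4 * r) (p.1 - r) (p.2 - 4 * r) (p.2 + 4 * r)
  have i4 := incD_BT' (col + 1) (p.1 + r) (p.1 + 4 * r) (p.2 - 4 * r) (p.2 + 4 * r)
  have q3 := harris _ d3 d4 i3 i4
  have q2 := harris _ d2 (depOn_inter' d3 d4) (incD_LR _ _ _ _ _) (incD_inter' i3 i4)
  have q1 := harris _ d1 (depOn_inter' d2 (depOn_inter' d3 d4)) (incD_LR _ _ _ _ _)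
    (incD_inter' (incD_LR (col + 1) (p.1 - 4 * r) (p.1 + 4 * r) (p.2 - 4 * r) (p.2 - r))
      (incD_inter' i3 i4))
  have r3 : c' * c' ≤ _ := (mul_le_mul p3 p4 hc'.le (pr_nonneg _ _)).trans q3
  have r2 : c * (c' * c') ≤ _ := (mul_le_mul p2 r3 (by positivity) (pr_nonneg _ _)).trans q2
  exact (mul_le_mul p1 r2 (by positivity) (pr_nonneg _ _)).trans q1

/-! ### Arms -/

theorem depOn_ArmB (col : ℤ) (p : ℤ × ℤ) (r R : ℤ) :
    DepOn (RFb p R : Set (ℤ × ℤ)) (ArmB col p r R) := by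
  intro ω ω' h
  simp only [ArmB, Set.mem_ofPred_eq, GridA.conn_iff _ h]

theorem ArmB_mono {col : ℤ} {p : ℤ × ℤ} {r r' R R' : ℤ} (h1 : r ≤ r') (h2 : R' ≤ R) (h3 : r ≤ R')
    (h0 : 0 ≤ r) : ArmB col p r R ⊆ ArmB col p r' R' := by
  rintro ω ⟨u, v, a1, a2, a3, a4, a5, a6, a7⟩
  obtain ⟨b1, b2, b3, b4, b5⟩ := a6
  obtain ⟨w, hw, hw'⟩ := Conn.toBd (x₀ := p.1 - R') (x₁ := p.1 + R') (y₀ := p.2 - R')
    (y₁ := p.2 + R') a7 (by omega) (by omega)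
  exact ⟨u, w, by omega, by omega, by omega, by omega, a5, hw',
    Conn.mono Set.inter_subset_right hw⟩

/-- No arm in an annulus with positive probability. -/
theorem pr_ArmB_le : ∃ c : ℝ, 0 < c ∧ ∀ (col : ℤ) (p : ℤ × ℤ) (r : ℤ), 0 < r →
    pr (RFb p (4 * r)) (ArmB col p r (4 * r)) ≤ 1 - c := by
  obtain ⟨c, hc, h⟩ := pr_Blk
  refine ⟨c, hc, fun col p r hr => ?_⟩
  have h1 := h col p r (RFb p (4 * r)) hr sdiff_subset
  have h2 : pr (RFb p (4 * r)) (ArmB col p r (4 * r)) ≤ pr (RFb p (4 * r)) (Blk col p r)ᶜ :=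
    pr_mono _ fun ω hω hb => blk_not_arm hr hb hω
  rw [pr_compl] at h2
  linarith

/-- Arms over many scales. -/
theorem pr_ArmB_pow : ∃ θ : ℝ, 0 < θ ∧ θ < 1 ∧ ∀ (col : ℤ) (p : ℤ × ℤ) (r : ℤ) (n : ℕ), 0 < r →
    pr (RFb p (4 ^ n * r)) (ArmB col p r (4 ^ n * r)) ≤ θ ^ n := by
  obtain ⟨c, hc, h⟩ := pr_Blk
  refine ⟨max (1 - c) (1 / 2), by positivity, max_lt (by linarith) (by norm_num), ?_⟩
  set θ := max (1 - c) (1 / 2) with hθ
  intro col p r n hr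
  induction n with
  | zero => simpa using pr_le_one _ _
  | succ n ih =>
    set ρ := 4 ^ n * r with hρ
    have hρr : r ≤ ρ := by
      have : (1 : ℤ) ≤ 4 ^ n := one_le_pow₀ (by norm_num)
      nlinarith
    have e : 4 ^ (n + 1) * r = 4 * ρ := by rw [hρ, pow_succ]; ring
    rw [e, pow_succ]
    set A := RFb p (4 * ρ) \ RFb p ρ with hA
    have hsub : RFb p ρ ⊆ RFb p (4 * ρ) := by
      intro f hf; rw [mem_RFb] at hf ⊢; omega
    have hu : RFb p ρ ∪ A = RFb p (4 * ρ) := by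
      rw [hA, union_sdiff_of_subset hsub]
    have h1 : pr (RFb p (4 * ρ)) (ArmB col p r (4 * ρ)) ≤
        pr (RFb p ρ ∪ A) (ArmB col p r ρ ∩ (Blk col p ρ)ᶜ) := by
      rw [hu]
      refine pr_mono _ fun ω hω => ⟨ArmB_mono le_rfl (by omega) hρr hr.le hω, fun hb => ?_⟩
      exact blk_not_arm (by omega) hb (ArmB_mono hρr le_rfl (by omega) hr.le hω)
    rw [pr_inter_of_disjoint (depOn_ArmB col p r ρ) (depOn_compl (depOn_Blk (by omega)))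
      disjoint_sdiff, pr_compl] at h1
    have h2 := h col p ρ A (by omega) (Subset.refl _)
    have h3 : 1 - pr A (Blk col p ρ) ≤ θ := by
      have := le_max_left (1 - c) (1 / 2 : ℝ)
      linarith
    refine h1.trans (mul_le_mul ih h3 ?_ (by positivity))
    have := pr_le_one A (Blk col p ρ)
    linarith

/-- **The one-arm bound.** -/
theorem oneArm : ∃ C β : ℝ, 0 < C ∧ 0 < β ∧ ∀ (col : ℤ) (p : ℤ × ℤ) (r R : ℤ), 0 < r → r ≤ R →
    pr (RFb p R) (ArmB col p r R) ≤ C * ((r : ℝ) / R) ^ β := by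
  obtain ⟨θ, hθ0, hθ1, h⟩ := pr_ArmB_pow
  set β := -Real.log θ / Real.log 4 with hβ
  have hl4 : 0 < Real.log 4 := Real.log_pos (by norm_num)
  have hlθ : Real.log θ < 0 := Real.log_neg hθ0 hθ1
  have hβ0 : 0 < β := div_pos (by linarith) hl4
  have h4β : (4 : ℝ) ^ β = θ⁻¹ := by
    rw [Real.rpow_def_of_pos (by norm_num), hβ, mul_div_cancel₀ _ hl4.ne', Real.exp_neg,
      Real.exp_log hθ0]
  refine ⟨θ⁻¹, β, by positivity, hβ0, ?_⟩
  intro col p r R hr hR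
  have hr' : (0 : ℝ) < r := by exact_mod_cast hr
  have hR' : (0 : ℝ) < R := by exact_mod_cast (lt_of_lt_of_le hr hR)
  have hRr : (1 : ℝ) ≤ R / r := by
    rw [one_le_div hr']; exact_mod_cast hR
  obtain ⟨n, hn1, hn2⟩ := exists_nat_pow_near hRr (show (1 : ℝ) < 4 by norm_num)
  rw [le_div_iff₀ hr'] at hn1
  have hn1' : 4 ^ n * r ≤ R := by exact_mod_cast hn1
  have h1 : pr (RFb p R) (ArmB col p r R) ≤ pr (RFb p R) (ArmB col p r (4 ^ n * r)) := by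
    refine pr_mono _ (ArmB_mono le_rfl hn1' ?_ hr.le)
    have : (1 : ℤ) ≤ 4 ^ n := one_le_pow₀ (by norm_num)
    nlinarith
  rw [pr_eq_of_depOn (depOn_ArmB col p r (4 ^ n * r)) (S' := RFb p R) (by
    intro f hf; rw [mem_RFb] at hf ⊢; omega)] at h1
  refine h1.trans ((h col p r n hr).trans ?_)
  -- `θ ^ n = θ⁻¹ (4 ^ (n+1)) ^ (-β) ≤ θ⁻¹ (R / r) ^ (-β)`
  have h2 : ((r : ℝ) / R) ^ β = ((R : ℝ) / r) ^ (-β) := by
    rw [Real.rpow_neg (by positivity), ← Real.inv_rpow (by positivity), inv_div]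
  rw [h2]
  have h3 : ((4 : ℝ) ^ (n + 1)) ^ (-β) ≤ ((R : ℝ) / r) ^ (-β) :=
    Real.rpow_le_rpow_of_nonpos (by positivity) hn2.le (by linarith)
  have h4 : ((4 : ℝ) ^ (n + 1)) ^ (-β) = θ ^ (n + 1) := by
    rw [← Real.rpow_natCast, ← Real.rpow_mul (by norm_num), mul_comm, Real.rpow_mul (by norm_num),
      Real.rpow_neg (by norm_num), h4β, inv_inv, Real.rpow_natCast]
  rw [h4] at h3
  calc θ ^ n = θ⁻¹ * θ ^ (n + 1) := by
        rw [pow_succ, mul_comm (θ ^ n), inv_mul_cancel_left₀ hθ0.ne']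
    _ ≤ _ := mul_le_mul_of_nonneg_left h3 (by positivity)

end Pool.Agent.Perc
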