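import Pool.Agent.Lib.MP_6bd702_percw.TipsB

/-!
# The lower tail: definitions

Squares `QF p R` around a vertex `p`, the unit edges `ue p d` at `p`, the tubes between two tips,
counting events.
-/

set_option autoImplicit false

namespace Pool.Agent.PercL

open Finset Pool.Agent.Perc

/-- The faces of the square of radius `R` around `p`. -/
noncomputable def QF (p : ℤ × ℤ) (R : ℤ) : Finset (ℤ × ℤ) :=
  RF (p.1 - R) (p.1 + R) (p.2 - R) (p.2 + R)

/-- The neighbour of `p` in the direction `d` (east, north, west, south). -/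
def nb (p : ℤ × ℤ) : Fin 4 → ℤ × ℤ :=
  ![(p.1 + 1, p.2), (p.1, p.2 + 1), (p.1 - 1, p.2), (p.1, p.2 - 1)]

/-- The unit edge from `p` to `nb p d`. -/
def ue (p : ℤ × ℤ) : Fin 4 → UE :=
  ![(p.1, p.2, false), (p.1, p.2, true), (p.1 - 1, p.2, false), (p.1, p.2 - 1, true)]

/-- Both ends of the unit edge `ue p d` are connected to the boundary of the square. -/
def TA (p : ℤ × ℤ) (d : Fin 4) (R : ℤ) : Set Cfg :=
  {ω | ToBd (p.1 - R) (p.1 + R) (p.2 - R) (p.2 + R) ω p ∧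
    ToBd (p.1 - R) (p.1 + R) (p.2 - R) (p.2 + R) ω (nb p d)}

open Classical in
/-- Resampling: `ω` on `S`, `ξ` off `S`. -/
noncomputable def mixC (S : Set (ℤ × ℤ)) (ω ξ : Cfg) : Cfg :=
  fun f => if f ∈ S then ω f else ξ f

/-- The visited faces of the component of `ue p d` in the square of radius `R` around `p`. -/
def SQ (ω : Cfg) (p : ℤ × ℤ) (d : Fin 4) (R : ℤ) : Set (ℤ × ℤ) := SS ω (QF p R) (ue p d)

/-- The component of `ue p d` in the square of radius `R` around `p` has a boundary unit edge `t`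
and no other one within distance `ρ`. -/
def FT (ω : Cfg) (p : ℤ × ℤ) (d : Fin 4) (R ρ : ℤ) (t : UE) : Prop :=
  FarTip ω (p.1 - R) (p.1 + R) (p.2 - R) (p.2 + R) (ue p d) ρ t

/-- There is a far tip. -/
def FarEv (p : ℤ × ℤ) (d : Fin 4) (R ρ : ℤ) : Set Cfg := {ω | ∃ t, FT ω p d R ρ t}

/-- There is a far tip on the west side, its upper vertex has parity `a`. -/
def WestT (a : ℤ) (p : ℤ × ℤ) (d : Fin 4) (R ρ : ℤ) : Set Cfg :=
  {ω | ∃ h, (p.1 - R + (h + 1) - a) % 2 = 0 ∧ FT ω p d R ρ (p.1 - R, h, true)}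

/-- The tubes between a tip on the east side (the unit edge from `(x, h)` to `(x, h + 1)`) and a tip
on the west side of a square further to the right (the unit edge from `(x', h')` to
`(x', h' + 1)`): seven rectangles for the parity `a` of the upper vertices (turning around both
tips on the outside) and seven for the parity `a + 1`. -/
def Tubes (a x h x' h' r : ℤ) : Set Cfg :=
  {ξ | (ξ ∈ LR a (x - 4 * r) (x + 5 * r) (h + 3 * r) (h + 4 * r) ∧
    ξ ∈ BT a (x - 4 * r) (x - 3 * r) (h - 4 * r) (h + 4 * r) ∧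
    ξ ∈ LR a (x - 4 * r) x (h - 4 * r) (h - 3 * r) ∧
    ξ ∈ BT a (x + 4 * r) (x + 5 * r) (h + 3 * r) (h' + 4 * r) ∧
    ξ ∈ LR a (x + 4 * r) (x' + 4 * r) (h' + 3 * r) (h' + 4 * r) ∧
    ξ ∈ BT a (x' + 3 * r) (x' + 4 * r) (h' - 4 * r) (h' + 4 * r) ∧
    ξ ∈ LR a x' (x' + 4 * r) (h' - 4 * r) (h' - 3 * r)) ∧
    (ξ ∈ LR (a + 1) (x - 2 * r) (x + 8 * r) (h - 2 * r) (h - r) ∧
    ξ ∈ BT (a + 1) (x - 2 * r) (x - r) (h - 2 * r) (h + 2 * r) ∧
    ξ ∈ LR (a + 1) (x - 2 * r) x (h + r) (h + 2 * r) ∧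
    ξ ∈ BT (a + 1) (x + 7 * r) (x + 8 * r) (h - 2 * r) (h' - r) ∧
    ξ ∈ LR (a + 1) (x + 7 * r) (x' + 2 * r) (h' - 2 * r) (h' - r) ∧
    ξ ∈ BT (a + 1) (x' + r) (x' + 2 * r) (h' - 2 * r) (h' + 2 * r) ∧
    ξ ∈ LR (a + 1) x' (x' + 2 * r) (h' + r) (h' + 2 * r))}

/-- Both arms to distance `R`, and the component of `ue 0 d` in the square of radius `R` has less
than `t` unit edges. -/
def Few (d : Fin 4) (R : ℤ) (t : ℝ) : Set Cfg :=
  {ω | ω ∈ TA (0, 0) d R ∧ ((MM ω (QF (0, 0) R) (ue (0, 0) d)).ncard : ℝ) < t}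

/-- Two-sided bounds for the two-arm probability (parts Q and U). -/
def P2Bounds : Prop := ∃ c C : ℝ, 0 < c ∧ 0 < C ∧ ∀ R : ℕ, 1 ≤ R →
  c * (R : ℝ) ^ (-(1 / 4) : ℝ) ≤ p2 R ∧ p2 R ≤ C * (R : ℝ) ^ (-(1 / 4) : ℝ)

end Pool.Agent.PercL
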