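import Pool.Agent.Lib.MP_6bd702_percw.CoreB

/-!
# The component meets the boundary of a rectangle in at most two unit edges
-/

set_option autoImplicit false

namespace Pool.Agent.Perc

open Finset

variable {ω ω' : Cfg} {F F' : Set (ℤ × ℤ)} {e a a' : UE} {f : ℤ × ℤ} {u v : ℤ × ℤ}
  {x₀ x₁ y₀ y₁ : ℤ}

/-- The unit edges on the boundary of the rectangle. -/
def BdE (x₀ x₁ y₀ y₁ : ℤ) (a : UE) : Prop :=
  (a.2.2 = false ∧ x₀ ≤ a.1 ∧ a.1 < x₁ ∧ (a.2.1 = y₀ ∨ a.2.1 = y₁)) ∨
    (a.2.2 = true ∧ y₀ ≤ a.2.1 ∧ a.2.1 < y₁ ∧ (a.1 = x₀ ∨ a.1 = x₁))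

namespace Tips

/-- The face ahead of a directed unit edge (`true`: upwards or to the right). -/
def ahead : UE × Bool → ℤ × ℤ
  | ((x, y, _), true) => (x, y)
  | ((x, y, false), false) => (x, y - 1)
  | ((x, y, true), false) => (x - 1, y)

/-- The next directed unit edge. -/
def nx (ω : Cfg) : UE × Bool → UE × Bool
  | ((x, y, false), true) => if ω (x, y) = true then ((x + 1, y, true), true) else ((x, y, true), false)
  | ((x, y, true), true) => if ω (x, y) = true then ((x, y + 1, false), true) else ((x, y, false), false)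
  | ((x, y, false), false) =>
    if ω (x, y - 1) = true then ((x, y - 1, true), false) else ((x + 1, y - 1, true), true)
  | ((x, y, true), false) =>
    if ω (x - 1, y) = true then ((x - 1, y, false), false) else ((x - 1, y + 1, false), true)

/-- Reversal of the direction. -/
def rv (A : UE × Bool) : UE × Bool := (A.1, !A.2)

theorem rv_rv (A : UE × Bool) : rv (rv A) = A := by
  unfold rv; simp

theorem ahead_rv_nx (ω : Cfg) (A : UE × Bool) : ahead (rv (nx ω A)) = ahead A := by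
  obtain ⟨⟨x, y, _ | _⟩, _ | _⟩ := A <;> simp only [nx, rv] <;> split_ifs <;> simp [ahead]

theorem nx_rv_nx (ω : Cfg) (A : UE × Bool) : nx ω (rv (nx ω A)) = rv A := by
  obtain ⟨⟨x, y, _ | _⟩, _ | _⟩ := A
  · by_cases h : ω (x, y - 1) = true
    · simp [nx, rv, h]
    · simp [nx, rv, h]
  · by_cases h : ω (x, y) = true
    · simp [nx, rv, h]
    · simp [nx, rv, h]
  · by_cases h : ω (x - 1, y) = true
    · simp [nx, rv, h]
    · simp [nx, rv, h]
  · by_cases h : ω (x, y) = true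
    · simp [nx, rv, h]
    · simp [nx, rv, h]

theorem exists_dir (h : Mt ω f a a') : ∃ d, ahead (a, d) = f ∧ (nx ω (a, d)).1 = a' := by
  obtain ⟨x, y⟩ := f
  unfold Mt at h
  rcases h with ⟨h0, h⟩ | ⟨h0, h⟩
  · rcases h with ⟨rfl, rfl⟩ | ⟨rfl, rfl⟩ | ⟨rfl, rfl⟩ | ⟨rfl, rfl⟩
    · exact ⟨true, by simp [ahead, bo], by simp [nx, bo, ri, h0]⟩
    · exact ⟨false, by simp [ahead, ri], by simp [nx, bo, ri, h0]⟩
    · exact ⟨true, by simp [ahead, le'], by simp [nx, le', to', h0]⟩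
    · exact ⟨false, by simp [ahead, to'], by simp [nx, le', to', h0]⟩
  · rcases h with ⟨rfl, rfl⟩ | ⟨rfl, rfl⟩ | ⟨rfl, rfl⟩ | ⟨rfl, rfl⟩
    · exact ⟨true, by simp [ahead, bo], by simp [nx, bo, le', h0]⟩
    · exact ⟨true, by simp [ahead, le'], by simp [nx, bo, le', h0]⟩
    · exact ⟨false, by simp [ahead, to'], by simp [nx, to', ri, h0]⟩
    · exact ⟨false, by simp [ahead, ri], by simp [nx, to', ri, h0]⟩

/-- One step inside `F`. -/
def R (ω : Cfg) (F : Set (ℤ × ℤ)) (A B : UE × Bool) : Prop := ahead A ∈ F ∧ B = nx ω A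

theorem reach (ha : a ∈ MM ω F e) : ∃ s d, Relation.ReflTransGen (R ω F) (e, s) (a, d) := by
  induction ha with
  | refl => exact ⟨true, true, Relation.ReflTransGen.refl⟩
  | tail hab hs ih =>
    rename_i b b'
    obtain ⟨s, d, hr⟩ := ih
    obtain ⟨f, hf, hm⟩ := hs
    obtain ⟨d', hd, hn⟩ := exists_dir hm
    by_cases hdd : d' = d
    · subst hdd
      refine ⟨s, (nx ω (b, d')).2, ?_⟩
      have h1 : (b', (nx ω (b, d')).2) = nx ω (b, d') := by rw [← hn]
      rw [h1]
      exact hr.tail ⟨by rw [hd]; exact hf, rfl⟩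
    · have hrv : (b, d') = rv (b, d) := by
        unfold rv
        simp only [Prod.mk.injEq, true_and]
        cases d <;> cases d' <;> simp_all
      rcases Relation.ReflTransGen.cases_tail hr with h | ⟨B, hB, hBs⟩
      · -- no step: `b = e`
        have h1 : b = e ∧ d = s := by
          simp only [Prod.mk.injEq] at h; exact h
        obtain ⟨rfl, rfl⟩ := h1
        refine ⟨d', (nx ω (b, d')).2, ?_⟩
        have h1 : (b', (nx ω (b, d')).2) = nx ω (b, d') := by rw [← hn]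
        rw [h1]
        exact Relation.ReflTransGen.single ⟨by rw [hd]; exact hf, rfl⟩
      · obtain ⟨hBF, hB2⟩ := hBs
        refine ⟨s, B.2, ?_⟩
        have h1 : (nx ω (b, d')).1 = B.1 := by
          rw [hrv, hB2, nx_rv_nx]; rfl
        rw [← hn, h1]
        exact hB

theorem ahead_bdE (ha : BdE x₀ x₁ y₀ y₁ a) (d : Bool)
    (h : ahead (a, d) ∈ (RF x₀ x₁ y₀ y₁ : Set (ℤ × ℤ))) :
    ahead (a, !d) ∉ (RF x₀ x₁ y₀ y₁ : Set (ℤ × ℤ)) := by
  obtain ⟨x, y, b⟩ := a
  rw [mem_RF'] at *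
  unfold BdE at ha
  cases b <;> cases d <;> simp [ahead] at * <;> omega

theorem terminal (he : ¬ BdE x₀ x₁ y₀ y₁ e)
    (ha : BdE x₀ x₁ y₀ y₁ a) {s d : Bool}
    (h : Relation.ReflTransGen (R ω (RF x₀ x₁ y₀ y₁)) (e, s) (a, d)) :
    ahead (a, d) ∉ (RF x₀ x₁ y₀ y₁ : Set (ℤ × ℤ)) := by
  rcases Relation.ReflTransGen.cases_tail h with h | ⟨B, hB, hBF, hB2⟩
  · simp only [Prod.mk.injEq] at h
    rw [h.1] at ha
    exact absurd ha he
  · have h1 : ahead (rv (a, d)) ∈ (RF x₀ x₁ y₀ y₁ : Set (ℤ × ℤ)) := by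
      rw [hB2, ahead_rv_nx]; exact hBF
    have h2 := ahead_bdE ha (!d) h1
    rwa [Bool.not_not] at h2

theorem eq_of_terminal {A B C : UE × Bool} (h1 : Relation.ReflTransGen (R ω F) A B)
    (h2 : Relation.ReflTransGen (R ω F) A C) (hB : ahead B ∉ F) (hC : ahead C ∉ F) : B = C := by
  have hU : Relator.RightUnique (R ω F) := by
    intro A B C h h'
    rw [h.2, h'.2]
  rcases Relation.ReflTransGen.total_of_right_unique hU h1 h2 with h | h
  · rcases Relation.ReflTransGen.cases_head h with h | ⟨D, hD, -⟩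
    · exact h
    · exact absurd hD.1 hB
  · rcases Relation.ReflTransGen.cases_head h with h | ⟨D, hD, -⟩
    · exact h.symm
    · exact absurd hD.1 hC

end Tips

open Tips in
/-- (A4) The component meets the boundary in at most two unit edges. -/
theorem tips_le_two (he : ¬ BdE x₀ x₁ y₀ y₁ e) {t t' t'' : UE}
    (ht : t ∈ MM ω (RF x₀ x₁ y₀ y₁) e) (ht' : t' ∈ MM ω (RF x₀ x₁ y₀ y₁) e)
    (ht'' : t'' ∈ MM ω (RF x₀ x₁ y₀ y₁) e) (hb : BdE x₀ x₁ y₀ y₁ t) (hb' : BdE x₀ x₁ y₀ y₁ t')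
    (hb'' : BdE x₀ x₁ y₀ y₁ t'') : t = t' ∨ t = t'' ∨ t' = t'' := by
  obtain ⟨s, d, h⟩ := reach ht
  obtain ⟨s', d', h'⟩ := reach ht'
  obtain ⟨s'', d'', h''⟩ := reach ht''
  have k := terminal he hb h
  have k' := terminal he hb' h'
  have k'' := terminal he hb'' h''
  by_cases h1 : s = s'
  · subst h1
    left
    exact congrArg Prod.fst (eq_of_terminal h h' k k')
  · by_cases h2 : s = s''
    · subst h2
      right; left
      exact congrArg Prod.fst (eq_of_terminal h h'' k k'')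
    · have h3 : s' = s'' := by
        cases s <;> cases s' <;> cases s'' <;> simp_all
      subst h3
      right; right
      exact congrArg Prod.fst (eq_of_terminal h' h'' k' k'')

end Pool.Agent.Perc
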