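import Pool.Agent.Lib.MP_6bd702_perc.BoxDefs

/-!
# Targets of the parts U and W (statements only)
-/

set_option autoImplicit false

namespace Pool.Agent.Perc

open Finset Filter Topology

/-- `sel` chooses for every configuration of the box a vertex of a cluster of largest Euclidean
diameter. -/
def IsSel (n : ℕ) (sel : Finset Edg → ℤ × ℤ) : Prop :=
  ∀ T ⊆ boxE n, sel T ∈ Box n ∧
    ∀ v ∈ Box n, Metric.diam (clS T v) ≤ Metric.diam (clS T (sel T))

/-- Target E: the expectation is of the order `n ^ (7 / 4)`. -/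
def TargetE : Prop := ∃ c C : ℝ, 0 < c ∧ ∀ n : ℕ, 1 ≤ n → ∀ sel : Finset Edg → ℤ × ℤ,
  IsSel n sel →
    c * (n : ℝ) ^ (7 / 4 : ℝ) ≤ exB n (fun T => (perim T (sel T) : ℝ)) ∧
    exB n (fun T => (perim T (sel T) : ℝ)) ≤ C * (n : ℝ) ^ (7 / 4 : ℝ)

/-- Target W: the weak form of the problem file. -/
def TargetW : Prop := ∀ ε : ℝ, 0 < ε → ∀ sel : ℕ → Finset Edg → ℤ × ℤ, (∀ n, IsSel n (sel n)) →
  Tendsto (fun n : ℕ => prB n {T | (n : ℝ) ^ (7 / 4 - ε) < (perim T (sel n T) : ℝ) ∧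
    (perim T (sel n T) : ℝ) < (n : ℝ) ^ (7 / 4 + ε)}) atTop (𝓝 1)

end Pool.Agent.Perc
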