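import Pool.Agent.Lib.MP_6bd702_percw.LowRsw

/-!
# The probability of the tubes (task LowTubes)

The seven rectangles of the parity `a` are disjoint (as sets of faces) from the seven rectangles of
the parity `a + 1` (check of 49 pairs, `h ≤ h'`, `x + 9 r ≤ x'`). Harris for each family
(`incD_conn` in `GridA.lean`: `LR col`, `BT col` are increasing for `parD col`), independence of the
two families (`pr_inter_of_disjoint`, `pr_eq_of_depOn`), RSW for every rectangle: width `r`, length at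
most `(K + 8) r`.
-/

set_option autoImplicit false

namespace Pool.Agent.PercL

open Finset Pool.Agent.Perc

namespace TubesAux

/-- An increasing event of probability at least `c` which depends on the faces of `S`. -/
def Ok (W S : Finset (ℤ × ℤ)) (D : ℤ × ℤ → Bool) (c : ℝ) (A : Set Cfg) : Prop :=
  S ⊆ W ∧ DepOn S A ∧ IncD D A ∧ c ≤ pr W A

theorem Ok.inter {W S S' : Finset (ℤ × ℤ)} {D : ℤ × ℤ → Bool} {c c' : ℝ} {A A' : Set Cfg}
    (hc' : 0 ≤ c') (h : Ok W S D c A) (h' : Ok W S' D c' A') :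
    Ok W (S ∪ S') D (c * c') (A ∩ A') := by
  obtain ⟨s1, d1, i1, p1⟩ := h
  obtain ⟨s2, d2, i2, p2⟩ := h'
  refine ⟨union_subset s1 s2, depOn_inter' (depOn_mono' d1 ?_) (depOn_mono' d2 ?_),
    incD_inter' i1 i2, ?_⟩
  · exact coe_subset.2 subset_union_left
  · exact coe_subset.2 subset_union_right
  · exact (mul_le_mul p1 p2 hc' (pr_nonneg _ _)).trans
      (harris D (depOn_mono' d1 (coe_subset.2 s1)) (depOn_mono' d2 (coe_subset.2 s2)) i1 i2)

theorem ok_LR {k : ℕ} {c : ℝ} (hk : ∀ col x₀ x₁ y₀ y₁ : ℤ, x₀ < x₁ → y₀ < y₁ →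
    x₁ - x₀ ≤ k * (y₁ - y₀) → c ≤ pr (RF x₀ x₁ y₀ y₁) (LR col x₀ x₁ y₀ y₁))
    {W : Finset (ℤ × ℤ)} (col : ℤ) {x₀ x₁ y₀ y₁ : ℤ} (hW : RF x₀ x₁ y₀ y₁ ⊆ W) (h1 : x₀ < x₁)
    (h2 : y₀ < y₁) (h3 : x₁ - x₀ ≤ k * (y₁ - y₀)) :
    Ok W (RF x₀ x₁ y₀ y₁) (parD col) c (LR col x₀ x₁ y₀ y₁) :=
  ⟨hW, depOn_LR _ _ _ _ _, incD_LR _ _ _ _ _, by rw [pr_LR_window hW]; exact hk _ _ _ _ _ h1 h2 h3⟩

theorem ok_BT {k : ℕ} {c : ℝ} (hk : ∀ col x₀ x₁ y₀ y₁ : ℤ, x₀ < x₁ → y₀ < y₁ →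
    y₁ - y₀ ≤ k * (x₁ - x₀) → c ≤ pr (RF x₀ x₁ y₀ y₁) (BT col x₀ x₁ y₀ y₁))
    {W : Finset (ℤ × ℤ)} (col : ℤ) {x₀ x₁ y₀ y₁ : ℤ} (hW : RF x₀ x₁ y₀ y₁ ⊆ W) (h1 : x₀ < x₁)
    (h2 : y₀ < y₁) (h3 : y₁ - y₀ ≤ k * (x₁ - x₀)) :
    Ok W (RF x₀ x₁ y₀ y₁) (parD col) c (BT col x₀ x₁ y₀ y₁) :=
  ⟨hW, depOn_BT _ _ _ _ _, incD_BT' _ _ _ _ _, by rw [pr_BT_window hW]; exact hk _ _ _ _ _ h1 h2 h3⟩

end TubesAux

open TubesAux

theorem pr_Tubes (K : ℕ) : ∃ c : ℝ, 0 < c ∧ ∀ (a r x h x' h' : ℤ), 1 ≤ r → x + 9 * r ≤ x' →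
    x' ≤ x + K * r → h ≤ h' → h' ≤ h + K * r → ∀ W : Finset (ℤ × ℤ),
      RF (x - 4 * r) (x' + 4 * r) (h - 4 * r) (h' + 4 * r) ⊆ W →
        c ≤ pr W (Tubes a x h x' h' r) := by
  obtain ⟨c, hc, hl⟩ := rswF (K + 10)
  obtain ⟨b, hb, hv⟩ := rswF' (K + 10)
  refine ⟨(c * (b * (c * (b * (c * (b * c)))))) * (c * (b * (c * (b * (c * (b * c)))))),
    by positivity, ?_⟩
  intro a r x h x' h' hr hx1 hx2 hh1 hh2 W hW
  have hsub : ∀ x₀ x₁ y₀ y₁ : ℤ, x - 4 * r ≤ x₀ → x₁ ≤ x' + 4 * r → h - 4 * r ≤ y₀ →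
      y₁ ≤ h' + 4 * r → RF x₀ x₁ y₀ y₁ ⊆ W := by
    intro x₀ x₁ y₀ y₁ h1 h2 h3 h4
    refine Subset.trans (fun f hf => ?_) hW
    rw [mem_RFi] at hf ⊢
    omega
  have hL : ∀ col x₀ x₁ y₀ : ℤ, x - 4 * r ≤ x₀ → x₁ ≤ x' + 4 * r → h - 4 * r ≤ y₀ →
      y₀ + r ≤ h' + 4 * r → x₀ < x₁ → Ok W (RF x₀ x₁ y₀ (y₀ + r)) (parD col) c
        (LR col x₀ x₁ y₀ (y₀ + r)) := by
    intro col x₀ x₁ y₀ h1 h2 h3 h4 h5
    refine ok_LR hl col (hsub _ _ _ _ h1 h2 h3 h4) h5 (by omega) ?_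
    have e : y₀ + r - y₀ = r := by ring
    rw [e]
    push_cast
    have e2 : ((K : ℤ) + 10) * r = K * r + 10 * r := by ring
    rw [e2]
    omega
  have hV : ∀ col x₀ y₀ y₁ : ℤ, x - 4 * r ≤ x₀ → x₀ + r ≤ x' + 4 * r → h - 4 * r ≤ y₀ →
      y₁ ≤ h' + 4 * r → y₀ < y₁ → Ok W (RF x₀ (x₀ + r) y₀ y₁) (parD col) b
        (BT col x₀ (x₀ + r) y₀ y₁) := by
    intro col x₀ y₀ y₁ h1 h2 h3 h4 h5
    refine ok_BT hv col (hsub _ _ _ _ h1 h2 h3 h4) (by omega) h5 ?_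
    have e : x₀ + r - x₀ = r := by ring
    rw [e]
    push_cast
    have e2 : ((K : ℤ) + 10) * r = K * r + 10 * r := by ring
    rw [e2]
    omega
  -- the first family
  have A1 := hL a (x - 4 * r) (x + 5 * r) (h + 3 * r) (by omega) (by omega) (by omega) (by omega)
    (by omega)
  have A2 := hV a (x - 4 * r) (h - 4 * r) (h + 4 * r) (by omega) (by omega) (by omega) (by omega)
    (by omega)
  have A3 := hL a (x - 4 * r) x (h - 4 * r) (by omega) (by omega) (by omega) (by omega) (by omega)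
  have A4 := hV a (x + 4 * r) (h + 3 * r) (h' + 4 * r) (by omega) (by omega) (by omega) (by omega)
    (by omega)
  have A5 := hL a (x + 4 * r) (x' + 4 * r) (h' + 3 * r) (by omega) (by omega) (by omega) (by omega)
    (by omega)
  have A6 := hV a (x' + 3 * r) (h' - 4 * r) (h' + 4 * r) (by omega) (by omega) (by omega) (by omega)
    (by omega)
  have A7 := hL a x' (x' + 4 * r) (h' - 4 * r) (by omega) (by omega) (by omega) (by omega)
    (by omega)
  have B1 := hL (a + 1) (x - 2 * r) (x + 8 * r) (h - 2 * r) (by omega) (by omega) (by omega)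
    (by omega) (by omega)
  have B2 := hV (a + 1) (x - 2 * r) (h - 2 * r) (h + 2 * r) (by omega) (by omega) (by omega)
    (by omega) (by omega)
  have B3 := hL (a + 1) (x - 2 * r) x (h + r) (by omega) (by omega) (by omega) (by omega) (by omega)
  have B4 := hV (a + 1) (x + 7 * r) (h - 2 * r) (h' - r) (by omega) (by omega) (by omega) (by omega)
    (by omega)
  have B5 := hL (a + 1) (x + 7 * r) (x' + 2 * r) (h' - 2 * r) (by omega) (by omega) (by omega)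
    (by omega) (by omega)
  have B6 := hV (a + 1) (x' + r) (h' - 2 * r) (h' + 2 * r) (by omega) (by omega) (by omega)
    (by omega) (by omega)
  have B7 := hL (a + 1) x' (x' + 2 * r) (h' + r) (by omega) (by omega) (by omega) (by omega)
    (by omega)
  have hA := A1.inter (by positivity) (A2.inter (by positivity) (A3.inter (by positivity)
    (A4.inter (by positivity) (A5.inter (by positivity) (A6.inter (by positivity) A7)))))
  have hB := B1.inter (by positivity) (B2.inter (by positivity) (B3.inter (by positivity)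
    (B4.inter (by positivity) (B5.inter (by positivity) (B6.inter (by positivity) B7)))))
  obtain ⟨sA, dA, -, pA⟩ := hA
  obtain ⟨sB, dB, -, pB⟩ := hB
  have hdis := pr_inter_of_disjoint dA dB (by
    rw [Finset.disjoint_left]
    intro f hf hg
    simp only [mem_union, mem_RFi] at hf hg
    omega)
  rw [pr_eq_of_depOn dA sA] at pA
  rw [pr_eq_of_depOn dB sB] at pB
  have hfin := mul_le_mul pA pB (by positivity) (pr_nonneg _ _)
  rw [← hdis, ← pr_eq_of_depOn (S' := W) (depOn_inter' (depOn_mono' dA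
    (coe_subset.2 subset_union_left)) (depOn_mono' dB (coe_subset.2 subset_union_right)))
    (union_subset sA sB)] at hfin
  refine hfin.trans (pr_mono _ ?_)
  rintro ω ⟨⟨a1, a2, a3, a4, a5, a6, a7⟩, b1, b2, b3, b4, b5, b6, b7⟩
  have e1 : h + 3 * r + r = h + 4 * r := by ring
  have e2 : x - 4 * r + r = x - 3 * r := by ring
  have e3 : h - 4 * r + r = h - 3 * r := by ring
  have e4 : x + 4 * r + r = x + 5 * r := by ring
  have e5 : h' + 3 * r + r = h' + 4 * r := by ring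
  have e6 : x' + 3 * r + r = x' + 4 * r := by ring
  have e7 : h' - 4 * r + r = h' - 3 * r := by ring
  have f1 : h - 2 * r + r = h - r := by ring
  have f2 : x - 2 * r + r = x - r := by ring
  have f3 : h + r + r = h + 2 * r := by ring
  have f4 : x + 7 * r + r = x + 8 * r := by ring
  have f5 : h' - 2 * r + r = h' - r := by ring
  have f6 : x' + r + r = x' + 2 * r := by ring
  have f7 : h' + r + r = h' + 2 * r := by ring
  rw [e1] at a1
  rw [e2] at a2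
  rw [e3] at a3
  rw [e4] at a4
  rw [e5] at a5
  rw [e6] at a6
  rw [e7] at a7
  rw [f1] at b1
  rw [f2] at b2
  rw [f3] at b3
  rw [f4] at b4
  rw [f5] at b5
  rw [f6] at b6
  rw [f7] at b7
  exact ⟨⟨a1, a2, a3, a4, a5, a6, a7⟩, b1, b2, b3, b4, b5, b6, b7⟩

end Pool.Agent.PercL
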