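import Pool.Agent.Lib.MP_6bd702_percw.CoreDefs

/-!
# The component of a unit edge: potential
-/

set_option autoImplicit false

namespace Pool.Agent.Perc

open Finset

variable {ω ω' : Cfg} {F F' : Set (ℤ × ℤ)} {e a a' : UE} {f : ℤ × ℤ}

theorem ua_mk (x y : ℤ) (b : Bool) : ua (x, y, b) = (x, y) := rfl
theorem ub_false (x y : ℤ) : ub (x, y, false) = (x + 1, y) := by simp [ub]
theorem ub_true (x y : ℤ) : ub (x, y, true) = (x, y + 1) := by simp [ub]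

theorem Mt.symm (h : Mt ω f a a') : Mt ω f a' a := by
  unfold Mt at *
  tauto

theorem Mt.left (h : Mt ω f a a') : IsSide f a := by
  unfold Mt at h; unfold IsSide
  tauto

theorem Mt.right (h : Mt ω f a a') : IsSide f a' := h.symm.left

theorem mem_MM_self : e ∈ MM ω F e := Relation.ReflTransGen.refl

theorem MM_step (hf : f ∈ F) (h : Mt ω f a a') (ha : a ∈ MM ω F e) : a' ∈ MM ω F e :=
  Relation.ReflTransGen.tail ha ⟨f, hf, h⟩

theorem MM_iff (hf : f ∈ F) (h : Mt ω f a a') : a ∈ MM ω F e ↔ a' ∈ MM ω F e :=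
  ⟨MM_step hf h, MM_step hf h.symm⟩

theorem MM_mono (h : F ⊆ F') (ha : a ∈ MM ω F e) : a ∈ MM ω F' e := by
  induction ha with
  | refl => exact mem_MM_self
  | tail _ hs ih =>
    obtain ⟨f, hf, hm⟩ := hs
    exact MM_step (h hf) hm ih

theorem SS_sub : SS ω F e ⊆ F := fun _ h => h.1

/-- In every face the number of sides in the component is even. -/
theorem MM_even (hf : f ∈ F) :
    (bo f ∈ MM ω F e ↔ ri f ∈ MM ω F e) ∧ (le' f ∈ MM ω F e ↔ to' f ∈ MM ω F e) ∧ ω f = true ∨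
    (bo f ∈ MM ω F e ↔ le' f ∈ MM ω F e) ∧ (to' f ∈ MM ω F e ↔ ri f ∈ MM ω F e) ∧ ω f = false := by
  cases h : ω f with
  | true =>
    left
    exact ⟨MM_iff hf (Or.inl ⟨h, Or.inl ⟨rfl, rfl⟩⟩),
      MM_iff hf (Or.inl ⟨h, Or.inr (Or.inr (Or.inl ⟨rfl, rfl⟩))⟩), rfl⟩
  | false =>
    right
    exact ⟨MM_iff hf (Or.inr ⟨h, Or.inl ⟨rfl, rfl⟩⟩),
      MM_iff hf (Or.inr ⟨h, Or.inr (Or.inr (Or.inl ⟨rfl, rfl⟩))⟩), rfl⟩

/-- Indicator in `ZMod 2`. -/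
noncomputable def ind2 (P : Prop) : ZMod 2 := by classical exact if P then 1 else 0

theorem ind2_pos {P : Prop} (h : P) : ind2 P = 1 := by simp [ind2, h]
theorem ind2_neg {P : Prop} (h : ¬ P) : ind2 P = 0 := by simp [ind2, h]
theorem ind2_eq_one {P : Prop} : ind2 P = 1 ↔ P := by
  by_cases h : P
  · rw [ind2_pos h]; exact ⟨fun _ => h, fun _ => rfl⟩
  · rw [ind2_neg h]; exact ⟨fun h' => absurd h' (by decide), fun h' => absurd h' h⟩

theorem ne_add_ind2 {P : Prop} (x : ZMod 2) : x ≠ x + ind2 P ↔ P := by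
  by_cases h : P
  · rw [ind2_pos h]
    exact ⟨fun _ => h, fun _ => by revert x; decide⟩
  · rw [ind2_neg h, add_zero]
    exact ⟨fun h' => absurd rfl h', fun h' => absurd h' h⟩

theorem ind2_congr {P Q : Prop} (h : P ↔ Q) : ind2 P = ind2 Q := by
  by_cases hP : P
  · rw [ind2_pos hP, ind2_pos (h.1 hP)]
  · rw [ind2_neg hP, ind2_neg fun hQ => hP (h.2 hQ)]

theorem z2_add_self (x : ZMod 2) : x + x = 0 := CharTwo.add_self_eq_zero x

theorem z2_cases (x : ZMod 2) : x = 0 ∨ x = 1 := by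
  revert x; decide

theorem z2_ne (x y : ZMod 2) : x ≠ y ↔ x = y + 1 := by
  revert x y; decide

theorem z2_of_ne {x y z : ZMod 2} (h1 : x ≠ y) (h2 : z ≠ y) : x = z := by
  revert x y z; decide

theorem z2_or {x y : ZMod 2} (h : x ≠ y) (z : ZMod 2) : z = x ∨ z = y := by
  revert x y z; decide

theorem pot_eq (x₀ y₀ : ℤ) (M : Set UE) (w : ℤ × ℤ) :
    pot x₀ y₀ M w = (∑ i ∈ Ico x₀ w.1, ind2 (((i, y₀, false) : UE) ∈ M)) +
      ∑ j ∈ Ico y₀ w.2, ind2 (((w.1, j, true) : UE) ∈ M) := by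
  unfold pot ind2
  rfl

theorem sum_Ico_succ' {a b : ℤ} (h : a ≤ b) (g : ℤ → ZMod 2) :
    ∑ i ∈ Ico a (b + 1), g i = ∑ i ∈ Ico a b, g i + g b := by
  rw [show Ico a (b + 1) = insert b (Ico a b) by ext i; simp only [mem_Ico, mem_insert]; omega,
    sum_insert (by simp), add_comm]

/-- Vertical increments of the potential. -/
theorem pot_ver {x₀ y₀ : ℤ} {M : Set UE} {x y : ℤ} (hy : y₀ ≤ y) :
    pot x₀ y₀ M (x, y + 1) = pot x₀ y₀ M (x, y) + ind2 (((x, y, true) : UE) ∈ M) := by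
  rw [pot_eq, pot_eq]
  simp only
  rw [sum_Ico_succ' hy, add_assoc]

/-- The number of sides in `M` is even. -/
def EvenAt (M : Set UE) (f : ℤ × ℤ) : Prop :=
  ind2 (bo f ∈ M) + ind2 (ri f ∈ M) + (ind2 (to' f ∈ M) + ind2 (le' f ∈ M)) = 0

/-- Horizontal increments of the potential. -/
theorem pot_hor {x₀ x₁ y₀ y₁ : ℤ} {M : Set UE}
    (hM : ∀ f ∈ RF x₀ x₁ y₀ y₁, EvenAt M f) {x : ℤ} (hx : x₀ ≤ x) (hx1 : x < x₁) {y : ℤ}
    (hy : y₀ ≤ y) (hy1 : y ≤ y₁) :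
    pot x₀ y₀ M (x + 1, y) = pot x₀ y₀ M (x, y) + ind2 (((x, y, false) : UE) ∈ M) := by
  revert hy1
  induction y, hy using Int.leInduction with
  | base =>
    intro _
    rw [pot_eq, pot_eq]
    simp only [Ico_self, sum_empty, add_zero]
    exact sum_Ico_succ' hx _
  | succ y hy ih =>
    intro hy1
    rw [pot_ver hy, pot_ver hy, ih (by omega)]
    have h := hM (x, y) (by simp only [RF, mem_product, mem_Ico]; omega)
    unfold EvenAt bo ri to' le' at h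
    simp only at h
    generalize ind2 (((x, y, false) : UE) ∈ M) = p1 at h ⊢
    generalize ind2 (((x + 1, y, true) : UE) ∈ M) = p2 at h ⊢
    generalize ind2 (((x, y + 1, false) : UE) ∈ M) = p3 at h ⊢
    generalize ind2 (((x, y, true) : UE) ∈ M) = p4 at h ⊢
    generalize pot x₀ y₀ M (x, y) = p5
    revert p1 p2 p3 p4 p5
    decide

theorem evenAt_MM (hf : f ∈ F) : EvenAt (MM ω F e) f := by
  unfold EvenAt
  rcases MM_even (ω := ω) (e := e) hf with ⟨h1, h2, _⟩ | ⟨h1, h2, _⟩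
  · rw [ind2_congr h1, ind2_congr h2, z2_add_self, z2_add_self, add_zero]
  · rw [ind2_congr h1, ind2_congr h2]
    generalize ind2 (le' f ∈ MM ω F e) = p1
    generalize ind2 (ri f ∈ MM ω F e) = p2
    revert p1 p2
    decide

variable {x₀ x₁ y₀ y₁ : ℤ}

theorem mem_RF {x₀ x₁ y₀ y₁ : ℤ} {f : ℤ × ℤ} :
    f ∈ RF x₀ x₁ y₀ y₁ ↔ x₀ ≤ f.1 ∧ f.1 < x₁ ∧ y₀ ≤ f.2 ∧ f.2 < y₁ := by
  simp only [RF, mem_product, mem_Ico]
  tauto

theorem mem_RF' {x₀ x₁ y₀ y₁ : ℤ} {f : ℤ × ℤ} :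
    f ∈ (RF x₀ x₁ y₀ y₁ : Set (ℤ × ℤ)) ↔ x₀ ≤ f.1 ∧ f.1 < x₁ ∧ y₀ ≤ f.2 ∧ f.2 < y₁ := by
  rw [Finset.mem_coe, mem_RF]

/-- The potential changes exactly across the unit edges of the component. -/
theorem potR_iff {a : UE} (ha : InR x₀ x₁ y₀ y₁ (ua a)) (hb : InR x₀ x₁ y₀ y₁ (ub a)) :
    a ∈ MM ω (RF x₀ x₁ y₀ y₁) e ↔ potR ω x₀ x₁ y₀ y₁ e (ua a) ≠ potR ω x₀ x₁ y₀ y₁ e (ub a) := by
  obtain ⟨x, y, b⟩ := a
  unfold potR
  unfold InR at ha hb
  cases b with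
  | true =>
    rw [ua_mk, ub_true] at *
    simp only at ha hb
    rw [pot_ver ha.2.2.1, ne_add_ind2]
  | false =>
    rw [ua_mk, ub_false] at *
    simp only at ha hb
    rw [pot_hor (x₁ := x₁) (y₁ := y₁) (fun f hf => evenAt_MM (by exact_mod_cast hf)) ha.1 (by omega)
      ha.2.2.1 ha.2.2.2, ne_add_ind2]

end Pool.Agent.Perc
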