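import Pool.Agent.Lib.MP_6bd702_percw.Layer
import Pool.Agent.Lib.MP_6bd702_perc.SmallClusters
import Pool.Agent.Lib.MP_6bd702_perc.BoxAux

/-!
# The largest diameter is large with high probability
-/

set_option autoImplicit false

namespace Pool.Agent.PercW

open Finset Pool.Agent.MP_6bd702 Pool.Agent.MP_6bd702.H23 Pool.Agent.Perc
open Pool.Agent.Perc.SmallClusters

/-- Comparison of the two descriptions of the law. -/
theorem prB_le {n : ℕ} {A : Set (Finset Edg)} {B : Set (Set Ed)}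
    (h : ∀ T ⊆ boxE n, T ∈ A → (T : Set Ed) ∈ B) :
    prB n A ≤ Pool.Agent.MP_6bd702.H23.pr (EW 0 n 0 n) B := by
  rw [prB_eq, boxE_eq]
  refine Pool.Agent.MP_6bd702.H23.pr_mono' ?_
  rintro ω hω ⟨T, hT, rfl⟩
  refine h T ?_ hT
  rw [boxE_eq]
  exact fun e he => hω he

theorem prB_mono {n : ℕ} {A B : Set (Finset Edg)} (h : ∀ T ⊆ boxE n, T ∈ A → T ∈ B) :
    prB n A ≤ prB n B := by
  classical
  unfold prB
  refine div_le_div_of_nonneg_right ?_ (by positivity)
  rw [Nat.cast_le]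
  refine card_le_card fun T hT => ?_
  rw [mem_filter] at hT ⊢
  exact ⟨hT.1, h T (mem_powerset.1 hT.1) hT.2⟩

theorem prB_nonneg (n : ℕ) (A : Set (Finset Edg)) : 0 ≤ prB n A := by
  unfold prB; positivity

theorem prB_union_le (n : ℕ) (A B : Set (Finset Edg)) : prB n (A ∪ B) ≤ prB n A + prB n B := by
  classical
  unfold prB
  rw [← add_div]
  refine div_le_div_of_nonneg_right ?_ (by positivity)
  rw [← Nat.cast_add, Nat.cast_le]
  refine le_trans (card_le_card ?_) (card_union_le _ _)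
  intro T hT
  simp only [mem_filter, Set.mem_union] at hT
  simp only [mem_union, mem_filter]
  rcases hT with ⟨h1, h2 | h2⟩
  · exact Or.inl ⟨h1, h2⟩
  · exact Or.inr ⟨h1, h2⟩

theorem prB_biUnion_le (n : ℕ) {ι : Type*} [DecidableEq ι] (s : Finset ι) (A : ι → Set (Finset Edg))
    {q : ℝ} (h : ∀ i ∈ s, prB n (A i) ≤ q) : prB n {T | ∃ i ∈ s, T ∈ A i} ≤ s.card * q := by
  induction s using Finset.induction_on with
  | empty =>
    refine le_of_eq ?_
    unfold prB
    simp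
  | insert i s hi ih =>
    have h2 : ∀ T ⊆ boxE n, T ∈ {T | ∃ j ∈ insert i s, T ∈ A j} →
        T ∈ A i ∪ {T | ∃ j ∈ s, T ∈ A j} := by
      rintro T - ⟨j, hj, hT⟩
      rcases Finset.mem_insert.1 hj with h3 | h3
      · left; rw [← h3]; exact hT
      · right; exact ⟨j, h3, hT⟩
    refine (prB_mono h2).trans ((prB_union_le _ _ _).trans ?_)
    rw [card_insert_of_notMem hi]
    push_cast
    have h3 := h i (mem_insert_self i s)
    have h4 := ih fun j hj => h j (mem_insert_of_mem hj)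
    linarith

theorem prB_add_compl (n : ℕ) (A : Set (Finset Edg)) : prB n A + prB n Aᶜ = 1 := by
  classical
  unfold prB
  rw [← add_div, ← Nat.cast_add]
  have h := card_filter_add_card_filter_not (s := (boxE n).powerset) (fun T => T ∈ A)
  have h' : ((boxE n).powerset.filter fun T => T ∈ A).card +
      ((boxE n).powerset.filter fun T => T ∈ Aᶜ).card = 2 ^ (boxE n).card := by
    rw [← card_powerset, ← h]
    congr!
  rw [div_eq_one_iff_eq (by positivity)]
  rw [← Nat.cast_ofNat (R := ℝ), ← Nat.cast_pow, Nat.cast_inj, ← h']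
  congr!

/-- Two vertices of a cluster at distance `D`. -/
theorem le_diam {n : ℕ} {T : Finset Edg} (hT : T ⊆ boxE n) {u v : ℤ × ℤ} (hu : u ∈ Box n)
    (hv : v ∈ clV T u) {D : ℝ} (h : D ≤ |((v.1 - u.1 : ℤ) : ℝ)| ∨ D ≤ |((v.2 - u.2 : ℤ) : ℝ)|) :
    D ≤ Metric.diam (clS T u) := by
  have h1 : dist (toC v) (toC u) ≤ Metric.diam (clS T u) :=
    Metric.dist_le_diam_of_mem (BoxAux.clS_bounded hT hu)
      (BoxAux.mem_clS.2 (Or.inl ⟨v, hv, rfl⟩))
      (BoxAux.mem_clS.2 (Or.inl ⟨u, BoxAux.mem_clV_self T u, rfl⟩))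
  refine le_trans ?_ h1
  have h2 := dist_toC v u
  rcases h with h | h
  · refine h.trans (abs_le_of_sq_le_sq ?_ dist_nonneg)
    rw [h2]
    have := sq_nonneg ((v.2 - u.2 : ℤ) : ℝ)
    linarith
  · refine h.trans (abs_le_of_sq_le_sq ?_ dist_nonneg)
    rw [h2]
    have := sq_nonneg ((v.1 - u.1 : ℤ) : ℝ)
    linarith

/-- The diameter is bounded by the extents. -/
theorem diam_lt {T : Finset Edg} {v : ℤ × ℤ} {D : ℝ} (hD : 0 < D)
    (h : ∀ a ∈ clV T v, ∀ b ∈ clV T v, |((a.1 - b.1 : ℤ) : ℝ)| ≤ D / 2 ∧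
      |((a.2 - b.2 : ℤ) : ℝ)| ≤ D / 2) : Metric.diam (clS T v) < D := by
  have h0 : Metric.diam (clS T v) ≤ D * (3 / 4) := by
    have h1 : ∀ a ∈ clV T v, ∀ b ∈ clV T v, dist (toC a) (toC b) ≤ D * (3 / 4) := by
      intro a ha b hb
      obtain ⟨h2, h3⟩ := h a ha b hb
      have h4 := dist_toC a b
      have h5 : ((a.1 - b.1 : ℤ) : ℝ) ^ 2 ≤ (D / 2) ^ 2 := by
        rw [← sq_abs]
        exact pow_le_pow_left₀ (abs_nonneg _) h2 2
      have h6 : ((a.2 - b.2 : ℤ) : ℝ) ^ 2 ≤ (D / 2) ^ 2 := by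
        rw [← sq_abs]
        exact pow_le_pow_left₀ (abs_nonneg _) h3 2
      refine abs_le_of_sq_le_sq' ?_ (by positivity) |>.2
      rw [h4]
      nlinarith
    refine Metric.diam_le_of_forall_dist_le (by positivity) fun p hp q hq => ?_
    obtain ⟨a, ha, b, hb, hp⟩ := SmallClusters.mem_clS hp
    obtain ⟨a', ha', b', hb', hq⟩ := SmallClusters.mem_clS hq
    have h9 : ∀ c ∈ clV T v, dist p (toC c) ≤ D * (3 / 4) := by
      intro c hc
      have h10 : segment ℝ (toC a) (toC b) ⊆ Metric.closedBall (toC c) (D * (3 / 4)) :=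
        (convex_closedBall _ _).segment_subset (Metric.mem_closedBall.2 (h1 a ha c hc))
          (Metric.mem_closedBall.2 (h1 b hb c hc))
      exact Metric.mem_closedBall.1 (h10 hp)
    have h11 : segment ℝ (toC a') (toC b') ⊆ Metric.closedBall p (D * (3 / 4)) := by
      refine (convex_closedBall _ _).segment_subset (Metric.mem_closedBall.2 ?_)
        (Metric.mem_closedBall.2 ?_)
      · rw [dist_comm]; exact h9 a' ha'
      · rw [dist_comm]; exact h9 b' hb'
    rw [dist_comm]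
    exact Metric.mem_closedBall.1 (h11 hq)
  linarith

theorem clV_of_conn {T : Finset Edg} {R : Set (ℤ × ℤ)} {u v : ℤ × ℤ}
    (h : Conn (T : Set Ed) R u v) : v ∈ clV T u := by
  unfold Conn at h
  change Relation.ReflTransGen (AdjT T) u v
  induction h with
  | refl => exact .refl
  | tail _ h2 ih =>
    obtain ⟨-, -, e, he, hh⟩ := h2
    exact ih.tail ⟨e, he, hh⟩

/-- The largest diameter is at least `D` with high probability. -/
theorem prB_diam_lt {n : ℕ} (m : ℕ) {D : ℕ} (hD : 1 ≤ D) (hm : m * (D + 1) ≤ n + 1) :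
    prB n {T | ∀ v ∈ Box n, Metric.diam (clS T v) < D} ≤ (1 / 2) ^ m := by
  have hdis : ∀ i j : ℕ, i < j → Disjoint (EW (i * (D + 1)) (i * (D + 1) + D) 0 D)
      (EW (j * (D + 1)) (j * (D + 1) + D) 0 D) := by
    intro i j hij
    rw [Finset.disjoint_left]
    intro e h1 h2
    rw [mem_EW] at h1 h2
    simp only [mem_Rect] at h1 h2
    have h3 : ((i : ℤ) + 1) * (D + 1) ≤ j * (D + 1) :=
      mul_le_mul_of_nonneg_right (by exact_mod_cast hij) (by omega)
    have h4 : ((i : ℤ) + 1) * (D + 1) = i * (D + 1) + (D + 1) := by ring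
    omega
  have hfit : ∀ i < m, (0 : ℤ) ≤ i * (D + 1) ∧ (i : ℤ) * (D + 1) + D ≤ n ∧ (D : ℤ) ≤ n := by
    intro i hi
    have h1 : (i + 1) * (D + 1) ≤ m * (D + 1) := Nat.mul_le_mul_right _ hi
    have h2 : (i + 1) * (D + 1) = i * (D + 1) + (D + 1) := by ring
    have h3 : i * (D + 1) + D ≤ n := by omega
    have h4 : D ≤ n := by
      have : 0 ≤ i * (D + 1) := Nat.zero_le _
      omega
    refine ⟨by positivity, by exact_mod_cast h3, by exact_mod_cast h4⟩
  refine (prB_le ?_).trans (pr_iInter_le (W := EW 0 (n : ℤ) 0 n) (by norm_num)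
    (fun i : ℕ => EW (i * (D + 1)) (i * (D + 1) + D) 0 D)
    (fun i : ℕ => {ω | HC (i * (D + 1)) (i * (D + 1) + D) 0 D ω}ᶜ) hdis
    (fun i => Loc.compl (HC_loc _ _ _ _)) m (fun i hi => ?_))
  · intro T hT hsm i hi hHC
    obtain ⟨y, y', h1, h2, h3, h4, h5⟩ := hHC
    obtain ⟨h6, h7, h8⟩ := hfit i hi
    have hbox : ((i * (D + 1), y) : ℤ × ℤ) ∈ Box n := by
      simp only [Box, mem_product, mem_Icc]
      refine ⟨⟨?_, ?_⟩, ?_, ?_⟩ <;> omega
    have h9 := hsm _ hbox
    have h10 := le_diam hT hbox (clV_of_conn h5) (D := D) (Or.inl (by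
      simp only [add_sub_cancel_left]
      rw [Int.cast_natCast]
      exact le_abs_self _))
    linarith
  · obtain ⟨h6, h7, h8⟩ := hfit i hi
    rw [pr_compl, pr_hc_window (EW_sub h6 h7 le_rfl h8)]
    have h9 := hp_square (n := (D : ℤ)) (by omega)
    rw [show (i : ℤ) * (D + 1) + D - i * (D + 1) = D by ring, sub_zero]
    linarith

end Pool.Agent.PercW
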