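import Pool.Agent.Lib.MP_6bd702_percw.LowDefs
import Pool.Agent.Lib.MP_6bd702_percw.RswC

/-!
# One-arm bounds in a window
-/

set_option autoImplicit false

namespace Pool.Agent.PercL

open Finset Pool.Agent.Perc

/-- The one-arm event depends on the faces of the square of radius `ρ₂`. -/
theorem pr_ArmB_window (c : ℤ) (x : ℤ × ℤ) (ρ₁ ρ₂ : ℤ) {W : Finset (ℤ × ℤ)} (hW : QF x ρ₂ ⊆ W) :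
    pr W (ArmB c x ρ₁ ρ₂) = pr (RFb x ρ₂) (ArmB c x ρ₁ ρ₂) :=
  pr_eq_of_depOn (depOn_ArmB c x ρ₁ ρ₂) hW

/-- One-arm bound in a window. -/
theorem oneArm_le : ∃ C β : ℝ, 0 < C ∧ 0 < β ∧ ∀ (c : ℤ) (x : ℤ × ℤ) (ρ₁ ρ₂ : ℤ), 1 ≤ ρ₁ →
    ρ₁ ≤ ρ₂ → ∀ W : Finset (ℤ × ℤ), QF x ρ₂ ⊆ W →
      pr W (ArmB c x ρ₁ ρ₂) ≤ C * ((ρ₁ : ℝ) / ρ₂) ^ β := by
  obtain ⟨C, β, hC, hβ, h⟩ := oneArm
  refine ⟨C, β, hC, hβ, fun c x ρ₁ ρ₂ h1 h2 W hW => ?_⟩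
  rw [pr_ArmB_window c x ρ₁ ρ₂ hW]
  exact h c x ρ₁ ρ₂ (by omega) h2

/-- One annulus. -/
theorem oneArm_le_one_sub : ∃ c₀ : ℝ, 0 < c₀ ∧ c₀ < 1 ∧ ∀ (c : ℤ) (x : ℤ × ℤ) (ρ₁ ρ₂ : ℤ), 1 ≤ ρ₁ →
    4 * ρ₁ ≤ ρ₂ → ∀ W : Finset (ℤ × ℤ), QF x ρ₂ ⊆ W → pr W (ArmB c x ρ₁ ρ₂) ≤ 1 - c₀ := by
  obtain ⟨c, hc, h⟩ := pr_ArmB_le
  refine ⟨min c (1 / 2), by positivity, lt_of_le_of_lt (min_le_right _ _) (by norm_num),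
    fun col x ρ₁ ρ₂ h1 h2 W hW => ?_⟩
  have h3 : pr W (ArmB col x ρ₁ ρ₂) ≤ pr W (ArmB col x ρ₁ (4 * ρ₁)) :=
    pr_mono _ (ArmB_mono le_rfl h2 (by omega) (by omega))
  have hW' : QF x (4 * ρ₁) ⊆ W := by
    refine Finset.Subset.trans (fun f hf => ?_) hW
    unfold QF at hf ⊢
    rw [mem_RFi] at hf ⊢
    omega
  rw [pr_ArmB_window col x ρ₁ (4 * ρ₁) hW'] at h3
  have h4 := h col x ρ₁ (by omega)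
  have h5 := min_le_left c (1 / 2 : ℝ)
  linarith

end Pool.Agent.PercL
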