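import Pool.Agent.Lib.MP_6bd702_percw.Diam
import Pool.Agent.Lib.MP_6bd702_pr_h60.Perim

/-!
# The outer interface of a large cluster leaves the boundary layer
-/

set_option autoImplicit false

namespace Pool.Agent.PercW

open Pool.Agent.MP_6bd702 Pool.Agent.MP_6bd702.H23 Pool.Agent.MP_6bd702.H60 Pool.Agent.PercU
  Pool.Agent.PercO Pool.Agent.Perc

/-- An interface whose vertices are in `R` gives connections in `R`. -/
theorem orb_conn {ω : Set Ed} {k : Cor} {R : Set (ℤ × ℤ)} (hR : ∀ k' ∈ Orb ω k, vtx k' ∈ R)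
    {k' : Cor} (hk' : k' ∈ Orb ω k) : Conn ω R (vtx k) (vtx k') := by
  obtain ⟨j, rfl⟩ := hk'
  have hmem : ∀ j : ℤ, (nxtE ω ^ j) k ∈ Orb ω k := fun j => ⟨j, rfl⟩
  have hstep : ∀ j : ℤ, (nxtE ω ^ (j + 1)) k = nxt ω ((nxtE ω ^ j) k) := by
    intro j
    rw [add_comm, zpow_add, Equiv.Perm.mul_apply, zpow_one]
    rfl
  have hone : ∀ j : ℤ, Conn ω R (vtx ((nxtE ω ^ j) k)) (vtx ((nxtE ω ^ (j + 1)) k)) := by
    intro j
    have h1 := hR _ (hmem j)
    have h2 := hR _ (hmem (j + 1))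
    rw [hstep] at h2 ⊢
    rcases step_vtx (ω := ω) ((nxtE ω ^ j) k) with h | ⟨-, -, e, he, hh⟩
    · rw [h]; exact .refl
    · exact .single ⟨h1, h2, e, he, hh⟩
  induction j using Int.induction_on with
  | zero => exact .refl
  | succ i ih => exact ih.trans (hone i)
  | pred i ih =>
    have h := hone (-i - 1)
    rw [sub_add_cancel] at h
    exact ih.trans h.symm

variable {n : ℕ} {T : Finset Edg} {u : ℤ × ℤ}

theorem exists_inner {kL kR : Cor} (hT : T ⊆ boxE n) (hL : kL ∈ Oc (T : Set Ed) u)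
    (hR : kR ∈ Oc (T : Set Ed) u) {w : ℤ}
    (h : ¬ Conn (T : Set Ed) (Lay n w) (vtx kL) (vtx kR)) :
    ∃ k ∈ Oc (T : Set Ed) u, vtx k ∉ Lay n w := by
  by_contra hcon
  push Not at hcon
  refine h (orb_conn (k := kL) ?_ ?_)
  · intro k' hk'
    rw [orb_eq_Oc (boxE_sub hT) hL] at hk'
    exact hcon k' hk'
  · rw [orb_eq_Oc (boxE_sub hT) hL]; exact hR

/-- A finite nonempty set of vertices has an extreme vertex for every integer function. -/
theorem exists_min_vertex {S : Set (ℤ × ℤ)} (hS : S.Finite) (hne : S.Nonempty) (f : ℤ × ℤ → ℤ) :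
    ∃ v ∈ S, ∀ w ∈ S, f v ≤ f w := Set.exists_min_image S f hS hne

/-- The outer interface of a cluster of large diameter has a corner far from the boundary of the
box, and goes far from it. -/
theorem exists_inner_corner (hT : T ⊆ boxE n) (hu : u ∈ Box n) {w E : ℤ} {D : ℝ} (hD0 : 0 < D)
    (hD : D ≤ Metric.diam (clS T u)) (hE : (E : ℝ) ≤ D / 2)
    (hX : (T : Set Ed) ∉ LayX n w E) (hY : (T : Set Ed) ∉ LayY n w E) :
    ∃ k ∈ Oc (T : Set Ed) u, vtx k ∉ Lay n w ∧ ∃ k' ∈ Oc (T : Set Ed) u,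
      E ≤ 2 * max |(vtx k').1 - (vtx k).1| |(vtx k').2 - (vtx k).2| := by
  have hfin := BoxAux.clV_finite hT hu
  have hne : (clV T u).Nonempty := ⟨u, BoxAux.mem_clV_self T u⟩
  -- every vertex of the cluster is in the box
  have hbox := BoxAux.clV_subset_box hT hu
  have hlay : ∀ k ∈ Oc (T : Set Ed) u, vtx k ∈ Box n := by
    intro k hk
    have h1 : vtx k ∈ clV T u := by rw [clV_eq]; exact hk.1
    exact hbox h1
  have hconnmem : ∀ {a b : ℤ × ℤ}, Conn (T : Set Ed) (Lay n w) a b → a ≠ b → a ∈ Lay n w := by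
    intro a b h hab
    rcases Relation.ReflTransGen.cases_head h with h1 | ⟨c, h1, -⟩
    · exact absurd h1 hab
    · exact h1.1
  by_cases hext : ∀ a ∈ clV T u, ∀ b ∈ clV T u, |((a.1 - b.1 : ℤ) : ℝ)| ≤ D / 2
  · -- the height is large
    have hext' : ∃ a ∈ clV T u, ∃ b ∈ clV T u, D / 2 < |((a.2 - b.2 : ℤ) : ℝ)| := by
      by_contra hcon
      push Not at hcon
      exact absurd (diam_lt hD0 fun a ha b hb => ⟨hext a ha b hb, hcon a ha b hb⟩) (not_lt.2 hD)
    obtain ⟨a, ha, b, hb, hab⟩ := hext'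
    obtain ⟨p, hp, hpm⟩ := exists_min_vertex hfin hne (fun v => v.2)
    obtain ⟨q, hq, hqm⟩ := exists_min_vertex hfin hne (fun v => -v.2)
    have hqm' : ∀ w ∈ clV T u, w.2 ≤ q.2 := fun w hw => by have := hqm w hw; omega
    have hpq : D / 2 < ((q.2 - p.2 : ℤ) : ℝ) := by
      refine lt_of_lt_of_le hab ?_
      have h1 := hpm a ha
      have h2 := hpm b hb
      have h3 := hqm' a ha
      have h4 := hqm' b hb

      rw [← Int.cast_abs, Int.cast_le, abs_le]
      constructor <;> omega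
    have hEpq : E ≤ q.2 - p.2 := by
      have : (E : ℝ) ≤ ((q.2 - p.2 : ℤ) : ℝ) := by linarith
      exact_mod_cast this
    have hne' : p ≠ q := by
      intro h
      rw [h, sub_self] at hpq
      simp only [Int.cast_zero] at hpq
      linarith
    have hkL : ((p.1, p.2, true, false) : Cor) ∈ Oc (T : Set Ed) u := by
      rw [mem_Oc]
      exact ⟨hp, outer_bot hpm p.1⟩
    have hkR : ((q.1, q.2, true, true) : Cor) ∈ Oc (T : Set Ed) u := by
      rw [mem_Oc]
      exact ⟨hq, outer_top hqm' q.1⟩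
    obtain ⟨k, hk, hkl⟩ := exists_inner hT hkL hkR (w := w) (fun hc => hY
      ⟨p, q, hconnmem hc hne', hc, hEpq⟩)
    refine ⟨k, hk, hkl, ?_⟩
    have h1 : vtx k ∈ clV T u := by rw [clV_eq]; exact hk.1
    have h2 := hpm _ h1
    have h3 := hqm' _ h1

    rcases le_total (q.2 - (vtx k).2) ((vtx k).2 - p.2) with h4 | h4
    · refine ⟨_, hkL, ?_⟩
      have h5 : |p.2 - (vtx k).2| ≤ max |(vtx ((p.1, p.2, true, false) : Cor)).1 - (vtx k).1|
          |(vtx ((p.1, p.2, true, false) : Cor)).2 - (vtx k).2| := le_max_right _ _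
      have h6 := neg_le_abs (p.2 - (vtx k).2)
      omega
    · refine ⟨_, hkR, ?_⟩
      have h5 : |q.2 - (vtx k).2| ≤ max |(vtx ((q.1, q.2, true, true) : Cor)).1 - (vtx k).1|
          |(vtx ((q.1, q.2, true, true) : Cor)).2 - (vtx k).2| := le_max_right _ _
      have h6 := le_abs_self (q.2 - (vtx k).2)
      omega
  · push Not at hext
    obtain ⟨a, ha, b, hb, hab⟩ := hext
    obtain ⟨p, hp, hpm⟩ := exists_min_vertex hfin hne (fun v => v.1)
    obtain ⟨q, hq, hqm⟩ := exists_min_vertex hfin hne (fun v => -v.1)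
    have hqm' : ∀ w ∈ clV T u, w.1 ≤ q.1 := fun w hw => by have := hqm w hw; omega
    have hpq : D / 2 < ((q.1 - p.1 : ℤ) : ℝ) := by
      refine lt_of_lt_of_le hab ?_
      have h1 := hpm a ha
      have h2 := hpm b hb
      have h3 := hqm' a ha
      have h4 := hqm' b hb

      rw [← Int.cast_abs, Int.cast_le, abs_le]
      constructor <;> omega
    have hEpq : E ≤ q.1 - p.1 := by
      have : (E : ℝ) ≤ ((q.1 - p.1 : ℤ) : ℝ) := by linarith
      exact_mod_cast this
    have hne' : p ≠ q := by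
      intro h
      rw [h, sub_self] at hpq
      simp only [Int.cast_zero] at hpq
      linarith
    have hkL : ((p.1, p.2, false, true) : Cor) ∈ Oc (T : Set Ed) u := by
      rw [mem_Oc]
      exact ⟨hp, outer_left hpm p.2⟩
    have hkR : ((q.1, q.2, true, true) : Cor) ∈ Oc (T : Set Ed) u := by
      rw [mem_Oc]
      exact ⟨hq, outer_right hqm' q.2⟩
    obtain ⟨k, hk, hkl⟩ := exists_inner hT hkL hkR (w := w) (fun hc => hX
      ⟨p, q, hconnmem hc hne', hc, hEpq⟩)
    refine ⟨k, hk, hkl, ?_⟩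
    have h1 : vtx k ∈ clV T u := by rw [clV_eq]; exact hk.1
    have h2 := hpm _ h1
    have h3 := hqm' _ h1

    rcases le_total (q.1 - (vtx k).1) ((vtx k).1 - p.1) with h4 | h4
    · refine ⟨_, hkL, ?_⟩
      have h5 : |p.1 - (vtx k).1| ≤ max |(vtx ((p.1, p.2, false, true) : Cor)).1 - (vtx k).1|
          |(vtx ((p.1, p.2, false, true) : Cor)).2 - (vtx k).2| := le_max_left _ _
      have h6 := neg_le_abs (p.1 - (vtx k).1)
      omega
    · refine ⟨_, hkR, ?_⟩
      have h5 : |q.1 - (vtx k).1| ≤ max |(vtx ((q.1, q.2, true, true) : Cor)).1 - (vtx k).1|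
          |(vtx ((q.1, q.2, true, true) : Cor)).2 - (vtx k).2| := le_max_left _ _
      have h6 := le_abs_self (q.1 - (vtx k).1)
      omega

end Pool.Agent.PercW
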