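import Pool.Agent.Lib.MP_6bd702_percw.LowMoment
import Pool.Agent.Lib.MP_6bd702_percw.LowMix
import Pool.Agent.Lib.MP_6bd702_percw.SymB

/-!
# The lower tail for one unit edge (task LowFinal)

`step`: for `ω ∈ Few d R t` there is a tip (`TA_iff_tip`), `tip_dichotomy` with `ρ = 4 r + 1`: in the
close case `close_step` (`ρ = 4 r + 1`, `B = R + 8 M r`), in the far case `moment_east` and
`reduce_east`. In both cases `pr {ξ | mixC (SQ ω 0 d R) ω ξ ∉ Few d B t} ≥ c`; the mixed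
configuration is in `Few d R t` (`TA_congr`, `mix_SQ`). `pr_mixC` with `A = Few d R t`,
`X = Few d R t \ Few d B t`, `few_anti`.

`lower_tail`: induction on `K`; `Few d R t ⊆ TA 0 d R`, `pr_TA`. `lower_tail_at`: translation.
-/

set_option autoImplicit false

namespace Pool.Agent.PercL

open Finset Pool.Agent.Perc

theorem LowFinal.not_bdE {R : ℤ} (hR : 2 ≤ R) (d : Fin 4) :
    ¬ BdE (-R) R (-R) R (ue (0, 0) d) := by
  unfold BdE
  fin_cases d <;> simp [ue] <;> omega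

theorem LowFinal.QF_zero (R : ℤ) : QF (0, 0) R = RF (-R) R (-R) R := by
  unfold QF
  simp

theorem LowFinal.QF_mono {p : ℤ × ℤ} {R B : ℤ} (h : R ≤ B) : QF p R ⊆ QF p B := by
  intro f hf
  unfold QF RF at *
  simp only [mem_product, mem_Ico] at *
  omega

theorem LowFinal.inR_of_bdE {R : ℤ} {t : UE} (h : BdE (-R) R (-R) R t) :
    InR (-R) R (-R) R (ua t) := by
  unfold BdE at h
  unfold InR ua
  rcases h with ⟨h1, h2, h3, h4⟩ | ⟨h1, h2, h3, h4⟩ <;> simp only <;> omega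

open LowFinal in
theorem step (hP : P2Bounds) : ∃ (M : ℕ) (c c₁ : ℝ), 12 ≤ M ∧ 0 < c ∧ c < 1 ∧ 0 < c₁ ∧
    ∀ (r R : ℤ) (d : Fin 4), 1 ≤ r → M * r ≤ R →
      pr (QF (0, 0) (R + 8 * (M * r))) (Few d (R + 8 * (M * r)) (c₁ * (r : ℝ) ^ (7 / 4 : ℝ))) ≤
        (1 - c) * pr (QF (0, 0) R) (Few d R (c₁ * (r : ℝ) ^ (7 / 4 : ℝ))) := by
  obtain ⟨M, hM, c0, hc0, hF⟩ := exists_farBd hP
  obtain ⟨c₁, c₂, hc₁, hc₂, hmom⟩ := moment_east hM hP hc0 hF
  obtain ⟨c₃, hc₃, hc₃', hcl⟩ := close_step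
  refine ⟨M, min c₂ c₃, c₁, hM, lt_min hc₂ hc₃, lt_of_le_of_lt (min_le_right _ _) hc₃', hc₁, ?_⟩
  intro r R d hr hR
  have hM' : (12 : ℤ) ≤ M := by exact_mod_cast hM
  have hMr : 12 * r ≤ M * r := by nlinarith
  set B : ℤ := R + 8 * (M * r) with hB
  set t : ℝ := c₁ * (r : ℝ) ^ (7 / 4 : ℝ) with ht
  have hR1 : 12 ≤ R := by omega
  have hRB : R ≤ B := by omega
  have key : ∀ ω ∈ Few d R t,
      min c₂ c₃ ≤ pr (QF (0, 0) B) {ξ | mixC (SQ ω (0, 0) d R) ω ξ ∉ Few d B t} := by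
    intro ω hω
    obtain ⟨t₀, ht₀, hb₀⟩ := (TA_iff_tip (by omega)).1 hω.1
    rw [QF_zero] at ht₀
    simp only [zero_sub, zero_add] at hb₀
    rcases tip_dichotomy (ρ := 4 * r + 1) (by omega) (not_bdE (by omega) d) ht₀ hb₀ with h | h
    · refine (min_le_right _ _).trans ((hcl ω (ua t₀) d R B (4 * r + 1) (by omega) (by omega)
        (by omega) (inR_of_bdE hb₀) h).trans ?_)
      exact pr_mono _ fun ξ hξ hξ' => hξ hξ'.1
    · have hfar : ω ∈ FarEv (0, 0) d R (4 * r + 1) := by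
        refine ⟨t₀, ?_⟩
        unfold FT
        simp only [zero_sub, zero_add]
        exact ⟨ht₀, hb₀, h⟩
      have h1 := reduce_east (R := R) (B := B) (ρ := 4 * r) (t := t) (c := c₂) (by omega) hRB
        (by omega) (fun ω d h hω => hmom ω r R h d hr hR hω) ω d hfar
      refine (min_le_left _ _).trans (h1.trans ?_)
      exact pr_mono _ fun ξ hξ hξ' => absurd hξ'.2 (not_lt.2 hξ)
  have h2 := pr_mixC (W := QF (0, 0) B) (fun ω => SQ ω (0, 0) d R) (fun ω ω' h => SQ_stop h)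
    (Few d R t) (Few d R t \ Few d B t)
    (fun ω => {ξ | mixC (SQ ω (0, 0) d R) ω ξ ∉ Few d B t}) key (by
      intro ω hω ξ hξ
      refine ⟨⟨?_, ?_⟩, hξ⟩
      · refine (TA_congr (by omega) ?_).2 hω.1
        intro f hf
        unfold mixC
        rw [if_pos hf]
      · rw [(mix_SQ ω ξ (0, 0) d R).2]
        exact hω.2)
  have h3 : pr (QF (0, 0) B) (Few d R t \ Few d B t) + pr (QF (0, 0) B) (Few d B t) =
      pr (QF (0, 0) B) (Few d R t) := by
    rw [ProbA.pr_eq_sum, ProbA.pr_eq_sum, ProbA.pr_eq_sum, ← add_div, ← Finset.sum_add_distrib]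
    congr 1
    refine Finset.sum_congr rfl fun T _ => ?_
    by_cases h4 : cfg T ∈ Few d B t
    · have h5 : cfg T ∈ Few d R t := few_anti (by omega) hRB h4
      have h6 : cfg T ∉ Few d R t \ Few d B t := fun h => h.2 h4
      rw [if_neg h6, if_pos h4, if_pos h5]; norm_num
    · by_cases h5 : cfg T ∈ Few d R t
      · rw [if_pos (show cfg T ∈ Few d R t \ Few d B t from ⟨h5, h4⟩), if_neg h4, if_pos h5]
        norm_num
      · rw [if_neg (show ¬ cfg T ∈ Few d R t \ Few d B t from fun h => h5 h.1), if_neg h4,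
          if_neg h5]
        norm_num
  have h4 : pr (QF (0, 0) B) (Few d R t) = pr (QF (0, 0) R) (Few d R t) :=
    pr_eq_of_depOn (depOn_Few t) (QF_mono hRB)
  rw [h4] at h2 h3
  linarith

/-- The lower tail: with both arms to distance `R + 8 M r K` the component has at least
`c₁ r ^ (7/4)` unit edges, except with probability `(1 - c) ^ K p2 R`. -/
theorem lower_tail (hP : P2Bounds) : ∃ (M : ℕ) (c c₁ : ℝ), 12 ≤ M ∧ 0 < c ∧ c < 1 ∧ 0 < c₁ ∧
    ∀ (r R : ℤ) (d : Fin 4) (K : ℕ), 1 ≤ r → M * r ≤ R →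
      pr (QF (0, 0) (R + 8 * (M * r) * K))
        (Few d (R + 8 * (M * r) * K) (c₁ * (r : ℝ) ^ (7 / 4 : ℝ))) ≤ (1 - c) ^ K * p2 R := by
  obtain ⟨M, c, c₁, hM, hc, hc', hc₁, h⟩ := step hP
  refine ⟨M, c, c₁, hM, hc, hc', hc₁, ?_⟩
  intro r R d K hr hR
  induction K with
  | zero =>
    simp only [Nat.cast_zero, mul_zero, add_zero, pow_zero, one_mul]
    exact (pr_mono _ fun ω hω => hω.1).trans (pr_TA (Finset.Subset.refl _)).le
  | succ K ih =>
    have hMr : 0 ≤ (M : ℤ) * r := by positivity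
    have h1 := h r (R + 8 * (M * r) * K) d hr (by nlinarith [Int.natCast_nonneg K])
    have e : R + 8 * (M * r) * ((K + 1 : ℕ) : ℤ) = R + 8 * (M * r) * K + 8 * (M * r) := by
      push_cast; ring
    rw [e]
    refine h1.trans ?_
    calc (1 - c) * pr (QF (0, 0) (R + 8 * (M * r) * K))
          (Few d (R + 8 * (M * r) * K) (c₁ * (r : ℝ) ^ (7 / 4 : ℝ)))
        ≤ (1 - c) * ((1 - c) ^ K * p2 R) := mul_le_mul_of_nonneg_left ih (by linarith)
      _ = (1 - c) ^ (K + 1) * p2 R := by ring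

/-- The event of `lower_tail_at`. -/
theorem LowFinal.depOn_at (p : ℤ × ℤ) (d : Fin 4) (R : ℤ) (t : ℝ) :
    DepOn (QF p R : Set (ℤ × ℤ))
      {ω | ω ∈ TA p d R ∧ ((MM ω (QF p R) (ue p d)).ncard : ℝ) < t} := by
  intro ω ω' h
  have h1 := depOn_TA (p := p) (d := d) (R := R) ω ω' h
  have h2 : MM ω' (QF p R : Set (ℤ × ℤ)) (ue p d) = MM ω (QF p R : Set (ℤ × ℤ)) (ue p d) :=
    MM_congr fun f hf => h f hf.1
  simp only [Set.mem_ofPred_eq]
  rw [h1, h2]

open LowFinal in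
theorem LowFinal.pr_at {p : ℤ × ℤ} (_hp : (p.1 + p.2) % 2 = 0) (d : Fin 4) (R : ℤ) (t : ℝ)
    {W : Finset (ℤ × ℤ)} (hW : QF p R ⊆ W) :
    pr W {ω | ω ∈ TA p d R ∧ ((MM ω (QF p R) (ue p d)).ncard : ℝ) < t} =
      pr (QF (0, 0) R) (Few d R t) := by
  rw [pr_eq_of_depOn (depOn_at p d R t) hW]
  have M := Sym.maps_S p.1 p.2 (-R) R (-R) R
  have e1 : (QF (0, 0) R).image (symS p.1 p.2).f = QF p R := by
    rw [QF_zero, M.image_RF]
    unfold QF
    rw [show -R + p.1 = p.1 - R by ring, show R + p.1 = p.1 + R by ring,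
      show -R + p.2 = p.2 - R by ring, show R + p.2 = p.2 + R by ring]
  have h1 := (symS p.1 p.2).pr_act (S := QF (0, 0) R)
    (A := {ω | ω ∈ TA p d R ∧ ((MM ω (QF p R) (ue p d)).ncard : ℝ) < t}) (by
      rw [e1]; exact depOn_at p d R t)
  rw [e1] at h1
  rw [← h1]
  congr 1
  ext ω
  have e2 : (symS p.1 p.2).v (0, 0) = p := by simp [symS, hsymS]
  have e3 : (symS p.1 p.2).v (nb (0, 0) d) = nb p d := by
    fin_cases d <;> simp [symS, hsymS, nb, add_comm, sub_eq_add_neg]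
  have e4 : (symS p.1 p.2).s (ue (0, 0) d) = ue p d := by
    fin_cases d <;> simp [symS, hsymS, ue, add_comm, sub_eq_add_neg]
  have e5 : (QF p R : Set (ℤ × ℤ)) = RF (-R + p.1) (R + p.1) (-R + p.2) (R + p.2) := by
    unfold QF
    rw [show -R + p.1 = p.1 - R by ring, show R + p.1 = p.1 + R by ring,
      show -R + p.2 = p.2 - R by ring, show R + p.2 = p.2 + R by ring]
  have h2 : (MM ((symS p.1 p.2).act ω) (QF p R) (ue p d)).ncard =
      (MM ω (QF (0, 0) R) (ue (0, 0) d)).ncard := by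
    rw [e5, ← e4, M.MM_eq, QF_zero]
    exact Set.ncard_image_of_injective _ (symS p.1 p.2).s.injective
  have h3 : (symS p.1 p.2).act ω ∈ TA p d R ↔ ω ∈ TA (0, 0) d R := by
    unfold TA
    simp only [Set.mem_ofPred_eq]
    have t1 := M.toBd_iff (ω := ω) (u := (0, 0))
    have t2 := M.toBd_iff (ω := ω) (u := nb (0, 0) d)
    rw [e2] at t1
    rw [e3] at t2
    rw [show -R + p.1 = p.1 - R by ring, show R + p.1 = p.1 + R by ring,
      show -R + p.2 = p.2 - R by ring, show R + p.2 = p.2 + R by ring] at t1 t2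
    rw [t1, t2]
    simp
  simp only [Set.mem_ofPred_eq, Few]
  rw [h2, h3]

open LowFinal in
/-- The same at every even vertex and in every window. -/
theorem lower_tail_at (hP : P2Bounds) : ∃ (M : ℕ) (c c₁ : ℝ), 12 ≤ M ∧ 0 < c ∧ c < 1 ∧ 0 < c₁ ∧
    ∀ (r R : ℤ) (p : ℤ × ℤ) (d : Fin 4) (K : ℕ), (p.1 + p.2) % 2 = 0 → 1 ≤ r → M * r ≤ R →
      ∀ W : Finset (ℤ × ℤ), QF p (R + 8 * (M * r) * K) ⊆ W →
        pr W {ω | ω ∈ TA p d (R + 8 * (M * r) * K) ∧
          ((MM ω (QF p (R + 8 * (M * r) * K)) (ue p d)).ncard : ℝ) <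
            c₁ * (r : ℝ) ^ (7 / 4 : ℝ)} ≤ (1 - c) ^ K * p2 R := by
  obtain ⟨M, c, c₁, hM, hc, hc', hc₁, h⟩ := lower_tail hP
  refine ⟨M, c, c₁, hM, hc, hc', hc₁, ?_⟩
  intro r R p d K hp hr hR W hW
  rw [pr_at hp d _ _ hW]
  exact h r R d K hr hR

end Pool.Agent.PercL
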