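import Pool.Agent.Lib.MP_6bd702_percw.LowOut
import Pool.Agent.Lib.MP_6bd702_pr_h60.UpFinal

/-!
# The weak form from the two-sided bounds of the two-arm probability
-/

set_option autoImplicit false

namespace Pool.Agent.PercW

open Finset
open Pool.Agent.Perc
open Pool.Agent.PercX60 (dB)
open Pool.Agent.PercL (P2Bounds)

theorem lowerTail_of_lowerZ (h : LowerZ) : LowerTail := by
  obtain ⟨c, q, hc, hq, hq1, H⟩ := h
  refine ⟨3, 1, c, q, hc, hq, hq1, fun n K s hs k h1 h2 h3 h4 => ?_⟩
  have hcast : ((3 * (K + 1) * s : ℕ) : ℤ) = 3 * (((K : ℤ) + 1) * s) := by push_cast; ring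
  have h5 := H n K s hs k (by
    rw [hcast] at h1 h2 h3 h4
    simp only [dB, le_min_iff]
    refine ⟨⟨?_, ?_⟩, ?_, ?_⟩ <;> omega)
  rw [hcast]
  exact h5

/-- The weak form from the two-sided bounds of the two-arm probability. -/
theorem targetW_of (hP : P2Bounds) : TargetW := by
  have hL := lowerTail_of_lowerZ (lowerZ_of_lowerF (PercL.lowerF hP))
  obtain ⟨c, C, -, hC, h⟩ := hP
  exact targetW hL (PercX60.upperTail ⟨C, hC, fun R hR => (h R hR).2⟩)

end Pool.Agent.PercW
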