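import Pool.Agent.Lib.MP_6bd702_percw.LowBasic
import Pool.Agent.Lib.MP_6bd702_percw.LowRsw
import Pool.Agent.Lib.MP_6bd702_percw.LowMix

/-!
# Close tips (task LowClose)

`close_arm`: `close_side` (`TipsB.lean`) gives an end `u` of the unit edge (`c` = its parity) all of
whose boundary vertices are within `ρ` of `x`. If the mixed configuration `ω'` has both arms to
distance `R₂`, then `u` is joined in `QF p R₂` to a boundary vertex `z` of the big square, `near`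
(`CoreB.lean`) gives `y` within `ρ` of `x` joined to `z` in `ω'` off the visited faces, hence in `ξ`;
this path leaves the square of radius `R₂ - R` around `x` (`Conn.toBd` in `GridA.lean`).

`close_step`: `oneArm_le_one_sub`.

`close_sep`: `pr_mixC` with `A = TA 0 d R ∩ {Close at some boundary vertex}`, `B ω` = complement of
the `ArmB` event of `close_arm`, `X = A \ TA 0 d (2 R)`; `oneArm_le`.
-/

set_option autoImplicit false

namespace Pool.Agent.PercL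

open Finset Pool.Agent.Perc

theorem close_arm {ω : Cfg} {p x : ℤ × ℤ} {d : Fin 4} {R R₂ ρ : ℤ} (hρ : 1 ≤ ρ) (hR : ρ < R)
    (hR₂ : R + ρ ≤ R₂) (hx : InR (p.1 - R) (p.1 + R) (p.2 - R) (p.2 + R) x)
    (hc : Close ω (p.1 - R) (p.1 + R) (p.2 - R) (p.2 + R) (ue p d) ρ x) :
    ∃ c : ℤ, ∀ ξ, mixC (SQ ω p d R) ω ξ ∈ TA p d R₂ → ξ ∈ ArmB c x ρ (R₂ - R) := by
  have hin := inR_center (p := p) (d := d) (R := R) (by omega)
  have main : ∀ u v : ℤ × ℤ, Joins (ue p d) u v → InR (p.1 - R) (p.1 + R) (p.2 - R) (p.2 + R) u →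
      InR (p.1 - R) (p.1 + R) (p.2 - R) (p.2 + R) v →
      (∀ w, OnBd (p.1 - R) (p.1 + R) (p.2 - R) (p.2 + R) w →
        potR ω (p.1 - R) (p.1 + R) (p.2 - R) (p.2 + R) (ue p d) w =
          potR ω (p.1 - R) (p.1 + R) (p.2 - R) (p.2 + R) (ue p d) u → Wi ρ x w) →
      ∀ ξ, ToBd (p.1 - R₂) (p.1 + R₂) (p.2 - R₂) (p.2 + R₂) (mixC (SQ ω p d R) ω ξ) u →
        ξ ∈ ArmB (u.1 + u.2) x ρ (R₂ - R) := by
    intro u v hj hu hv hY ξ harm
    obtain ⟨z, hz, hzb⟩ := harm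
    have hzR : ¬ InR (p.1 - R) (p.1 + R) (p.2 - R) (p.2 + R) z := by
      unfold OnBd at hzb; unfold InR; omega
    have hmS : ∀ f ∈ SS ω (RF (p.1 - R) (p.1 + R) (p.2 - R) (p.2 + R)) (ue p d),
        mixC (SQ ω p d R) ω ξ f = ω f := fun f hf => by
      have hf' : f ∈ SQ ω p d R := hf
      unfold mixC; rw [if_pos hf']
    obtain ⟨y, hy, hcon⟩ := near
      (G := (RF (p.1 - R₂) (p.1 + R₂) (p.2 - R₂) (p.2 + R₂) : Set (ℤ × ℤ)))
      hj hu hv (Y := {w | Wi ρ x w}) (fun w h3 h4 _ => hY w h3 h4) hmS hzR hz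
    have hpar := hz.parity
    have hc' : Conn ξ ((RF (p.1 - R₂) (p.1 + R₂) (p.2 - R₂) (p.2 + R₂) : Set (ℤ × ℤ)) \
        SS ω (RF (p.1 - R) (p.1 + R) (p.2 - R) (p.2 + R)) (ue p d)) y z :=
      GridA.conn_congr _ (fun f hf => by
        have hf' : f ∉ SQ ω p d R := hf.2
        unfold mixC; rw [if_neg hf']) hcon
    have hpar' := hc'.parity
    have hyW : Wi ρ x y := hy
    unfold Wi at hyW
    obtain ⟨w, hw, hwb⟩ := hc'.toBd (x₀ := x.1 - (R₂ - R)) (x₁ := x.1 + (R₂ - R))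
      (y₀ := x.2 - (R₂ - R)) (y₁ := x.2 + (R₂ - R)) (by omega) (by
        unfold OnBd at hzb; unfold InR at hx; omega)
    exact ⟨y, w, by omega, by omega, by omega, by omega, by omega, hwb,
      hw.mono Set.inter_subset_right⟩
  rcases close_side (ue_joins p d) hin.1 hin.2 hc (by omega) (by omega) (by omega) (by omega)
    with h | h
  · exact ⟨_, fun ξ hξ => main _ _ (ue_joins p d) hin.1 hin.2 h ξ hξ.1⟩
  · exact ⟨_, fun ξ hξ => main _ _ (ue_joins p d).symm hin.2 hin.1 h ξ hξ.2⟩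

theorem close_step : ∃ c : ℝ, 0 < c ∧ c < 1 ∧ ∀ (ω : Cfg) (x : ℤ × ℤ) (d : Fin 4) (R B ρ : ℤ),
    1 ≤ ρ → ρ < R → R + 4 * ρ ≤ B → InR (-R) R (-R) R x →
    Close ω (-R) R (-R) R (ue (0, 0) d) ρ x →
      c ≤ pr (QF (0, 0) B) {ξ | mixC (SQ ω (0, 0) d R) ω ξ ∉ TA (0, 0) d B} := by
  obtain ⟨c₀, h0, h1, h⟩ := oneArm_le_one_sub
  refine ⟨c₀, h0, h1, fun ω x d R B ρ hρ hR hB hx hc => ?_⟩
  obtain ⟨c, hc'⟩ := close_arm (p := (0, 0)) (d := d) (R₂ := B) hρ hR (by omega)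
    (by simpa using hx) (by simpa using hc)
  have h2 := h c x ρ (B - R) hρ (by omega) (QF (0, 0) B) (by
    intro f hf
    unfold QF at hf ⊢
    unfold InR at hx
    rw [mem_RFi] at hf ⊢
    simp only at *
    omega)
  have h3 : pr (QF (0, 0) B) (ArmB c x ρ (B - R))ᶜ ≤
      pr (QF (0, 0) B) {ξ | mixC (SQ ω (0, 0) d R) ω ξ ∉ TA (0, 0) d B} :=
    pr_mono _ fun ξ hξ hcon => hξ (hc' ξ hcon)
  rw [pr_compl] at h3
  linarith

/-- The event that all the tips are within distance `ρ` of some vertex of the square. -/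
def CloseEv (d : Fin 4) (R ρ : ℤ) : Set Cfg :=
  {ω | ω ∈ TA (0, 0) d R ∧ ∃ x, InR (-R) R (-R) R x ∧ Close ω (-R) R (-R) R (ue (0, 0) d) ρ x}

theorem pr_inter_add_diff (W : Finset (ℤ × ℤ)) (A T : Set Cfg) :
    pr W (A ∩ T) + pr W (A \ T) = pr W A := by
  classical
  rw [ProbA.pr_eq_sum, ProbA.pr_eq_sum, ProbA.pr_eq_sum, ← add_div, ← sum_add_distrib]
  congr 1
  refine sum_congr rfl fun S _ => ?_
  by_cases h1 : cfg S ∈ A <;> by_cases h2 : cfg S ∈ T <;> simp [h1, h2]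

theorem close_sep : ∃ C β : ℝ, 0 < C ∧ 0 < β ∧ ∀ (d : Fin 4) (R ρ : ℤ), 1 ≤ ρ → ρ < R →
    ∀ W : Finset (ℤ × ℤ), QF (0, 0) (2 * R) ⊆ W →
      pr W (CloseEv d R ρ ∩ TA (0, 0) d (2 * R)) ≤
        C * ((ρ : ℝ) / R) ^ β * pr W (TA (0, 0) d R) := by
  classical
  obtain ⟨C, β, hC, hβ, h⟩ := oneArm_le
  refine ⟨C, β, hC, hβ, fun d R ρ hρ hR W hW => ?_⟩
  set q : ℝ := C * ((ρ : ℝ) / R) ^ β with hq
  have hq0 : 0 ≤ q := by
    have h1 : (0 : ℝ) < ρ := by exact_mod_cast (by omega : 0 < ρ)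
    have h2 : (0 : ℝ) < R := by exact_mod_cast (by omega : 0 < R)
    rw [hq]; positivity
  have hx : ∀ ω ∈ CloseEv d R ρ, ∃ x, InR (-R) R (-R) R x ∧
      Close ω (-R) R (-R) R (ue (0, 0) d) ρ x := fun ω hω => hω.2
  choose! x hxin hxc using hx
  have harm : ∀ ω ∈ CloseEv d R ρ, ∃ c : ℤ, ∀ ξ, mixC (SQ ω (0, 0) d R) ω ξ ∈
      TA (0, 0) d (2 * R) → ξ ∈ ArmB c (x ω) ρ (2 * R - R) := fun ω hω =>
    close_arm (p := (0, 0)) (d := d) (R₂ := 2 * R) hρ hR (by omega)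
      (by simpa using hxin ω hω) (by simpa using hxc ω hω)
  choose! c hc using harm
  have hmix := pr_mixC (W := W) (fun ω => SQ ω (0, 0) d R) (fun ω ω' h => SQ_stop h)
    (CloseEv d R ρ) (CloseEv d R ρ \ TA (0, 0) d (2 * R))
    (fun ω => (ArmB (c ω) (x ω) ρ (2 * R - R))ᶜ) (c := 1 - q) (fun ω hω => ?_)
    (fun ω hω ξ hξ => ?_)
  · have h1 := pr_inter_add_diff W (CloseEv d R ρ) (TA (0, 0) d (2 * R))
    have h2 : pr W (CloseEv d R ρ) ≤ pr W (TA (0, 0) d R) := pr_mono _ fun ω hω => hω.1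
    have h3 := mul_le_mul_of_nonneg_left h2 hq0
    linarith
  · have h1 := h (c ω) (x ω) ρ (2 * R - R) hρ (by omega) W (by
      refine Finset.Subset.trans ?_ hW
      intro f hf
      have hin := hxin ω hω
      unfold QF at hf ⊢
      unfold InR at hin
      rw [mem_RFi] at hf ⊢
      simp only at *
      omega)
    rw [pr_compl]
    have h2 : ((2 * R - R : ℤ) : ℝ) = (R : ℝ) := by push_cast; ring
    rw [h2] at h1
    linarith
  · have hm := mix_SQ ω ξ (0, 0) d R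
    have hS : ∀ f ∈ SQ ω (0, 0) d R, ω f = mixC (SQ ω (0, 0) d R) ω ξ f := fun f hf => by
      unfold mixC; rw [if_pos hf]
    refine ⟨⟨(TA_congr (by omega) hS).2 hω.1, x ω, hxin ω hω, ?_⟩, fun hcon => hξ (hc ω hω ξ hcon)⟩
    have h1 := hxc ω hω
    unfold Close at h1 ⊢
    have h2 : MM (mixC (SQ ω (0, 0) d R) ω ξ) (RF (-R) R (-R) R) (ue (0, 0) d) =
        MM ω (RF (-R) R (-R) R) (ue (0, 0) d) := by
      have h3 := hm.2
      unfold QF at h3
      simpa using h3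
    rw [h2]
    exact h1

end Pool.Agent.PercL
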