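import Pool.Agent.Lib.MP_6bd702_percw.LowBasic
import Pool.Agent.Lib.MP_6bd702_percw.SymB

/-!
# Symmetries (task LowSym; uses the transposition, reflection, translation of `SymA.lean`, helper97)

`far_le_west`: the dihedral group of order 8 fixes the origin; two of its elements map the side of
the far tip to the west side, and for exactly one of them the upper vertex of the image has the
parity `a`. Every direction occurs twice. The centre `ua t` of the ball in `FarTip` moves by at most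
one: this is the loss of one in the radius.

`reduce_east`: the same for the east side, the event `{ξ | ...}` is transported (`QF 0 B` is
invariant, `mixC` and `ncard` are compatible with the symmetries).
-/

set_option autoImplicit false

namespace Pool.Agent.PercL

open Finset Pool.Agent.Perc

namespace LowSym

/-- Composition of symmetries. -/
def scomp (σ τ : Sym) : Sym where
  toHSym := σ.toHSym.comp τ.toHSym
  inv := τ.inv.comp σ.inv
  hv := by
    show σ.inv.v.trans τ.inv.v = (τ.v.trans σ.v).symm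
    rw [σ.hv, τ.hv]
    rfl
  hf := by
    show σ.inv.f.trans τ.inv.f = (τ.f.trans σ.f).symm
    rw [σ.hf, τ.hf]
    rfl
  hs := by
    show σ.inv.s.trans τ.inv.s = (τ.s.trans σ.s).symm
    rw [σ.hs, τ.hs]
    rfl
  hb := by
    show xor τ.inv.b σ.inv.b = xor σ.b τ.b
    rw [σ.hb, τ.hb, Bool.xor_comm]

theorem scomp_maps {σ τ : Sym} {x₀ x₁ y₀ y₁ x₀' x₁' y₀' y₁' x₀'' x₁'' y₀'' y₁'' : ℤ}
    (hσ : σ.Maps x₀' x₁' y₀' y₁' x₀'' x₁'' y₀'' y₁'') (hτ : τ.Maps x₀ x₁ y₀ y₁ x₀' x₁' y₀' y₁') :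
    (scomp σ τ).Maps x₀ x₁ y₀ y₁ x₀'' x₁'' y₀'' y₁'' where
  img := by
    show (fun x => σ.f (τ.f x)) '' _ = _
    rw [← hσ.img, ← hτ.img, Set.image_image]
  inR w := (hσ.inR (τ.v w)).trans (hτ.inR w)
  onBd w := (hσ.onBd (τ.v w)).trans (hτ.onBd w)
  bdE a := (hσ.bdE (τ.s a)).trans (hτ.bdE a)
  wi ρ x w := (hσ.wi ρ (τ.v x) (τ.v w)).trans (hτ.wi ρ x w)
  par p q := (hσ.par (τ.v p) (τ.v q)).trans (hτ.par p q)

/-- The identity. -/
def sid : Sym where
  v := Equiv.refl _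
  f := Equiv.refl _
  s := Equiv.refl _
  b := false
  joins' _ _ _ h := h
  mt' _ _ _ _ h := by simpa using h
  bond' _ _ _ _ h := by simpa using h
  inv :=
    { v := Equiv.refl _
      f := Equiv.refl _
      s := Equiv.refl _
      b := false
      joins' := fun _ _ _ h => h
      mt' := fun _ _ _ _ h => by simpa using h
      bond' := fun _ _ _ _ h => by simpa using h }
  hv := rfl
  hf := rfl
  hs := rfl
  hb := rfl

theorem sid_maps (x₀ x₁ y₀ y₁ : ℤ) : sid.Maps x₀ x₁ y₀ y₁ x₀ x₁ y₀ y₁ where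
  img := by
    show (fun x => x) '' _ = _
    simp
  inR w := Iff.rfl
  onBd w := Iff.rfl
  bdE a := Iff.rfl
  wi ρ x w := Iff.rfl
  par p q := Iff.rfl

/-- A symmetry of the squares around the origin which acts on the directions by `π`. -/
structure Sq (σ : Sym) (π : Fin 4 → Fin 4) : Prop where
  maps : ∀ R : ℤ, σ.Maps (0 - R) (0 + R) (0 - R) (0 + R) (0 - R) (0 + R) (0 - R) (0 + R)
  hue : ∀ d, σ.s (ue (0, 0) d) = ue (0, 0) (π d)
  hv0 : σ.v (0, 0) = (0, 0)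
  hnb : ∀ d, σ.v (nb (0, 0) d) = nb (0, 0) (π d)

theorem Sq.comp {σ τ : Sym} {π π' : Fin 4 → Fin 4} (hσ : Sq σ π) (hτ : Sq τ π') :
    Sq (scomp σ τ) (fun d => π (π' d)) where
  maps R := scomp_maps (hσ.maps R) (hτ.maps R)
  hue d := by
    show σ.s (τ.s _) = _
    rw [hτ.hue, hσ.hue]
  hv0 := by
    show σ.v (τ.v _) = _
    rw [hτ.hv0, hσ.hv0]
  hnb d := by
    show σ.v (τ.v _) = _
    rw [hτ.hnb, hσ.hnb]

theorem sq_id : Sq sid id where
  maps _ := sid_maps _ _ _ _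
  hue _ := rfl
  hv0 := rfl
  hnb _ := rfl

theorem sq_T : Sq symT ![1, 0, 3, 2] where
  maps _ := Sym.maps_T _ _ _ _
  hue d := by fin_cases d <;> simp [ue, symT, hsymT]
  hv0 := by simp [symT, hsymT]
  hnb d := by fin_cases d <;> simp [nb, symT, hsymT]

theorem sq_X : Sq (symX 0) ![2, 1, 0, 3] where
  maps R := by
    have h := Sym.maps_X 0 (0 - R) (0 + R) (0 - R) (0 + R)
    have e1 : (0 : ℤ) - (0 + R) = 0 - R := by ring
    have e2 : (0 : ℤ) - (0 - R) = 0 + R := by ring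
    rwa [e1, e2] at h
  hue d := by fin_cases d <;> simp [ue, symX, hsymX]
  hv0 := by simp [symX, hsymX]
  hnb d := by fin_cases d <;> simp [nb, symX, hsymX]

end LowSym

namespace LowSym

variable {ω : Cfg} {R B ρ : ℤ} {d : Fin 4} {σ : Sym} {π : Fin 4 → Fin 4}

theorem Sq.image_QF (hσ : Sq σ π) (R : ℤ) : (QF (0, 0) R).image σ.f = QF (0, 0) R :=
  (hσ.maps R).image_RF

/-- `σ` preserves the probability. -/
theorem Sq.pr_act (hσ : Sq σ π) {A : Set Cfg} (hA : DepOn (QF (0, 0) R : Set (ℤ × ℤ)) A) :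
    pr (QF (0, 0) R) {ω | σ.act ω ∈ A} = pr (QF (0, 0) R) A := by
  have h := σ.pr_act (S := QF (0, 0) R) (A := A) (by rw [hσ.image_QF]; exact hA)
  rwa [hσ.image_QF] at h

theorem Sq.TA_iff (hσ : Sq σ π) : σ.act ω ∈ TA (0, 0) (π d) R ↔ ω ∈ TA (0, 0) d R := by
  have h1 := (hσ.maps R).toBd_iff (ω := ω) (u := (0, 0))
  have h2 := (hσ.maps R).toBd_iff (ω := ω) (u := nb (0, 0) d)
  rw [hσ.hv0] at h1
  rw [hσ.hnb] at h2
  exact and_congr h1 h2

theorem pr_TA_dir (d : Fin 4) : pr (QF (0, 0) R) (TA (0, 0) d R) =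
    pr (QF (0, 0) R) (TA (0, 0) 0 R) := by
  have key : ∀ (σ : Sym) (π : Fin 4 → Fin 4), Sq σ π → pr (QF (0, 0) R) (TA (0, 0) (π 0) R) =
      pr (QF (0, 0) R) (TA (0, 0) 0 R) := by
    intro σ π hσ
    rw [← hσ.pr_act depOn_TA]
    congr 1
    ext ω
    exact hσ.TA_iff
  have h1 := key _ _ sq_T
  have h2 := key _ _ sq_X
  have h3 := key _ _ (sq_T.comp sq_X)
  fin_cases d
  · rfl
  · exact h1
  · exact h2
  · exact h3

/-- The translation. -/
theorem maps_tr (p : ℤ × ℤ) (R : ℤ) : (symS p.1 p.2).Maps (0 - R) (0 + R) (0 - R) (0 + R)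
    (p.1 - R) (p.1 + R) (p.2 - R) (p.2 + R) := by
  have h := Sym.maps_S p.1 p.2 (0 - R) (0 + R) (0 - R) (0 + R)
  have e1 : 0 - R + p.1 = p.1 - R := by ring
  have e2 : 0 + R + p.1 = p.1 + R := by ring
  have e3 : 0 - R + p.2 = p.2 - R := by ring
  have e4 : 0 + R + p.2 = p.2 + R := by ring
  rwa [e1, e2, e3, e4] at h

theorem tr_v0 (p : ℤ × ℤ) : (symS p.1 p.2).v (0, 0) = p := by simp [symS, hsymS]

theorem tr_ue (p : ℤ × ℤ) (d : Fin 4) : (symS p.1 p.2).s (ue (0, 0) d) = ue p d := by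
  fin_cases d <;> simp [ue, symS, hsymS] <;> ring

theorem tr_nb (p : ℤ × ℤ) (d : Fin 4) : (symS p.1 p.2).v (nb (0, 0) d) = nb p d := by
  fin_cases d <;> simp [nb, symS, hsymS] <;> ring

theorem pr_tr (p : ℤ × ℤ) {A : Set Cfg} (hA : DepOn (QF p R : Set (ℤ × ℤ)) A) :
    pr (QF (0, 0) R) {ω | (symS p.1 p.2).act ω ∈ A} = pr (QF p R) A := by
  have e : (QF (0, 0) R).image (symS p.1 p.2).f = QF p R := (maps_tr p R).image_RF
  have h := (symS p.1 p.2).pr_act (S := QF (0, 0) R) (A := A) (by rw [e]; exact hA)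
  rwa [e] at h

/-- The far tips are translated. -/
theorem tr_FT (p : ℤ × ℤ) (t : UE) : FT ((symS p.1 p.2).act ω) p d R ρ ((symS p.1 p.2).s t) ↔
    FT ω (0, 0) d R ρ t := by
  have M := maps_tr p R
  have hua : ∀ a, ua ((symS p.1 p.2).s a) = (symS p.1 p.2).v (ua a) := by
    rintro ⟨x, y, b⟩
    rfl
  have hub : ∀ a, ub ((symS p.1 p.2).s a) = (symS p.1 p.2).v (ub a) := by
    rintro ⟨x, y, b⟩
    cases b
    · simp [ub, symS, hsymS]; ring
    · simp [ub, symS, hsymS]; ring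
  unfold FT FarTip
  rw [← tr_ue p d]
  refine and_congr M.mem_MM_iff (and_congr (M.bdE t) ?_)
  constructor
  · intro h a ha hb h1 h2
    have h3 := h _ (M.mem_MM_iff.2 ha) ((M.bdE a).2 hb)
      (by rw [hua, hua, M.wi]; exact h1) (by rw [hua, hub, M.wi]; exact h2)
    exact (symS p.1 p.2).s.injective h3
  · intro h a ha hb h1 h2
    obtain ⟨a, rfl⟩ := (symS p.1 p.2).s.surjective a
    rw [h a (M.mem_MM_iff.1 ha) ((M.bdE a).1 hb) (by rw [hua, hua, M.wi] at h1; exact h1)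
      (by rw [hua, hub, M.wi] at h2; exact h2)]

end LowSym

open LowSym

theorem pr_TA {p : ℤ × ℤ} {R : ℤ} {d : Fin 4} {W : Finset (ℤ × ℤ)} (hW : QF p R ⊆ W) :
    pr W (TA p d R) = p2 R := by
  rw [pr_eq_of_depOn depOn_TA hW, ← pr_tr p depOn_TA]
  have h1 : {ω | (symS p.1 p.2).act ω ∈ TA p d R} = TA (0, 0) d R := by
    ext ω
    have h1 := (maps_tr p R).toBd_iff (ω := ω) (u := (0, 0))
    have h2 := (maps_tr p R).toBd_iff (ω := ω) (u := nb (0, 0) d)
    rw [tr_v0] at h1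
    rw [tr_nb] at h2
    exact and_congr h1 h2
  rw [h1, pr_TA_dir]
  unfold p2 QF TA twoArm nb
  simp

/-- Translation by an even vector. -/
theorem pr_WestT {a R ρ : ℤ} {p : ℤ × ℤ} {d : Fin 4} (hp : (p.1 + p.2) % 2 = 0)
    {W : Finset (ℤ × ℤ)} (hW : QF p R ⊆ W) :
    pr W (WestT a p d R ρ) = pr (QF (0, 0) R) (WestT a (0, 0) d R ρ) := by
  rw [pr_eq_of_depOn depOn_WestT hW, ← pr_tr p depOn_WestT]
  congr 1
  ext ω
  constructor
  · rintro ⟨h, h1, h2⟩
    refine ⟨h - p.2, by simp only; omega, ?_⟩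
    rw [← tr_FT p]
    have e : (symS p.1 p.2).s ((0, 0).1 - R, h - p.2, true) = (p.1 - R, h, true) := by
      simp [symS, hsymS]; ring
    rw [e]
    exact h2
  · rintro ⟨h, h1, h2⟩
    refine ⟨h + p.2, by simp only at h1; omega, ?_⟩
    rw [← tr_FT p] at h2
    have e : (symS p.1 p.2).s ((0, 0).1 - R, h, true) = (p.1 - R, h + p.2, true) := by
      simp [symS, hsymS]; ring
    rw [e] at h2
    exact h2

namespace LowSym

/-- The image of a far tip. -/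
theorem Sq.FT_act {σ : Sym} {π : Fin 4 → Fin 4} (hσ : Sq σ π) {ω : Cfg} {d : Fin 4} {R ρ : ℤ}
    {t : UE} (h : FT ω (0, 0) d R (ρ + 1) t) : FT (σ.act ω) (0, 0) (π d) R ρ (σ.s t) := by
  have h1 := (hσ.maps R).farTip h
  rw [hσ.hue] at h1
  exact h1

theorem FT_mono {ω : Cfg} {p : ℤ × ℤ} {d : Fin 4} {R ρ ρ' : ℤ} {t : UE} (h : FT ω p d R ρ' t)
    (hρ : ρ ≤ ρ') : FT ω p d R ρ t := by
  obtain ⟨h1, h2, h3⟩ := h
  refine ⟨h1, h2, fun a ha hb hw hw' => h3 a ha hb ?_ ?_⟩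
  · unfold Wi at *; omega
  · unfold Wi at *; omega

end LowSym

namespace LowSym

/-- The reflection `y ↦ -y`. -/
def symY : Sym := scomp symT (scomp (symX 0) symT)

theorem sq_Y : Sq symY (fun d => (![1, 0, 3, 2] : Fin 4 → Fin 4)
    ((![2, 1, 0, 3] : Fin 4 → Fin 4) ((![1, 0, 3, 2] : Fin 4 → Fin 4) d))) :=
  sq_T.comp (sq_X.comp sq_T)

theorem sid_s (t : UE) : sid.s t = t := rfl

theorem T_s (x y : ℤ) (b : Bool) : symT.s (x, y, b) = (y, x, !b) := rfl

theorem X_s (x y : ℤ) : (symX 0).s (x, y, true) = (-x, y, true) := by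
  simp [symX, hsymX]

theorem X_s' (x y : ℤ) : (symX 0).s (x, y, false) = (-x - 1, y, false) := by
  simp [symX, hsymX]

theorem scomp_s (σ τ : Sym) (t : UE) : (scomp σ τ).s t = σ.s (τ.s t) := rfl

theorem Y_s (x y : ℤ) : symY.s (x, y, true) = (x, -y - 1, true) := by
  unfold symY
  rw [scomp_s, scomp_s, T_s]
  show symT.s ((symX 0).s (y, x, false)) = _
  rw [X_s', T_s]
  rfl

/-- Every tip is mapped to the west side, with the upper vertex of parity `a`. -/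
theorem west_cases {a R ρ : ℤ} {ω : Cfg} (h : ω ∈ FarEv (0, 0) 0 R (ρ + 1)) :
    ω ∈ ((((((({ω | sid.act ω ∈ WestT a (0, 0) 0 R ρ} ∪ {ω | symY.act ω ∈ WestT a (0, 0) 0 R ρ}) ∪
      {ω | (symX 0).act ω ∈ WestT a (0, 0) 2 R ρ}) ∪
      {ω | (scomp (symX 0) symY).act ω ∈ WestT a (0, 0) 2 R ρ}) ∪
      {ω | symT.act ω ∈ WestT a (0, 0) 1 R ρ}) ∪
      {ω | (scomp (symX 0) symT).act ω ∈ WestT a (0, 0) 1 R ρ}) ∪
      {ω | (scomp symY symT).act ω ∈ WestT a (0, 0) 3 R ρ}) ∪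
      {ω | (scomp (symX 0) (scomp symY symT)).act ω ∈ WestT a (0, 0) 3 R ρ}) := by
  obtain ⟨⟨x, y, b⟩, ht⟩ := h
  have hb := ht.2.1
  have key : ∀ (σ : Sym) (π : Fin 4 → Fin 4) (h : ℤ), Sq σ π → (0 - R + (h + 1) - a) % 2 = 0 →
      σ.s (x, y, b) = (0 - R, h, true) → σ.act ω ∈ WestT a (0, 0) (π 0) R ρ := by
    intro σ π h hσ h1 h2
    have h3 := hσ.FT_act ht
    rw [h2] at h3
    exact ⟨h, h1, h3⟩
  unfold BdE at hb
  simp only at hb
  rcases hb with ⟨rfl, -, -, rfl | rfl⟩ | ⟨rfl, -, -, rfl | rfl⟩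
  · by_cases hp : (0 - R + (x + 1) - a) % 2 = 0
    · have := key symT _ x sq_T hp rfl
      exact Or.inl (Or.inl (Or.inl (Or.inr this)))
    · have := key _ _ (-x - 1) (sq_Y.comp sq_T) (by omega) (by
        rw [scomp_s, T_s]; exact Y_s _ _)
      exact Or.inl (Or.inr this)
  · by_cases hp : (0 - R + (x + 1) - a) % 2 = 0
    · have := key _ _ x (sq_X.comp sq_T) hp (by
        rw [scomp_s, T_s]
        refine (X_s _ _).trans ?_
        simp)
      exact Or.inl (Or.inl (Or.inr this))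
    · have := key _ _ (-x - 1) (sq_X.comp (sq_Y.comp sq_T)) (by omega) (by
        rw [scomp_s, scomp_s, T_s]
        refine (congrArg _ (Y_s _ _)).trans ?_
        rw [X_s]
        simp)
      exact Or.inr this
  · by_cases hp : (0 - R + (y + 1) - a) % 2 = 0
    · have := key sid _ y sq_id hp rfl
      exact Or.inl (Or.inl (Or.inl (Or.inl (Or.inl (Or.inl (Or.inl this))))))
    · have := key _ _ (-y - 1) sq_Y (by omega) (Y_s _ _)
      exact Or.inl (Or.inl (Or.inl (Or.inl (Or.inl (Or.inl (Or.inr this))))))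
  · by_cases hp : (0 - R + (y + 1) - a) % 2 = 0
    · have := key _ _ y sq_X hp (by rw [X_s]; simp)
      exact Or.inl (Or.inl (Or.inl (Or.inl (Or.inl (Or.inr this)))))
    · have := key _ _ (-y - 1) (sq_X.comp sq_Y) (by omega) (by
        rw [scomp_s, Y_s, X_s]
        simp)
      exact Or.inl (Or.inl (Or.inl (Or.inl (Or.inr this))))

end LowSym

theorem far_le_west {a R ρ : ℤ} (hR : 1 ≤ R) (hρ : 1 ≤ ρ) :
    pr (QF (0, 0) R) (FarEv (0, 0) 0 R (ρ + 1)) ≤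
      2 * ∑ d : Fin 4, pr (QF (0, 0) R) (WestT a (0, 0) d R ρ) := by
  refine (pr_mono _ fun ω hω => west_cases (a := a) hω).trans ?_
  have key : ∀ (σ : Sym) (π : Fin 4 → Fin 4) (d : Fin 4), Sq σ π →
      pr (QF (0, 0) R) {ω | σ.act ω ∈ WestT a (0, 0) d R ρ} =
        pr (QF (0, 0) R) (WestT a (0, 0) d R ρ) := fun σ π d hσ => hσ.pr_act depOn_WestT
  have e1 := key _ _ 0 sq_id
  have e2 := key _ _ 0 sq_Y
  have e3 := key _ _ 2 sq_X
  have e4 := key _ _ 2 (sq_X.comp sq_Y)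
  have e5 := key _ _ 1 sq_T
  have e6 := key _ _ 1 (sq_X.comp sq_T)
  have e7 := key _ _ 3 (sq_Y.comp sq_T)
  have e8 := key _ _ 3 (sq_X.comp (sq_Y.comp sq_T))
  refine (pr_union_le _ _ _).trans ?_
  rw [e8]
  refine (add_le_add_left (pr_union_le _ _ _) _).trans ?_
  rw [e7]
  refine (add_le_add_left (add_le_add_left (pr_union_le _ _ _) _) _).trans ?_
  rw [e6]
  refine (add_le_add_left (add_le_add_left (add_le_add_left (pr_union_le _ _ _) _) _) _).trans ?_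
  rw [e5]
  refine (add_le_add_left (add_le_add_left (add_le_add_left (add_le_add_left
    (pr_union_le _ _ _) _) _) _) _).trans ?_
  rw [e4]
  refine (add_le_add_left (add_le_add_left (add_le_add_left (add_le_add_left (add_le_add_left
    (pr_union_le _ _ _) _) _) _) _) _).trans ?_
  rw [e3]
  refine (add_le_add_left (add_le_add_left (add_le_add_left (add_le_add_left (add_le_add_left
    (add_le_add_left (pr_union_le _ _ _) _) _) _) _) _) _).trans ?_
  rw [e1, e2, Fin.sum_univ_four]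
  linarith

namespace LowSym

/-- The action is compatible with the resampling. -/
theorem act_mixC {σ : Sym} (S : Set (ℤ × ℤ)) (ω ξ : Cfg) :
    σ.act (mixC S ω ξ) = mixC (σ.f '' S) (σ.act ω) (σ.act ξ) := by
  funext g
  obtain ⟨g, rfl⟩ := σ.f.surjective g
  rw [σ.act_apply]
  unfold mixC
  by_cases hg : g ∈ S
  · rw [if_pos hg, if_pos (Set.mem_image_of_mem _ hg), σ.act_apply]
  · rw [if_neg hg, if_neg (by rwa [σ.f.injective.mem_set_image]), σ.act_apply]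

theorem Sq.SQ_act {σ : Sym} {π : Fin 4 → Fin 4} (hσ : Sq σ π) {ω : Cfg} {d : Fin 4} {R : ℤ} :
    SQ (σ.act ω) (0, 0) (π d) R = σ.f '' SQ ω (0, 0) d R := by
  have h := (hσ.maps R).SS_eq (ω := ω) (e := ue (0, 0) d)
  rw [hσ.hue] at h
  exact h

theorem Sq.ncard_MM {σ : Sym} {π : Fin 4 → Fin 4} (hσ : Sq σ π) {ω : Cfg} {d : Fin 4} {B : ℤ} :
    (MM (σ.act ω) (QF (0, 0) B) (ue (0, 0) (π d))).ncard =
      (MM ω (QF (0, 0) B) (ue (0, 0) d)).ncard := by
  have h := (hσ.maps B).MM_eq (ω := ω) (e := ue (0, 0) d)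
  rw [hσ.hue] at h
  have h2 : MM (σ.act ω) (QF (0, 0) B) (ue (0, 0) (π d)) =
      σ.s '' MM ω (QF (0, 0) B) (ue (0, 0) d) := h
  rw [h2, Set.ncard_image_of_injective _ σ.s.injective]

theorem east_cases {R ρ : ℤ} {ω : Cfg} {d : Fin 4} (h : ω ∈ FarEv (0, 0) d R (ρ + 1)) :
    ∃ (σ : Sym) (π : Fin 4 → Fin 4) (h : ℤ), Sq σ π ∧
      FT (σ.act ω) (0, 0) (π d) R ρ (R, h, true) := by
  obtain ⟨⟨x, y, b⟩, ht⟩ := h
  have hb := ht.2.1
  have key : ∀ (σ : Sym) (π : Fin 4 → Fin 4) (h : ℤ), Sq σ π →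
      σ.s (x, y, b) = (R, h, true) → ∃ (σ : Sym) (π : Fin 4 → Fin 4) (h : ℤ), Sq σ π ∧
      FT (σ.act ω) (0, 0) (π d) R ρ (R, h, true) := by
    intro σ π h hσ h2
    have h3 := hσ.FT_act ht
    rw [h2] at h3
    exact ⟨σ, π, h, hσ, h3⟩
  unfold BdE at hb
  simp only at hb
  rcases hb with ⟨rfl, -, -, rfl | rfl⟩ | ⟨rfl, -, -, rfl | rfl⟩
  · refine key _ _ x (sq_X.comp sq_T) ?_
    rw [scomp_s, T_s]
    refine (X_s _ _).trans ?_
    simp
  · refine key _ _ x sq_T ?_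
    rw [T_s]
    simp
  · refine key _ _ y sq_X ?_
    rw [X_s]
    simp
  · refine key _ _ y sq_id ?_
    rw [sid_s]
    simp

end LowSym

theorem reduce_east {R B ρ : ℤ} {t c : ℝ} (hR : 1 ≤ R) (hRB : R ≤ B) (hρ : 1 ≤ ρ)
    (hE : ∀ (ω : Cfg) (d : Fin 4) (h : ℤ), FT ω (0, 0) d R ρ (R, h, true) →
      c ≤ pr (QF (0, 0) B) {ξ | t ≤ ((MM (mixC (SQ ω (0, 0) d R) ω ξ) (QF (0, 0) B)
        (ue (0, 0) d)).ncard : ℝ)})
    (ω : Cfg) (d : Fin 4) (hω : ω ∈ FarEv (0, 0) d R (ρ + 1)) :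
    c ≤ pr (QF (0, 0) B) {ξ | t ≤ ((MM (mixC (SQ ω (0, 0) d R) ω ξ) (QF (0, 0) B)
      (ue (0, 0) d)).ncard : ℝ)} := by
  obtain ⟨σ, π, h, hσ, hF⟩ := east_cases hω
  refine (hE _ _ h hF).trans (le_of_eq ?_)
  rw [← hσ.pr_act]
  · congr 1
    ext ξ
    simp only [Set.mem_ofPred_eq]
    rw [hσ.SQ_act, ← act_mixC, hσ.ncard_MM]
  · intro ξ ξ' hξ
    simp only [Set.mem_ofPred_eq]
    have h1 : ∀ f ∈ SS (mixC (SQ (σ.act ω) (0, 0) (π d) R) (σ.act ω) ξ) (QF (0, 0) B)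
        (ue (0, 0) (π d)), mixC (SQ (σ.act ω) (0, 0) (π d) R) (σ.act ω) ξ f =
        mixC (SQ (σ.act ω) (0, 0) (π d) R) (σ.act ω) ξ' f := by
      intro f hf
      unfold mixC
      rw [hξ f hf.1]
    rw [MM_congr h1]

end Pool.Agent.PercL
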