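import Pool.Agent.Lib.MP_6bd702_percw.TipsB
import Pool.Agent.Lib.MP_6bd702_pr_h60.UpTail

/-!
# The lower tail: from the face grid to the square lattice
-/

set_option autoImplicit false

namespace Pool.Agent.PercW

open Finset
open Pool.Agent.MP_6bd702.H23 (Ed)
open Pool.Agent.Perc
open Pool.Agent.PercU (Cor vtx fce qry qryb rot adv rotb advb nxt prv nxtE)
open Pool.Agent.PercO (Orb sd Kc)
open Pool.Agent.PercX60 (gV gF gB gT phiF dB TA Sn)

/-- The unit edge of the face grid which corresponds to a corner. -/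
def kap : Cor → UE
  | (x, y, true, true) => (x + y, x - y, false)
  | (x, y, false, true) => (x + y, x - y - 1, true)
  | (x, y, false, false) => (x + y - 1, x - y, false)
  | (x, y, true, false) => (x + y, x - y, true)

theorem ua_kap (k : Cor) : ua (kap k) = gB k := by
  obtain ⟨x, y, _ | _, _ | _⟩ := k <;>
    simp [kap, ua, gB, gV, gF, phiV, phiF, vtx, fce] <;> omega

theorem joins_kap (k : Cor) : Joins (kap k) (gV k) (gF k) := by
  obtain ⟨x, y, _ | _, _ | _⟩ := k <;>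
    simp [kap, ua, ub, Joins, gV, gF, phiV, phiF, vtx, fce] <;> omega

theorem kap_injective : Function.Injective kap := by
  rintro ⟨x, y, _ | _, _ | _⟩ ⟨x', y', _ | _, _ | _⟩ h <;>
    simp [kap] at h ⊢ <;> omega

/-- The next corner is matched in the face of the queried edge. -/
theorem mt_nxt (T : Set Ed) (k : Cor) : Mt (gT T) (phiE (qry k)) (kap k) (kap (nxt T k)) := by
  have h0 := PercX60.gT_phiE T (qry k)
  by_cases h : qry k ∈ T
  · rw [PercU.nxt_of_mem h]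
    have h1 := h0.2 h
    obtain ⟨x, y, _ | _, _ | _⟩ := k
    · right
      refine ⟨by simpa [qry] using h1, ?_⟩
      simp [qry, kap, adv, phiE, bo, le', to', ri] <;> omega
    · left
      refine ⟨by simpa [qry] using h1, ?_⟩
      simp [qry, kap, adv, phiE, bo, le', to', ri] <;> omega
    · left
      refine ⟨by simpa [qry] using h1, ?_⟩
      simp [qry, kap, adv, phiE, bo, le', to', ri] <;> omega
    · right
      refine ⟨by simpa [qry] using h1, ?_⟩
      simp [qry, kap, adv, phiE, bo, le', to', ri] <;> omega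
  · rw [PercU.nxt_of_notMem h]
    have h1 : gT T (phiE (qry k)) = (qry k).2.2 := by
      have h2 : ¬ (gT T (phiE (qry k)) = !(qry k).2.2) := fun h3 => h (h0.1 h3)
      cases h3 : gT T (phiE (qry k)) <;> cases h4 : (qry k).2.2 <;> simp_all
    obtain ⟨x, y, _ | _, _ | _⟩ := k
    · left
      refine ⟨by simpa [qry] using h1, ?_⟩
      simp [qry, kap, rot, phiE, bo, le', to', ri] <;> omega
    · right
      refine ⟨by simpa [qry] using h1, ?_⟩
      simp [qry, kap, rot, phiE, bo, le', to', ri] <;> omega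
    · right
      refine ⟨by simpa [qry] using h1, ?_⟩
      simp [qry, kap, rot, phiE, bo, le', to', ri] <;> omega
    · left
      refine ⟨by simpa [qry] using h1, ?_⟩
      simp [qry, kap, rot, phiE, bo, le', to', ri] <;> omega

theorem mt_prv (T : Set Ed) (k : Cor) : Mt (gT T) (phiE (qryb k)) (kap k) (kap (prv T k)) := by
  have h := mt_nxt T (prv T k)
  rw [PercU.nxt_prv, PercU.qry_prv] at h
  exact h.symm

/-- A unit edge is a side of two faces only. -/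
theorem side_kap {f : ℤ × ℤ} {k : Cor} (h : IsSide f (kap k)) :
    f = phiE (qry k) ∨ f = phiE (qryb k) := by
  obtain ⟨a, b⟩ := f
  obtain ⟨x, y, _ | _, _ | _⟩ := k <;>
    simp [IsSide, kap, bo, le', to', ri, qry, qryb, phiE] at h ⊢ <;> omega

theorem Mt_unique {ω : Cfg} {f : ℤ × ℤ} {a b b' : UE} (h : Mt ω f a b) (h' : Mt ω f a b') :
    b = b' := by
  obtain ⟨x, y⟩ := f
  unfold Mt at h h'
  rcases h with ⟨h0, h⟩ | ⟨h0, h⟩ <;> rcases h' with ⟨h0', h'⟩ | ⟨h0', h'⟩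
  · rcases h with ⟨rfl, rfl⟩ | ⟨rfl, rfl⟩ | ⟨rfl, rfl⟩ | ⟨rfl, rfl⟩ <;>
      simp [bo, le', to', ri] at h' ⊢ <;> exact h'.symm
  · rw [h0] at h0'; exact absurd h0' (by decide)
  · rw [h0] at h0'; exact absurd h0' (by decide)
  · rcases h with ⟨rfl, rfl⟩ | ⟨rfl, rfl⟩ | ⟨rfl, rfl⟩ | ⟨rfl, rfl⟩ <;>
      simp [bo, le', to', ri] at h' ⊢ <;> exact h'.symm

theorem prv_mem_orb {T : Set Ed} {k k' : Cor} (h : k' ∈ Orb T k) : prv T k' ∈ Orb T k := by
  rw [← PercO.nxt_mem_orb, PercU.nxt_prv]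
  exact h

/-- The component is contained in the orbit. -/
theorem MM_sub_orb {T : Set Ed} {F : Set (ℤ × ℤ)} {k : Cor} {a : UE}
    (h : a ∈ MM (gT T) F (kap k)) : a ∈ kap '' Orb T k := by
  induction h with
  | refl => exact ⟨k, ⟨0, by simp⟩, rfl⟩
  | tail _ hs ih =>
    obtain ⟨k', hk', rfl⟩ := ih
    obtain ⟨f, hf, hm⟩ := hs
    rcases side_kap hm.left with rfl | rfl
    · exact ⟨nxt T k', PercO.nxt_mem_orb.2 hk', Mt_unique (mt_nxt T k') hm⟩
    · exact ⟨prv T k', prv_mem_orb hk', Mt_unique (mt_prv T k') hm⟩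

/-- The lower tail in the face grid. -/
def LowerF : Prop := ∃ c q : ℝ, 0 < c ∧ 0 ≤ q ∧ q < 1 ∧ ∀ K s : ℕ, 1 ≤ s → ∀ e : UE, ∀ r : ℤ,
  r = ((K : ℤ) + 1) * s →
    pr (RF ((ua e).1 - r) ((ua e).1 + r) ((ua e).2 - r) ((ua e).2 + r))
      {ω | ToBd ((ua e).1 - r) ((ua e).1 + r) ((ua e).2 - r) ((ua e).2 + r) ω (ua e) ∧
        ToBd ((ua e).1 - r) ((ua e).1 + r) ((ua e).2 - r) ((ua e).2 + r) ω (ub e) ∧
        ((MM ω (RF ((ua e).1 - r) ((ua e).1 + r) ((ua e).2 - r) ((ua e).2 + r)) e).ncard : ℝ) <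
          c * (s : ℝ) ^ (7 / 4 : ℝ)} ≤ q ^ K

/-- The lower tail in the square lattice. -/
def LowerZ : Prop := ∃ c q : ℝ, 0 < c ∧ 0 ≤ q ∧ q < 1 ∧ ∀ n K s : ℕ, 1 ≤ s → ∀ k : Cor,
  3 * (((K : ℤ) + 1) * s) ≤ dB n (vtx k) →
    prB n {T | (∃ k' ∈ Orb (T : Set Ed) k, 3 * (((K : ℤ) + 1) * s) ≤ sd (vtx k') (vtx k)) ∧
      ((Orb (T : Set Ed) k).ncard : ℝ) < c * (s : ℝ) ^ (7 / 4 : ℝ)} ≤ q ^ K

theorem lowerZ_of_lowerF (h : LowerF) : LowerZ := by
  obtain ⟨c, q, hc, hq, hq1, H⟩ := h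
  refine ⟨c, q, hc, hq, hq1, fun n K s hs k hk => ?_⟩
  set r : ℤ := ((K : ℤ) + 1) * s with hr
  have hr1 : 1 ≤ r := by
    rw [hr]
    have h1 : (1 : ℤ) ≤ s := by exact_mod_cast hs
    nlinarith [Int.natCast_nonneg K]
  have hR : r + 1 ≤ dB n (vtx k) := by omega
  have hE := H K s hs (kap k) r hr
  refine le_trans ?_ hE
  rw [← PercX60.pr_Sn]
  set E : Set Cfg := {ω | ToBd ((ua (kap k)).1 - r) ((ua (kap k)).1 + r) ((ua (kap k)).2 - r)
      ((ua (kap k)).2 + r) ω (ua (kap k)) ∧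
    ToBd ((ua (kap k)).1 - r) ((ua (kap k)).1 + r) ((ua (kap k)).2 - r) ((ua (kap k)).2 + r) ω
      (ub (kap k)) ∧
    ((MM ω (RF ((ua (kap k)).1 - r) ((ua (kap k)).1 + r) ((ua (kap k)).2 - r)
      ((ua (kap k)).2 + r)) (kap k)).ncard : ℝ) < c * (s : ℝ) ^ (7 / 4 : ℝ)} with hEdef
  have hsub : RF ((ua (kap k)).1 - r) ((ua (kap k)).1 + r) ((ua (kap k)).2 - r)
      ((ua (kap k)).2 + r) ⊆ Sn n := by
    rw [ua_kap]
    exact PercX60.ball_sub_Sn hR
  have hdep : DepOn (RF ((ua (kap k)).1 - r) ((ua (kap k)).1 + r) ((ua (kap k)).2 - r)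
      ((ua (kap k)).2 + r) : Set (ℤ × ℤ)) E := by
    intro ω ω' hω
    have hM : MM ω' (RF ((ua (kap k)).1 - r) ((ua (kap k)).1 + r) ((ua (kap k)).2 - r)
        ((ua (kap k)).2 + r)) (kap k) = MM ω (RF ((ua (kap k)).1 - r) ((ua (kap k)).1 + r)
        ((ua (kap k)).2 - r) ((ua (kap k)).2 + r)) (kap k) :=
      MM_congr fun f hf => hω f (SS_sub hf)
    have hT : ∀ u, ToBd ((ua (kap k)).1 - r) ((ua (kap k)).1 + r) ((ua (kap k)).2 - r)
        ((ua (kap k)).2 + r) ω u ↔ ToBd ((ua (kap k)).1 - r) ((ua (kap k)).1 + r)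
        ((ua (kap k)).2 - r) ((ua (kap k)).2 + r) ω' u := by
      intro u
      unfold ToBd
      exact exists_congr fun v => and_congr (GridA.conn_iff _ hω _ _) Iff.rfl
    simp only [hEdef, Set.mem_ofPred_eq]
    rw [hM, hT, hT]
  rw [← pr_eq_of_depOn hdep hsub]
  refine pr_mono _ fun ω hω => ?_
  obtain ⟨⟨k', hk', hfar⟩, hcard⟩ := hω
  set T : Set Ed := (cfgE n ω : Set Ed) with hT
  have hTsub : T ⊆ (Pool.Agent.MP_6bd702.H23.EW 0 (n : ℤ) 0 n : Set Ed) :=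
    PercO.boxE_sub (Finset.filter_subset _ _)
  have hfin : (Kc T (vtx k)).Finite := PercO.finite_Kc hTsub
  have hself : vtx k ∈ Kc T (vtx k) := Relation.ReflTransGen.refl
  obtain ⟨j, hj⟩ := PercO.exists_nat_of_orb hself hfin hk'
  have hTA : ω ∈ TA r k := by
    refine PercX60.TA_of_far (j := j) hR hr1 ?_
    rw [← hT, hj]
    omega
  have hag : ∀ f ∈ (RF ((gB k).1 - r) ((gB k).1 + r) ((gB k).2 - r) ((gB k).2 + r) : Set (ℤ × ℤ)),
      gT T f = ω f := by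
    intro f hf
    have h1 := PercX60.gT_cfgE (ω := ω) (PercX60.ball_sub hR (Finset.mem_coe.1 hf))
    rwa [PercX60.phiE_eE] at h1
  -- the two ends
  have hends : ToBd ((gB k).1 - r) ((gB k).1 + r) ((gB k).2 - r) ((gB k).2 + r) ω (ua (kap k)) ∧
      ToBd ((gB k).1 - r) ((gB k).1 + r) ((gB k).2 - r) ((gB k).2 + r) ω (ub (kap k)) := by
    rcases joins_kap k with ⟨h1, h2⟩ | ⟨h1, h2⟩
    · rw [← h1, ← h2]; exact hTA
    · rw [← h1, ← h2]; exact ⟨hTA.2, hTA.1⟩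
  -- the cardinality
  have horb : (Orb T k).Finite := by
    refine (PercO.finite_cor hfin).subset fun k'' hk'' => ?_
    obtain ⟨i, rfl⟩ := PercO.exists_nat_of_orb hself hfin hk''
    exact PercO.vtx_iter_mem hself i
  have hcardM : (MM ω (RF ((gB k).1 - r) ((gB k).1 + r) ((gB k).2 - r) ((gB k).2 + r))
      (kap k)).ncard ≤ (Orb T k).ncard := by
    have h1 : MM ω (RF ((gB k).1 - r) ((gB k).1 + r) ((gB k).2 - r) ((gB k).2 + r)) (kap k) =
        MM (gT T) (RF ((gB k).1 - r) ((gB k).1 + r) ((gB k).2 - r) ((gB k).2 + r)) (kap k) :=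
      (MM_congr fun f hf => (hag f (SS_sub hf)).symm).symm
    rw [h1]
    refine (Set.ncard_le_ncard (fun a ha => MM_sub_orb ha) (horb.image _)).trans ?_
    exact Set.ncard_image_le horb
  rw [hEdef]
  simp only [Set.mem_ofPred_eq]
  rw [ua_kap]
  rw [ua_kap] at hends
  refine ⟨hends.1, hends.2, lt_of_le_of_lt ?_ hcard⟩
  exact_mod_cast hcardM

end Pool.Agent.PercW
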