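import Pool.Agent.Lib.MP_6bd702_percw.CoreA

/-!
# The component of a unit edge: connections inside the visited faces, stopping property
-/

set_option autoImplicit false

namespace Pool.Agent.Perc

open Finset

variable {ω ω' : Cfg} {F F' : Set (ℤ × ℤ)} {e a a' : UE} {f : ℤ × ℤ} {u v : ℤ × ℤ}
  {x₀ x₁ y₀ y₁ : ℤ}

/-- Parity of a vertex. -/
def par (w : ℤ × ℤ) : ℤ := (w.1 + w.2) % 2

theorem par_cases (w : ℤ × ℤ) : par w = 0 ∨ par w = 1 := by
  unfold par; omega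

theorem par_ub (a : UE) : par (ub a) ≠ par (ua a) := by
  obtain ⟨x, y, b⟩ := a
  cases b
  · rw [ub_false, ua_mk]; unfold par; simp only; omega
  · rw [ub_true, ua_mk]; unfold par; simp only; omega

theorem Joins.symm (h : Joins e u v) : Joins e v u := by
  unfold Joins at *; tauto

theorem Joins.par_ne (h : Joins e u v) : par u ≠ par v := by
  rcases h with ⟨rfl, rfl⟩ | ⟨rfl, rfl⟩
  · exact (par_ub e).symm
  · exact par_ub e

theorem Bond.symm' {p q : ℤ × ℤ} (h : Bond ω F p q) : Bond ω F q p := h.symm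

/-- A bond in a face: the two ends are corners of the face. -/
theorem Bond.exists_face {p q : ℤ × ℤ} (h : Bond ω F p q) :
    ∃ f ∈ F, Bond ω {f} p q ∧ IsCor f p ∧ IsCor f q := by
  obtain ⟨x, y, hf, h⟩ := h
  refine ⟨(x, y), hf, ⟨x, y, rfl, h⟩, ?_, ?_⟩ <;> unfold IsCor <;>
    rcases h with ⟨-, (⟨rfl, rfl⟩ | ⟨rfl, rfl⟩)⟩ | ⟨-, (⟨rfl, rfl⟩ | ⟨rfl, rfl⟩)⟩ <;> simp

theorem Bond.par_eq {p q : ℤ × ℤ} (h : Bond ω F p q) : par p = par q := by
  obtain ⟨x, y, hf, h⟩ := h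
  rcases h with ⟨-, (⟨rfl, rfl⟩ | ⟨rfl, rfl⟩)⟩ | ⟨-, (⟨rfl, rfl⟩ | ⟨rfl, rfl⟩)⟩ <;>
    unfold par <;> simp only <;> omega

theorem Bond.congr {p q : ℤ × ℤ} (hω : ω f = ω' f) (h : Bond ω {f} p q) : Bond ω' {f} p q := by
  obtain ⟨x, y, hf, h⟩ := h
  refine ⟨x, y, hf, ?_⟩
  rw [Set.mem_singleton_iff] at hf
  subst hf
  rw [← hω]; exact h

theorem Bond.mono {p q : ℤ × ℤ} (hF : F ⊆ F') (h : Bond ω F p q) : Bond ω F' p q := by
  obtain ⟨x, y, hf, h⟩ := h
  exact ⟨x, y, hF hf, h⟩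

theorem Bond.of_single {p q : ℤ × ℤ} (hF : f ∈ F) (h : Bond ω {f} p q) : Bond ω F p q :=
  h.mono (by simpa using hF)

theorem Conn.par_eq {p q : ℤ × ℤ} (h : Conn ω F p q) : par p = par q := by
  induction h with
  | refl => rfl
  | tail _ hb ih => rw [ih, hb.par_eq]

/-- The corners of a face of the rectangle are in the rectangle. -/
theorem IsCor.inR {w : ℤ × ℤ} (hf : f ∈ (RF x₀ x₁ y₀ y₁ : Set (ℤ × ℤ))) (h : IsCor f w) :
    InR x₀ x₁ y₀ y₁ w := by
  rw [mem_RF'] at hf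
  unfold IsCor at h; unfold InR
  omega

/-- Two corners of different parity of a face are the ends of a side of the face. -/
theorem exists_side {p q : ℤ × ℤ} (hp : IsCor f p) (hq : IsCor f q) (h : par p ≠ par q) :
    ∃ a, IsSide f a ∧ Joins a p q := by
  obtain ⟨x, y⟩ := f
  obtain ⟨p1, p2⟩ := p
  obtain ⟨q1, q2⟩ := q
  unfold IsCor at hp hq
  unfold par at h
  simp only at hp hq h
  rcases hp with ⟨h1 | h1, h2 | h2⟩ <;> rcases hq with ⟨h3 | h3, h4 | h4⟩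
  all_goals first
    | (exfalso; omega)
    | exact ⟨bo (x, y), Or.inl rfl, by
        simp only [Joins, bo, ua, ub, Prod.mk.injEq, if_false, Bool.false_eq_true]; omega⟩
    | exact ⟨le' (x, y), Or.inr (Or.inl rfl), by
        simp only [Joins, le', ua, ub, Prod.mk.injEq, if_true]; omega⟩
    | exact ⟨to' (x, y), Or.inr (Or.inr (Or.inl rfl)), by
        simp only [Joins, to', ua, ub, Prod.mk.injEq, if_false, Bool.false_eq_true]; omega⟩
    | exact ⟨ri (x, y), Or.inr (Or.inr (Or.inr rfl)), by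
        simp only [Joins, ri, ua, ub, Prod.mk.injEq, if_true]; omega⟩

theorem IsSide.cor (h : IsSide f a) : IsCor f (ua a) ∧ IsCor f (ub a) := by
  obtain ⟨x, y⟩ := f
  rcases h with rfl | rfl | rfl | rfl <;> simp [IsCor, bo, le', to', ri, ua, ub]

theorem IsSide.cor_left (h : IsSide f a) (hj : Joins a u v) : IsCor f u := by
  rcases hj with ⟨rfl, rfl⟩ | ⟨rfl, rfl⟩
  · exact h.cor.1
  · exact h.cor.2

/-- Membership in the component by the potential, for the ends in any order. -/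
theorem potR_joins {p q : ℤ × ℤ} (hj : Joins a p q) (hp : InR x₀ x₁ y₀ y₁ p)
    (hq : InR x₀ x₁ y₀ y₁ q) :
    a ∈ MM ω (RF x₀ x₁ y₀ y₁) e ↔ potR ω x₀ x₁ y₀ y₁ e p ≠ potR ω x₀ x₁ y₀ y₁ e q := by
  rcases hj with ⟨rfl, rfl⟩ | ⟨rfl, rfl⟩
  · exact potR_iff hp hq
  · rw [potR_iff hq hp, ne_comm]

/-- (A1) The potential is constant on the faces which are not visited. -/
theorem potR_fresh (hf : f ∈ (RF x₀ x₁ y₀ y₁ : Set (ℤ × ℤ)))
    (hS : f ∉ SS ω (RF x₀ x₁ y₀ y₁) e) {p q : ℤ × ℤ} (hp : IsCor f p) (hq : IsCor f q) :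
    potR ω x₀ x₁ y₀ y₁ e p = potR ω x₀ x₁ y₀ y₁ e q := by
  have key : ∀ {p q : ℤ × ℤ}, IsCor f p → IsCor f q → par p ≠ par q →
      potR ω x₀ x₁ y₀ y₁ e p = potR ω x₀ x₁ y₀ y₁ e q := by
    intro p q hp hq hpq
    obtain ⟨a, ha, hj⟩ := exists_side hp hq hpq
    by_contra hne
    exact hS ⟨hf, a, (potR_joins hj (hp.inR hf) (hq.inR hf)).2 hne, ha⟩
  by_cases hpq : par p = par q
  · -- use a third corner of the other parity
    obtain ⟨r, hr, hpr⟩ : ∃ r, IsCor f r ∧ par p ≠ par r := by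
      by_cases h : par p = par f
      · refine ⟨(f.1 + 1, f.2), by simp [IsCor], ?_⟩
        rw [h]; unfold par; simp only; omega
      · exact ⟨f, by simp [IsCor], h⟩
    rw [key hp hr hpr, key hq hr (by rw [← hpq]; exact hpr)]
  · exact key hp hq hpq

/-- (A0) The potential is constant along the bonds in the rectangle. -/
theorem potR_bond {p q : ℤ × ℤ} (h : Bond ω (RF x₀ x₁ y₀ y₁) p q) :
    potR ω x₀ x₁ y₀ y₁ e p = potR ω x₀ x₁ y₀ y₁ e q := by
  obtain ⟨x, y, hf, h⟩ := h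
  have c00 : InR x₀ x₁ y₀ y₁ (x, y) := IsCor.inR hf (by simp [IsCor])
  have c10 : InR x₀ x₁ y₀ y₁ (x + 1, y) := IsCor.inR hf (by simp [IsCor])
  have c01 : InR x₀ x₁ y₀ y₁ (x, y + 1) := IsCor.inR hf (by simp [IsCor])
  have c11 : InR x₀ x₁ y₀ y₁ (x + 1, y + 1) := IsCor.inR hf (by simp [IsCor])
  have hb := potR_joins (ω := ω) (e := e) (a := bo (x, y)) (p := (x, y)) (q := (x + 1, y))
    (by simp [Joins, bo, ua, ub]) c00 c10
  have hl := potR_joins (ω := ω) (e := e) (a := le' (x, y)) (p := (x, y)) (q := (x, y + 1))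
    (by simp [Joins, le', ua, ub]) c00 c01
  have ht := potR_joins (ω := ω) (e := e) (a := to' (x, y)) (p := (x, y + 1)) (q := (x + 1, y + 1))
    (by simp [Joins, to', ua, ub]) c01 c11
  have hr := potR_joins (ω := ω) (e := e) (a := ri (x, y)) (p := (x + 1, y)) (q := (x + 1, y + 1))
    (by simp [Joins, ri, ua, ub]) c10 c11
  have ev := MM_even (ω := ω) (e := e) hf
  have key : (ω (x, y) = true →
      potR ω x₀ x₁ y₀ y₁ e (x, y) = potR ω x₀ x₁ y₀ y₁ e (x + 1, y + 1)) ∧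
      (ω (x, y) = false →
      potR ω x₀ x₁ y₀ y₁ e (x, y + 1) = potR ω x₀ x₁ y₀ y₁ e (x + 1, y)) := by
    generalize potR ω x₀ x₁ y₀ y₁ e (x, y) = p00 at *
    generalize potR ω x₀ x₁ y₀ y₁ e (x + 1, y) = p10 at *
    generalize potR ω x₀ x₁ y₀ y₁ e (x, y + 1) = p01 at *
    generalize potR ω x₀ x₁ y₀ y₁ e (x + 1, y + 1) = p11 at *
    rcases ev with ⟨h1, h2, h3⟩ | ⟨h1, h2, h3⟩
    · refine ⟨fun _ => ?_, fun h' => by rw [h3] at h'; exact absurd h' (by decide)⟩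
      rw [hb, hr] at h1
      clear hb hl ht hr h2
      revert p00 p10 p11
      decide
    · refine ⟨fun h' => by rw [h3] at h'; exact absurd h' (by decide), fun _ => ?_⟩
      rw [hb, hl] at h1
      clear hb hl ht hr h2
      revert p00 p10 p01
      decide
  rcases h with ⟨ht, (⟨rfl, rfl⟩ | ⟨rfl, rfl⟩)⟩ | ⟨ht, (⟨rfl, rfl⟩ | ⟨rfl, rfl⟩)⟩
  · exact key.1 ht
  · exact (key.1 ht).symm
  · exact key.2 ht
  · exact (key.2 ht).symm

theorem potR_conn {p q : ℤ × ℤ} (h : Conn ω (RF x₀ x₁ y₀ y₁) p q) :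
    potR ω x₀ x₁ y₀ y₁ e p = potR ω x₀ x₁ y₀ y₁ e q := by
  induction h with
  | refl => rfl
  | tail _ hb ih => rw [ih, potR_bond hb]

/-- A pair of matched sides in a face: there are ends `p, p'` and a common end `q`, and `p`, `p'`
are joined by the bond of the face. -/
theorem Mt.ends (h : Mt ω f a a') : ∃ p q p', Joins a p q ∧ Joins a' p' q ∧ Bond ω {f} p p' := by
  obtain ⟨x, y⟩ := f
  unfold Mt at h
  rcases h with ⟨h0, h⟩ | ⟨h0, h⟩
  · rcases h with ⟨rfl, rfl⟩ | ⟨rfl, rfl⟩ | ⟨rfl, rfl⟩ | ⟨rfl, rfl⟩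
    · exact ⟨(x, y), (x + 1, y), (x + 1, y + 1), by simp [Joins, bo, ua, ub],
        by simp [Joins, ri, ua, ub], x, y, rfl, Or.inl ⟨h0, Or.inl ⟨rfl, rfl⟩⟩⟩
    · exact ⟨(x + 1, y + 1), (x + 1, y), (x, y), by simp [Joins, ri, ua, ub],
        by simp [Joins, bo, ua, ub], x, y, rfl, Or.inl ⟨h0, Or.inr ⟨rfl, rfl⟩⟩⟩
    · exact ⟨(x, y), (x, y + 1), (x + 1, y + 1), by simp [Joins, le', ua, ub],
        by simp [Joins, to', ua, ub], x, y, rfl, Or.inl ⟨h0, Or.inl ⟨rfl, rfl⟩⟩⟩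
    · exact ⟨(x + 1, y + 1), (x, y + 1), (x, y), by simp [Joins, to', ua, ub],
        by simp [Joins, le', ua, ub], x, y, rfl, Or.inl ⟨h0, Or.inr ⟨rfl, rfl⟩⟩⟩
  · rcases h with ⟨rfl, rfl⟩ | ⟨rfl, rfl⟩ | ⟨rfl, rfl⟩ | ⟨rfl, rfl⟩
    · exact ⟨(x + 1, y), (x, y), (x, y + 1), by simp [Joins, bo, ua, ub],
        by simp [Joins, le', ua, ub], x, y, rfl, Or.inr ⟨h0, Or.inr ⟨rfl, rfl⟩⟩⟩
    · exact ⟨(x, y + 1), (x, y), (x + 1, y), by simp [Joins, le', ua, ub],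
        by simp [Joins, bo, ua, ub], x, y, rfl, Or.inr ⟨h0, Or.inl ⟨rfl, rfl⟩⟩⟩
    · exact ⟨(x, y + 1), (x + 1, y + 1), (x + 1, y), by simp [Joins, to', ua, ub],
        by simp [Joins, ri, ua, ub], x, y, rfl, Or.inr ⟨h0, Or.inl ⟨rfl, rfl⟩⟩⟩
    · exact ⟨(x + 1, y), (x + 1, y + 1), (x, y + 1), by simp [Joins, ri, ua, ub],
        by simp [Joins, to', ua, ub], x, y, rfl, Or.inr ⟨h0, Or.inr ⟨rfl, rfl⟩⟩⟩

theorem Joins.of_par {p q p' q' : ℤ × ℤ} (h : Joins a p q) (h' : Joins a p' q')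
    (hp : par p = par p') : p = p' ∧ q = q' := by
  have h1 := h.par_ne
  have h2 := h'.par_ne
  rcases h with ⟨rfl, rfl⟩ | ⟨rfl, rfl⟩ <;> rcases h' with ⟨rfl, rfl⟩ | ⟨rfl, rfl⟩
  · exact ⟨rfl, rfl⟩
  · exact absurd hp h1
  · exact absurd hp h1
  · exact ⟨rfl, rfl⟩

/-- The end of parity `c` (mod 2) of every unit edge of the component is joined to the end of `e` of
this parity inside the visited faces. -/
theorem MM_conn (he : Joins e u v) (ha : a ∈ MM ω F e) :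
    ∃ p q, Joins a p q ∧ par p = par u ∧ Conn ω (SS ω F e) u p := by
  induction ha with
  | refl => exact ⟨u, v, he, rfl, Relation.ReflTransGen.refl⟩
  | tail hab hs ih =>
    rename_i b b'
    obtain ⟨p, q, hj, hp, hc⟩ := ih
    obtain ⟨f, hf, hm⟩ := hs
    have hfS : f ∈ SS ω F e := ⟨hf, b, hab, hm.left⟩
    obtain ⟨r, s, r', hr, hr', hb⟩ := hm.ends
    by_cases h : par p = par r
    · obtain ⟨rfl, rfl⟩ := hj.of_par hr h
      exact ⟨r', q, hr', by rw [← hp, hb.par_eq], hc.tail (hb.of_single hfS)⟩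
    · have h1 : par p = par s := by
        have := hr.par_ne
        have h2 := par_cases p
        have h3 := par_cases r
        have h4 := par_cases s
        omega
      obtain ⟨rfl, rfl⟩ := hj.of_par hr.symm h1
      exact ⟨p, r', hr'.symm, hp, hc⟩

/-- The potential at the ends of the unit edges of the component. -/
theorem MM_pot (he : Joins e u v)
    (ha : a ∈ MM ω (RF x₀ x₁ y₀ y₁) e) {p q : ℤ × ℤ} (hj : Joins a p q) (hp : par p = par u) :
    potR ω x₀ x₁ y₀ y₁ e p = potR ω x₀ x₁ y₀ y₁ e u ∧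
      potR ω x₀ x₁ y₀ y₁ e q = potR ω x₀ x₁ y₀ y₁ e v := by
  obtain ⟨p', q', hj', hp', hc⟩ := MM_conn he ha
  obtain ⟨rfl, rfl⟩ := hj.of_par hj' (hp.trans hp'.symm)
  obtain ⟨r, s, hj2, hr, hc2⟩ := MM_conn he.symm ha
  obtain ⟨rfl, rfl⟩ := hj.symm.of_par hj2 (by
    have h1 := hj.par_ne
    have h2 := he.par_ne
    have h3 := par_cases p
    have h4 := par_cases q
    have h5 := par_cases u
    have h6 := par_cases v
    omega)
  exact ⟨(potR_conn (hc.mono SS_sub)).symm, (potR_conn (hc2.mono SS_sub)).symm⟩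

/-- (A2) A corner of a visited face on the side of `u` with the parity of `u` is joined to `u`
inside the visited faces. -/
theorem SS_conn (he : Joins e u v) (hF : InR x₀ x₁ y₀ y₁ u) (hF' : InR x₀ x₁ y₀ y₁ v)
    (hf : f ∈ SS ω (RF x₀ x₁ y₀ y₁) e) {w : ℤ × ℤ} (hw : IsCor f w) (hp : par w = par u)
    (hs : potR ω x₀ x₁ y₀ y₁ e w = potR ω x₀ x₁ y₀ y₁ e u) :
    Conn ω (SS ω (RF x₀ x₁ y₀ y₁) e) u w := by
  obtain ⟨hfF, a, ha, hside⟩ := hf
  obtain ⟨p, q, hj, hpu, hc⟩ := MM_conn he ha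
  have h1 := MM_pot he ha hj hpu
  have hq : IsCor f q := hside.cor_left hj.symm
  obtain ⟨b, hb, hjb⟩ := exists_side hw hq (by rw [hp, ← hpu]; exact hj.par_ne)
  have huv : potR ω x₀ x₁ y₀ y₁ e u ≠ potR ω x₀ x₁ y₀ y₁ e v :=
    (potR_joins he hF hF').1 mem_MM_self
  have hbM : b ∈ MM ω (RF x₀ x₁ y₀ y₁) e :=
    (potR_joins hjb (hw.inR hfF) (hq.inR hfF)).2 (by rw [hs, h1.2]; exact huv)
  obtain ⟨p', q', hj', hp', hc'⟩ := MM_conn he hbM
  obtain ⟨rfl, -⟩ := hjb.of_par hj' (hp.trans hp'.symm)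
  exact hc'

/-- (A2') The ends of a bond in a visited face with the parity of `u` are on the side of `u`, and
they are joined to `u` inside the visited faces. -/
theorem SS_bond (he : Joins e u v) (hF : InR x₀ x₁ y₀ y₁ u) (hF' : InR x₀ x₁ y₀ y₁ v)
    (hf : f ∈ SS ω (RF x₀ x₁ y₀ y₁) e) {p q : ℤ × ℤ} (hb : Bond ω {f} p q)
    (hp : par p = par u) :
    potR ω x₀ x₁ y₀ y₁ e p = potR ω x₀ x₁ y₀ y₁ e u ∧
      Conn ω (SS ω (RF x₀ x₁ y₀ y₁) e) u p := by
  have hfF := hf.1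
  obtain ⟨g, hg, hb', hcp, hcq⟩ := hb.exists_face
  rw [Set.mem_singleton_iff] at hg
  subst hg
  have hpq := potR_bond (e := e) (hb.of_single hfF)
  have huv : potR ω x₀ x₁ y₀ y₁ e u ≠ potR ω x₀ x₁ y₀ y₁ e v :=
    (potR_joins he hF hF').1 mem_MM_self
  obtain ⟨-, a, ha, hside⟩ := hf
  obtain ⟨r, s, hj, hru, hc⟩ := MM_conn he ha
  have h1 := MM_pot he ha hj hru
  -- the corner `r` of the parity of `u` is `p` or `q`
  have hr : IsCor g r := hside.cor_left hj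
  have hrpq : r = p ∨ r = q := by
    obtain ⟨x, y, hxy, h⟩ := hb
    rw [Set.mem_singleton_iff] at hxy
    subst hxy
    obtain ⟨r1, r2⟩ := r
    unfold IsCor at hr
    simp only at hr
    have h2 : par (r1, r2) = par p := hru.trans hp.symm
    unfold par at h2
    rcases h with ⟨-, (⟨rfl, rfl⟩ | ⟨rfl, rfl⟩)⟩ | ⟨-, (⟨rfl, rfl⟩ | ⟨rfl, rfl⟩)⟩ <;>
      simp only [Prod.mk.injEq] at h2 ⊢ <;> omega
  have hpu : potR ω x₀ x₁ y₀ y₁ e p = potR ω x₀ x₁ y₀ y₁ e u := by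
    rcases hrpq with rfl | rfl
    · exact h1.1
    · rw [hpq]; exact h1.1
  exact ⟨hpu, SS_conn he hF hF' ⟨hfF, a, ha, hside⟩ hcp hp hpu⟩

/-- (A3) The component is determined by the configuration in the visited faces. -/
theorem MM_congr (h : ∀ f ∈ SS ω F e, ω f = ω' f) : MM ω' F e = MM ω F e := by
  have hmt : ∀ {f : ℤ × ℤ} {a a' : UE}, ω f = ω' f → Mt ω f a a' → Mt ω' f a a' := by
    intro f a a' hf hm
    unfold Mt at *
    rw [← hf]; exact hm
  apply Set.Subset.antisymm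
  · intro a ha
    change Relation.ReflTransGen _ e a at ha
    induction ha with
    | refl => exact mem_MM_self
    | tail _ hs ih =>
      obtain ⟨f, hf, hm⟩ := hs
      have hS : f ∈ SS ω F e := ⟨hf, _, ih, hm.left⟩
      exact MM_step hf (by
        unfold Mt at *
        rw [h f hS]; exact hm) ih
  · intro a ha
    change Relation.ReflTransGen _ e a at ha
    induction ha with
    | refl => exact mem_MM_self
    | tail hab hs ih =>
      obtain ⟨f, hf, hm⟩ := hs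
      have hS : f ∈ SS ω F e := ⟨hf, _, hab, hm.left⟩
      exact MM_step hf (hmt (h f hS) hm) ih

theorem SS_congr (h : ∀ f ∈ SS ω F e, ω f = ω' f) : SS ω' F e = SS ω F e := by
  unfold SS
  rw [MM_congr h]

theorem potR_congr (h : ∀ f ∈ SS ω (RF x₀ x₁ y₀ y₁) e, ω f = ω' f) :
    potR ω' x₀ x₁ y₀ y₁ e = potR ω x₀ x₁ y₀ y₁ e := by
  unfold potR
  rw [MM_congr h]

/-- Landing lemma: a path in the faces of `G` from `p₀` to `pₙ`; `χ` is the side of `u`, extended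
outside the rectangle, such that it is constant on the faces of `G` outside the rectangle; it is
false at `p₀` and true at `pₙ`. Then `u` is joined inside the visited faces to a vertex which is
joined to `pₙ` in the other faces of `G`. -/
theorem land {G : Set (ℤ × ℤ)} {ξ : Cfg} (he : Joins e u v) (hF : InR x₀ x₁ y₀ y₁ u)
    (hF' : InR x₀ x₁ y₀ y₁ v) (χ : ℤ × ℤ → Prop)
    (hχ : ∀ w, InR x₀ x₁ y₀ y₁ w → (χ w ↔ potR ω x₀ x₁ y₀ y₁ e w = potR ω x₀ x₁ y₀ y₁ e u))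
    (hG : ∀ g ∈ G, g ∉ (RF x₀ x₁ y₀ y₁ : Set (ℤ × ℤ)) → ∀ w w', IsCor g w → IsCor g w' →
      (χ w ↔ χ w'))
    {p₀ pₙ : ℤ × ℤ} (hpar : par pₙ = par u) (hpath : Conn ξ G p₀ pₙ) (h0 : ¬ χ p₀) (hn : χ pₙ) :
    ∃ w, Conn ω (SS ω (RF x₀ x₁ y₀ y₁) e) u w ∧
      Conn ξ (G \ SS ω (RF x₀ x₁ y₀ y₁) e) w pₙ := by
  set S := SS ω (RF x₀ x₁ y₀ y₁ : Set (ℤ × ℤ)) e with hS
  have key : ∀ p, Conn ξ G p pₙ → (χ p ∧ Conn ξ (G \ S) p pₙ) ∨
      ∃ w, Conn ω S u w ∧ Conn ξ (G \ S) w pₙ := by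
    intro p hp
    induction hp using Relation.ReflTransGen.head_induction_on with
    | refl => exact Or.inl ⟨hn, Relation.ReflTransGen.refl⟩
    | head hb hc ih =>
      rename_i p p'
      rcases ih with ⟨h1, h2⟩ | h
      · obtain ⟨g, hg, hbg, hcp, hcp'⟩ := hb.exists_face
        by_cases hgS : g ∈ S
        · right
          have hgF : g ∈ (RF x₀ x₁ y₀ y₁ : Set (ℤ × ℤ)) := SS_sub hgS
          refine ⟨p', SS_conn he hF hF' hgS hcp' ?_ ((hχ p' (hcp'.inR hgF)).1 h1), h2⟩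
          rw [← hpar]; exact h2.par_eq
        · left
          refine ⟨?_, Relation.ReflTransGen.head (hbg.of_single ⟨hg, hgS⟩) h2⟩
          by_cases hgF : g ∈ (RF x₀ x₁ y₀ y₁ : Set (ℤ × ℤ))
          · rw [hχ p (hcp.inR hgF), potR_fresh hgF hgS hcp hcp', ← hχ p' (hcp'.inR hgF)]
            exact h1
          · exact (hG g hg hgF p p' hcp hcp').2 h1
      · exact Or.inr h
  rcases key p₀ hpath with h | h
  · exact absurd h.1 h0
  · exact h

/-- The boundary of the rectangle. -/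
theorem onBd_of_cor {g w : ℤ × ℤ} (hw : IsCor g w) (hR : InR x₀ x₁ y₀ y₁ w)
    (hg : g ∉ (RF x₀ x₁ y₀ y₁ : Set (ℤ × ℤ))) : OnBd x₀ x₁ y₀ y₁ w := by
  rw [mem_RF'] at hg
  unfold IsCor at hw; unfold InR at hR; unfold OnBd
  omega

/-- Close exits: if the boundary vertices on the side of `u` are in `Y`, and `u` is joined in the
faces of `G` to a vertex `z` outside the rectangle in a configuration `ω'` which agrees with `ω` in
the visited faces, then a vertex of `Y` is joined to `z` in the other faces of `G`. -/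
theorem near {G : Set (ℤ × ℤ)} (he : Joins e u v) (hF : InR x₀ x₁ y₀ y₁ u)
    (hF' : InR x₀ x₁ y₀ y₁ v) {Y : Set (ℤ × ℤ)}
    (hY : ∀ w, OnBd x₀ x₁ y₀ y₁ w → potR ω x₀ x₁ y₀ y₁ e w = potR ω x₀ x₁ y₀ y₁ e u →
      par w = par u → w ∈ Y)
    (hω : ∀ f ∈ SS ω (RF x₀ x₁ y₀ y₁) e, ω' f = ω f)
    {z : ℤ × ℤ} (hz : ¬ InR x₀ x₁ y₀ y₁ z) (hpath : Conn ω' G u z) :
    ∃ y ∈ Y, Conn ω' (G \ SS ω (RF x₀ x₁ y₀ y₁) e) y z := by
  set S := SS ω (RF x₀ x₁ y₀ y₁ : Set (ℤ × ℤ)) e with hS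
  have hzu : par z = par u := hpath.par_eq.symm
  have key : ∀ p, Conn ω' G p z → ((InR x₀ x₁ y₀ y₁ p →
      potR ω x₀ x₁ y₀ y₁ e p ≠ potR ω x₀ x₁ y₀ y₁ e u) ∧ Conn ω' (G \ S) p z) ∨
      ∃ y ∈ Y, Conn ω' (G \ S) y z := by
    intro p hp
    induction hp using Relation.ReflTransGen.head_induction_on with
    | refl => exact Or.inl ⟨fun h => absurd h hz, Relation.ReflTransGen.refl⟩
    | head hb hc ih =>
      rename_i p p'
      rcases ih with ⟨h1, h2⟩ | h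
      · obtain ⟨g, hg, hbg, hcp, hcp'⟩ := hb.exists_face
        have hp' : par p' = par u := h2.par_eq.trans hzu
        have hgS : g ∉ S := by
          intro hgS
          have := SS_bond he hF hF' hgS (Bond.congr (hω g hgS) hbg.symm) hp'
          exact h1 (hcp'.inR (SS_sub hgS)) this.1
        have hconn : Conn ω' (G \ S) p z :=
          Relation.ReflTransGen.head (hbg.of_single ⟨hg, hgS⟩) h2
        by_cases hgF : g ∈ (RF x₀ x₁ y₀ y₁ : Set (ℤ × ℤ))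
        · left
          refine ⟨fun _ => ?_, hconn⟩
          rw [potR_fresh hgF hgS hcp hcp']
          exact h1 (hcp'.inR hgF)
        · by_cases hpR : InR x₀ x₁ y₀ y₁ p
          · by_cases hpu : potR ω x₀ x₁ y₀ y₁ e p = potR ω x₀ x₁ y₀ y₁ e u
            · right
              exact ⟨p, hY p (onBd_of_cor hcp hpR hgF) hpu (hconn.par_eq.trans hzu), hconn⟩
            · exact Or.inl ⟨fun _ => hpu, hconn⟩
          · exact Or.inl ⟨fun h => absurd h hpR, hconn⟩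
      · exact Or.inr h
  rcases key u hpath with h | h
  · exact absurd rfl (h.1 hF)
  · exact h

/-- Completeness: if the two ends of `e'` are joined in the rectangle to the two ends of `e`, then
`e'` belongs to the component of `e`. -/
theorem mem_MM_of_conn (he : Joins e u v) (hF : InR x₀ x₁ y₀ y₁ u) (hF' : InR x₀ x₁ y₀ y₁ v)
    {e' : UE} {u' v' : ℤ × ℤ} (he' : Joins e' u' v') (hR : InR x₀ x₁ y₀ y₁ u')
    (hR' : InR x₀ x₁ y₀ y₁ v') (h1 : Conn ω (RF x₀ x₁ y₀ y₁) u u')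
    (h2 : Conn ω (RF x₀ x₁ y₀ y₁) v v') : e' ∈ MM ω (RF x₀ x₁ y₀ y₁) e := by
  rw [potR_joins he' hR hR', ← potR_conn h1, ← potR_conn h2]
  exact (potR_joins he hF hF').1 mem_MM_self

end Pool.Agent.Perc
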