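import Pool.Agent.Lib.MP_6bd702_perc.Planar

/-!
# The component of a unit edge under the matching: definitions

A unit edge of the grid `ℤ × ℤ` joins a vertex of one parity to a vertex of the other parity. Inside
every face the four sides are matched in two pairs by the two arcs which avoid the diagonal of the
face. `MM ω F e` is the component of `e` under this matching in the faces of `F` (the part in `F` of
the interface which crosses `e`), `SS ω F e` is the set of the visited faces, and `pot M` is a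
function on the vertices of a rectangle which changes exactly across the unit edges of `M`.
-/

set_option autoImplicit false

namespace Pool.Agent.Perc

open Finset

/-- A unit edge of the grid: `(x, y, false)` joins `(x, y)` and `(x + 1, y)`, `(x, y, true)` joins
`(x, y)` and `(x, y + 1)`. -/
abbrev UE := ℤ × ℤ × Bool

/-- The left or lower end of a unit edge. -/
def ua (a : UE) : ℤ × ℤ := (a.1, a.2.1)

/-- The right or upper end of a unit edge. -/
def ub (a : UE) : ℤ × ℤ := if a.2.2 then (a.1, a.2.1 + 1) else (a.1 + 1, a.2.1)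

/-- `u` and `v` are the two ends of `e`. -/
def Joins (e : UE) (u v : ℤ × ℤ) : Prop := (u = ua e ∧ v = ub e) ∨ (u = ub e ∧ v = ua e)

/-- The lower side of a face. -/
def bo (f : ℤ × ℤ) : UE := (f.1, f.2, false)
/-- The left side of a face. -/
def le' (f : ℤ × ℤ) : UE := (f.1, f.2, true)
/-- The upper side of a face. -/
def to' (f : ℤ × ℤ) : UE := (f.1, f.2 + 1, false)
/-- The right side of a face. -/
def ri (f : ℤ × ℤ) : UE := (f.1 + 1, f.2, true)

/-- `a` is a side of the face `f`. -/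
def IsSide (f : ℤ × ℤ) (a : UE) : Prop := a = bo f ∨ a = le' f ∨ a = to' f ∨ a = ri f

/-- `w` is a corner of the face `f`. -/
def IsCor (f w : ℤ × ℤ) : Prop := (w.1 = f.1 ∨ w.1 = f.1 + 1) ∧ (w.2 = f.2 ∨ w.2 = f.2 + 1)

/-- `w` is in the rectangle `[x₀, x₁] × [y₀, y₁]`. -/
def InR (x₀ x₁ y₀ y₁ : ℤ) (w : ℤ × ℤ) : Prop := x₀ ≤ w.1 ∧ w.1 ≤ x₁ ∧ y₀ ≤ w.2 ∧ w.2 ≤ y₁

/-- The sides `a` and `a'` of the face `f` are matched. -/
def Mt (ω : Cfg) (f : ℤ × ℤ) (a a' : UE) : Prop :=
  (ω f = true ∧ ((a = bo f ∧ a' = ri f) ∨ (a = ri f ∧ a' = bo f) ∨ (a = le' f ∧ a' = to' f) ∨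
    (a = to' f ∧ a' = le' f))) ∨
  (ω f = false ∧ ((a = bo f ∧ a' = le' f) ∨ (a = le' f ∧ a' = bo f) ∨ (a = to' f ∧ a' = ri f) ∨
    (a = ri f ∧ a' = to' f)))

/-- The component of `e` under the matching in the faces of `F`. -/
def MM (ω : Cfg) (F : Set (ℤ × ℤ)) (e : UE) : Set UE :=
  {a | Relation.ReflTransGen (fun a a' => ∃ f ∈ F, Mt ω f a a') e a}

/-- The faces of `F` which are visited by the component of `e`. -/
def SS (ω : Cfg) (F : Set (ℤ × ℤ)) (e : UE) : Set (ℤ × ℤ) :=
  {f | f ∈ F ∧ ∃ a ∈ MM ω F e, IsSide f a}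

open Classical in
/-- The potential of a set of unit edges on the vertices with `x₀ ≤ w.1` and `y₀ ≤ w.2`. -/
noncomputable def pot (x₀ y₀ : ℤ) (M : Set UE) (w : ℤ × ℤ) : ZMod 2 :=
  (∑ i ∈ Ico x₀ w.1, if ((i, y₀, false) : UE) ∈ M then 1 else 0) +
    ∑ j ∈ Ico y₀ w.2, if ((w.1, j, true) : UE) ∈ M then 1 else 0

/-- The potential of the component of `e` in a rectangle. -/
noncomputable def potR (ω : Cfg) (x₀ x₁ y₀ y₁ : ℤ) (e : UE) : ℤ × ℤ → ZMod 2 :=
  pot x₀ y₀ (MM ω (RF x₀ x₁ y₀ y₁) e)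

end Pool.Agent.Perc
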