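import Pool.Agent.Lib.MP_6bd702_pr_h23.Small

/-!
# Independence of disjoint windows, long crossings
-/

set_option autoImplicit false

namespace Pool.Agent.PercW

open Finset Pool.Agent.MP_6bd702 Pool.Agent.MP_6bd702.H23

/-- Independence of events of disjoint windows. -/
theorem pr_indep {W W1 W2 : Finset Ed} (h : Disjoint W1 W2) {A B : Set (Set Ed)}
    (hA : Loc W1 A) (hB : Loc W2 B) : pr W (A ∩ B) = pr W A * pr W B := by
  classical
  let S : Finset W → Finset W := fun _ => univ.filter fun e => (e : Ed) ∈ W1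
  have hS : IsStop S := fun _ _ _ => rfl
  have hmem : ∀ s (e : W), e ∈ S s ↔ (e : Ed) ∈ W1 := fun s e => by simp [S]
  have h1 : ∀ s t : Finset W, cfg W (mix S s t) ∩ W1 = cfg W s ∩ W1 := by
    intro s t
    ext e
    simp only [Set.mem_inter_iff, mem_cfg, mem_coe]
    constructor
    · rintro ⟨⟨h2, h3⟩, h4⟩
      exact ⟨⟨h2, (mem_mix_of_mem ((hmem s _).2 h4)).1 h3⟩, h4⟩
    · rintro ⟨⟨h2, h3⟩, h4⟩
      exact ⟨⟨h2, (mem_mix_of_mem ((hmem s _).2 h4)).2 h3⟩, h4⟩
  have h2 : ∀ s t : Finset W, cfg W (mix S s t) ∩ W2 = cfg W t ∩ W2 := by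
    intro s t
    ext e
    simp only [Set.mem_inter_iff, mem_cfg, mem_coe]
    constructor
    · rintro ⟨⟨h2, h3⟩, h4⟩
      exact ⟨⟨h2, (mem_mix_of_notMem fun h5 =>
        Finset.disjoint_left.1 h ((hmem s ⟨e, h2⟩).1 h5) h4).1 h3⟩, h4⟩
    · rintro ⟨⟨h2, h3⟩, h4⟩
      exact ⟨⟨h2, (mem_mix_of_notMem fun h5 =>
        Finset.disjoint_left.1 h ((hmem s ⟨e, h2⟩).1 h5) h4).2 h3⟩, h4⟩
  have h3 : ∀ s t : Finset W, cfg W (mix S s t) ∈ A ↔ cfg W s ∈ A := by
    intro s t
    rw [hA, h1, ← hA]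
  have h4 : ∀ s t : Finset W, cfg W (mix S s t) ∈ B ↔ cfg W t ∈ B := by
    intro s t
    rw [hB, h2, ← hB]
  unfold pr Pr
  rw [← Ex_mix S hS]
  have h5 : ∀ s t : Finset W,
      ({s : Finset W | cfg W s ∈ A ∩ B}.indicator (fun _ => (1 : ℝ))) (mix S s t)
      = ({s : Finset W | cfg W s ∈ A}.indicator (fun _ => (1 : ℝ))) s *
        ({s : Finset W | cfg W s ∈ B}.indicator (fun _ => (1 : ℝ))) t := by
    intro s t
    by_cases hs : cfg W s ∈ A <;> by_cases ht : cfg W t ∈ B <;>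
      simp [Set.indicator, h3, h4, hs, ht]
  simp only [h5]
  simp only [Ex_mul_left]
  rw [mul_comm, ← Ex_mul_left]
  exact Ex_congr fun _ => mul_comm _ _

theorem Loc.mono {W W' : Finset Ed} (h : W ⊆ W') {A : Set (Set Ed)} (hA : Loc W A) : Loc W' A := by
  intro ω
  rw [hA ω, hA (ω ∩ W')]
  rw [Set.inter_assoc, Set.inter_eq_self_of_subset_right (show (W : Set Ed) ⊆ W' from h)]

theorem Loc.inter {W : Finset Ed} {A B : Set (Set Ed)} (hA : Loc W A) (hB : Loc W B) :
    Loc W (A ∩ B) := fun ω => and_congr (hA ω) (hB ω)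

theorem Loc.compl {W : Finset Ed} {A : Set (Set Ed)} (hA : Loc W A) : Loc W Aᶜ :=
  fun ω => not_congr (hA ω)

/-- Many independent events. -/
theorem pr_iInter_le {W : Finset Ed} {q : ℝ} (hq : 0 ≤ q) (V : ℕ → Finset Ed) (A : ℕ → Set (Set Ed))
    (hV : ∀ i j, i < j → Disjoint (V i) (V j)) (hA : ∀ i, Loc (V i) (A i)) (k : ℕ)
    (hP : ∀ i < k, pr W (A i) ≤ q) : pr W {ω | ∀ i < k, ω ∈ A i} ≤ q ^ k := by
  classical
  have key : pr W {ω | ∀ i < k, ω ∈ A i} ≤ q ^ k ∧
      Loc ((range k).biUnion V) {ω | ∀ i < k, ω ∈ A i} := by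
    induction k with
    | zero =>
      refine ⟨?_, ?_⟩
      · rw [pow_zero]; exact pr_le_one _ _
      · intro ω; simp
    | succ k ih =>
      obtain ⟨h1, h2⟩ := ih fun i hi => hP i (by omega)
      have h3 : {ω : Set Ed | ∀ i < k + 1, ω ∈ A i} = {ω | ∀ i < k, ω ∈ A i} ∩ A k := by
        ext ω
        simp only [Set.mem_ofPred_eq, Set.mem_inter_iff]
        constructor
        · intro h; exact ⟨fun i hi => h i (by omega), h k (by omega)⟩
        · rintro ⟨h4, h5⟩ i hi
          rcases Nat.lt_succ_iff_lt_or_eq.1 hi with h6 | h6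
          · exact h4 i h6
          · rw [h6]; exact h5
      have h4 : Disjoint ((range k).biUnion V) (V k) := by
        rw [Finset.disjoint_biUnion_left]
        intro i hi
        exact hV i k (mem_range.1 hi)
      rw [h3]
      constructor
      · rw [pr_indep h4 h2 (hA k), pow_succ]
        exact mul_le_mul h1 (hP k (by omega)) (pr_nonneg _ _) (by positivity)
      · refine Loc.inter (Loc.mono ?_ h2) (Loc.mono ?_ (hA k))
        · exact biUnion_subset_biUnion_of_subset_left _ (range_subset_range.2 (by omega))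
        · exact subset_biUnion_of_mem V (by simp)
  exact key.1

end Pool.Agent.PercW
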