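import Pool.Agent.Lib.MP_6bd702_percw.Long

/-!
# Wide connections in the boundary layer are unlikely
-/

set_option autoImplicit false

namespace Pool.Agent.PercW

open Finset Pool.Agent.MP_6bd702 Pool.Agent.MP_6bd702.H23

/-- The vertices of the box `[0, n]²` at distance less than `w` from the boundary. -/
def Lay (n w : ℤ) : Set (ℤ × ℤ) :=
  {v | v ∈ Rect 0 n 0 n ∧ ¬ (w ≤ v.1 ∧ v.1 ≤ n - w ∧ w ≤ v.2 ∧ v.2 ≤ n - w)}

theorem mem_Lay {n w : ℤ} {v : ℤ × ℤ} : v ∈ Lay n w ↔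
    (0 ≤ v.1 ∧ v.1 ≤ n ∧ 0 ≤ v.2 ∧ v.2 ≤ n) ∧
      ¬ (w ≤ v.1 ∧ v.1 ≤ n - w ∧ w ≤ v.2 ∧ v.2 ≤ n - w) := Iff.rfl

theorem step_coord {ω : Set Ed} {R : Set (ℤ × ℤ)} {u v : ℤ × ℤ} (h : Step ω R u v) :
    v.1 ≤ u.1 + 1 ∧ u.1 ≤ v.1 + 1 ∧ v.2 ≤ u.2 + 1 ∧ u.2 ≤ v.2 + 1 := by
  obtain ⟨-, -, ⟨ex, ey, t⟩, -, hh⟩ := h
  cases t
  · simp only [ea_mk, eb_false] at hh
    rcases hh with ⟨h5, h6⟩ | ⟨h5, h6⟩ <;> rw [← h5, ← h6] <;> simp only <;> omega
  · simp only [ea_mk, eb_true] at hh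
    rcases hh with ⟨h5, h6⟩ | ⟨h5, h6⟩ <;> rw [← h5, ← h6] <;> simp only <;> omega

/-- A connection across a vertical strip crosses it. -/
theorem strip_conn {ω : Set Ed} {R : Set (ℤ × ℤ)} {a b : ℤ} (hab : a < b) {u v : ℤ × ℤ}
    (huR : u ∈ R) (hu : u.1 ≤ a) (hv : b ≤ v.1) (h : Conn ω R u v) :
    ∃ y y', (a, y) ∈ R ∧ Conn ω (R ∩ {p | a ≤ p.1 ∧ p.1 ≤ b}) (a, y) (b, y') := by
  have key : v.1 ≤ a ∨ ((a < v.1 ∧ v.1 ≤ b) ∧ ∃ y, (a, y) ∈ R ∧
      Conn ω (R ∩ {p | a ≤ p.1 ∧ p.1 ≤ b}) (a, y) v) ∨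
      ∃ y y', (a, y) ∈ R ∧ Conn ω (R ∩ {p | a ≤ p.1 ∧ p.1 ≤ b}) (a, y) (b, y') := by
    unfold Conn at h
    clear hv
    induction h with
    | refl => exact Or.inl hu
    | @tail w w' hw1 hw2 ih =>
      have hc := step_coord hw2
      obtain ⟨hwR, hwR', e, he, hh⟩ := hw2
      rcases ih with h4 | ⟨h4, y, h5, h6⟩ | h4
      · by_cases h5 : w'.1 ≤ a
        · exact Or.inl h5
        · right; left
          have h7 : w.1 = a := by omega
          have h8 : (a, w.2) = w := Prod.ext h7.symm rfl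
          refine ⟨⟨by omega, by omega⟩, w.2, by rw [h8]; exact hwR, ?_⟩
          rw [h8]
          exact Relation.ReflTransGen.single ⟨⟨hwR, by simp only [Set.mem_ofPred_eq]; omega⟩,
            ⟨hwR', by simp only [Set.mem_ofPred_eq]; omega⟩, e, he, hh⟩
      · by_cases h8 : w'.1 ≤ a
        · exact Or.inl h8
        · by_cases h9 : w.1 = b
          · right; right
            refine ⟨y, w.2, h5, ?_⟩
            have h10 : (b, w.2) = w := Prod.ext h9.symm rfl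
            rw [h10]; exact h6
          · right; left
            refine ⟨⟨by omega, by omega⟩, y, h5, h6.tail ⟨⟨hwR, ?_⟩, ⟨hwR', ?_⟩, e, he, hh⟩⟩
            · simp only [Set.mem_ofPred_eq]; omega
            · simp only [Set.mem_ofPred_eq]; omega
      · exact Or.inr (Or.inr h4)
  rcases key with h4 | ⟨h4, y, h5, h6⟩ | h4
  · omega
  · have : (b, v.2) = v := Prod.ext (by simp only; omega) rfl
    refine ⟨y, v.2, h5, ?_⟩
    rw [this]; exact h6
  · exact h4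

/-- A crossing of a strip in the layer is in the lower or in the upper part. -/
theorem lay_split {ω : Set Ed} {n w a b : ℤ} (hw : 2 * w ≤ n) (ha : w ≤ a)
    (hb : b ≤ n - w) (hab : a ≤ b) {y y' : ℤ} (hy : (a, y) ∈ Lay n w)
    (h : Conn ω (Lay n w ∩ {p | a ≤ p.1 ∧ p.1 ≤ b}) (a, y) (b, y')) :
    HC a b 0 (w - 1) ω ∨ HC a b (n - w + 1) n ω := by
  rw [mem_Lay] at hy
  simp only at hy
  have key : ∀ p, Conn ω (Lay n w ∩ {p | a ≤ p.1 ∧ p.1 ≤ b}) (a, y) p →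
      (y ≤ w - 1 → p.2 ≤ w - 1 ∧ Conn ω (Rect a b 0 (w - 1)) (a, y) p) ∧
      (n - w + 1 ≤ y → n - w + 1 ≤ p.2 ∧ Conn ω (Rect a b (n - w + 1) n) (a, y) p) := by
    intro p hp
    unfold Conn at hp
    induction hp with
    | refl => exact ⟨fun h1 => ⟨h1, .refl⟩, fun h1 => ⟨h1, .refl⟩⟩
    | @tail q p h1 h2 ih =>
      have hc := step_coord h2
      obtain ⟨⟨hq, hq'⟩, ⟨hp, hp'⟩, e, he, hh⟩ := h2
      rw [mem_Lay] at hq hp
      simp only [Set.mem_ofPred_eq] at hq' hp'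
      refine ⟨fun h3 => ?_, fun h3 => ?_⟩
      · obtain ⟨h4, h5⟩ := ih.1 h3
        have h6 : p.2 ≤ w - 1 := by omega
        refine ⟨h6, h5.tail ⟨?_, ?_, e, he, hh⟩⟩
        · rw [mem_Rect]; omega
        · rw [mem_Rect]; omega
      · obtain ⟨h4, h5⟩ := ih.2 h3
        have h6 : n - w + 1 ≤ p.2 := by omega
        refine ⟨h6, h5.tail ⟨?_, ?_, e, he, hh⟩⟩
        · rw [mem_Rect]; omega
        · rw [mem_Rect]; omega
  have h1 := key _ h
  have h0 := h.mem (R := Lay n w ∩ {p | a ≤ p.1 ∧ p.1 ≤ b}) ⟨mem_Lay.2 hy, by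
    simp only [Set.mem_ofPred_eq]; omega⟩
  have h00 := h0.1
  rw [mem_Lay] at h00
  simp only at h00 h1
  rcases le_or_gt y (w - 1) with h2 | h2
  · left
    obtain ⟨h3, h4⟩ := h1.1 h2
    exact ⟨y, y', by omega, h2, by omega, h3, h4⟩
  · right
    obtain ⟨h3, h4⟩ := h1.2 (by omega)
    exact ⟨y, y', by omega, by omega, by omega, by omega, h4⟩

/-- There is a connection of width at least `E` in the layer. -/
def LayX (n w E : ℤ) : Set (Set Ed) :=
  {ω | ∃ u v, u ∈ Lay n w ∧ Conn ω (Lay n w) u v ∧ E ≤ v.1 - u.1}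

/-- There is a connection of height at least `E` in the layer. -/
def LayY (n w E : ℤ) : Set (Set Ed) :=
  {ω | ∃ u v, u ∈ Lay n w ∧ Conn ω (Lay n w) u v ∧ E ≤ v.2 - u.2}

theorem layX_sub {n w l : ℤ} (hw0 : 0 ≤ w) (hl : w ≤ l) (hl0 : 0 < l) (hn : 2 * w ≤ n)
    {ω : Set Ed} (h : ω ∈ LayX n w (4 * l)) :
    ∃ i ∈ range (n.toNat + 1), (w ≤ (i : ℤ) * l ∧ ((i : ℤ) + 1) * l ≤ n - w) ∧
      (HC ((i : ℤ) * l) (((i : ℤ) + 1) * l) 0 (w - 1) ω ∨
        HC ((i : ℤ) * l) (((i : ℤ) + 1) * l) (n - w + 1) n ω) := by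
  obtain ⟨u, v, hu, hc, hE⟩ := h
  have hu' := hu
  have hv' := hc.mem hu
  rw [mem_Lay] at hu' hv'
  have h3 := Int.emod_add_mul_ediv (u.1 + l - 1) l
  have h4 := Int.emod_nonneg (u.1 + l - 1) hl0.ne'
  have h5 := Int.emod_lt_of_pos (u.1 + l - 1) hl0
  set j := (u.1 + l - 1) / l with hj
  have h6 : 0 ≤ j := Int.ediv_nonneg (by omega) hl0.le
  have h7 : (j + 1) * l = l * j + l := by ring
  have h8 : (j + 1 + 1) * l = l * j + l + l := by ring
  have h9 : j + 1 ≤ (j + 1) * l := by nlinarith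
  refine ⟨(j + 1).toNat, ?_, ?_, ?_⟩
  · rw [mem_range]
    omega
  · rw [Int.toNat_of_nonneg (by omega)]
    constructor
    · omega
    · omega
  · rw [Int.toNat_of_nonneg (by omega)]
    obtain ⟨y, y', h10, h11⟩ := strip_conn (a := (j + 1) * l) (b := (j + 1 + 1) * l) (by omega) hu
      (by omega) (by omega) hc
    exact lay_split hn (by omega) (by omega) (by omega) h10 h11

theorem pr_layX_le : ∃ q : ℝ, 0 ≤ q ∧ q < 1 ∧ ∀ (k n : ℕ) (w l : ℤ), 1 ≤ w → w ≤ l →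
    2 * w ≤ n → k * (w + 3) ≤ l + 1 →
    pr (EW 0 n 0 n) (LayX n w (4 * l)) ≤ (n + 1) * (2 * q ^ k) := by
  obtain ⟨q, hq0, hq1, h⟩ := hp_le
  refine ⟨q, hq0, hq1, fun k n w l hw hl hn hk => ?_⟩
  have h1 : ∀ s : Finset ℕ, ∀ A : ℕ → Set (Set Ed), (∀ i ∈ s, pr (EW 0 n 0 n) (A i) ≤ 2 * q ^ k) →
      pr (EW 0 n 0 n) {ω | ∃ i ∈ s, ω ∈ A i} ≤ s.card * (2 * q ^ k) := by
    intro s
    induction s using Finset.induction_on with
    | empty =>
      intro A _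
      simp only [notMem_empty, false_and, exists_false, card_empty, Nat.cast_zero, zero_mul]
      refine le_of_eq ?_
      unfold pr
      change Pr {s | False} = 0
      have : ({s : Finset (EW 0 (n : ℤ) 0 n) | False} : Set _) = ∅ := by ext; simp
      rw [this]
      unfold Pr Ex
      simp
    | insert i s hi ih =>
      intro A hA
      have h2 : {ω : Set Ed | ∃ j ∈ insert i s, ω ∈ A j} ⊆ A i ∪ {ω | ∃ j ∈ s, ω ∈ A j} := by
        rintro ω ⟨j, hj, hω⟩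
        rcases Finset.mem_insert.1 hj with h3 | h3
        · left; rw [← h3]; exact hω
        · right; exact ⟨j, h3, hω⟩
      refine (pr_mono h2).trans ((pr_union_le _ _ _).trans ?_)
      rw [card_insert_of_notMem hi]
      push_cast
      have h3 := hA i (mem_insert_self i s)
      have h4 := ih A fun j hj => hA j (mem_insert_of_mem hj)
      linarith
  refine le_trans (pr_mono (B := {ω | ∃ i ∈ range (n + 1), ω ∈ {ω : Set Ed |
    (w ≤ (i : ℤ) * l ∧ ((i : ℤ) + 1) * l ≤ n - w) ∧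
      (HC ((i : ℤ) * l) (((i : ℤ) + 1) * l) 0 (w - 1) ω ∨
        HC ((i : ℤ) * l) (((i : ℤ) + 1) * l) (n - w + 1) n ω)}}) ?_) ((h1 (range (n + 1)) _ ?_).trans ?_)
  · intro ω hω
    have h2 := layX_sub (by omega) hl (by omega) hn hω
    simpa using h2
  · intro i _
    by_cases hi : w ≤ (i : ℤ) * l ∧ ((i : ℤ) + 1) * l ≤ n - w
    · have e1 : ((i : ℤ) + 1) * l - i * l = l := by ring
      refine le_trans (pr_mono (B := {ω | HC ((i : ℤ) * l) (((i : ℤ) + 1) * l) 0 (w - 1) ω} ∪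
        {ω | HC ((i : ℤ) * l) (((i : ℤ) + 1) * l) (n - w + 1) n ω}) ?_) ((pr_union_le _ _ _).trans ?_)
      · rintro ω ⟨_, h2 | h2⟩
        · exact Or.inl h2
        · exact Or.inr h2
      · rw [pr_hc_window (EW_sub (by omega) (by omega) (by omega) (by omega)),
          pr_hc_window (EW_sub (by omega) (by omega) (by omega) (by omega)), e1]
        have h2 := h k l (w - 1 - 0) (by omega) (by
          rw [show w - 1 - 0 + 4 = w + 3 by ring]; exact hk)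
        have h3 := h k l (n - (n - w + 1)) (by omega) (by
          rw [show (n : ℤ) - (n - w + 1) + 4 = w + 3 by ring]; exact hk)
        linarith
    · have h2 : {ω : Set Ed | (w ≤ (i : ℤ) * l ∧ ((i : ℤ) + 1) * l ≤ n - w) ∧
          (HC ((i : ℤ) * l) (((i : ℤ) + 1) * l) 0 (w - 1) ω ∨
            HC ((i : ℤ) * l) (((i : ℤ) + 1) * l) (n - w + 1) n ω)} ⊆ ∅ := by
        rintro ω ⟨h3, -⟩
        exact hi h3
      refine (pr_mono h2).trans ?_
      have h3 := pr_compl (EW 0 (n : ℤ) 0 n) Set.univ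
      rw [Set.compl_univ, pr_univ] at h3
      rw [h3]
      have : 0 ≤ q ^ k := by positivity
      linarith
  · rw [card_range]
    push_cast
    exact le_rfl

theorem Lay_tr {n w : ℤ} {v : ℤ × ℤ} (h : v ∈ Lay n w) : trL.v v ∈ Lay n w := by
  rw [mem_Lay] at h ⊢
  simp only [trL]
  tauto

/-- The transposition preserves the law. -/
theorem pr_layY_le (n : ℕ) (w E : ℤ) :
    pr (EW 0 n 0 n) (LayY n w E) ≤ pr (EW 0 n 0 n) (LayX n w E) := by
  have h0 : trL.e ⁻¹' (trL.e ⁻¹' (∅ : Set Ed)) = ∅ := by simp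
  refine pr_le_map trL ?_ ?_
  · intro e he
    rw [mem_EW] at he ⊢
    obtain ⟨x, y, t⟩ := e
    cases t <;> simp [mem_Rect, trL] at he ⊢ <;> omega
  · rintro ω ⟨u, v, hu, hc, hE⟩
    refine ⟨trL.v u, trL.v v, Lay_tr hu, ?_, hE⟩
    exact LMap.conn trL (fun w hw => Lay_tr hw) (hc.mono Set.inter_subset_left le_rfl)

end Pool.Agent.PercW
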