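import Pool.Agent.Lib.MP_6bd702_percw.Indep

/-!
# Long rectangles are crossed with exponentially small probability
-/

set_option autoImplicit false

namespace Pool.Agent.PercW

open Finset Pool.Agent.MP_6bd702 Pool.Agent.MP_6bd702.H23

/-- A square is not crossed with probability bounded below. -/
theorem pr_hc_le : ∃ q : ℝ, 0 ≤ q ∧ q < 1 ∧ ∀ a c t : ℤ, 0 ≤ t → ∀ W : Finset Ed,
    pr W {ω | HC a (a + t + 3) c (c + t) ω} ≤ q := by
  obtain ⟨c₀, hc₀, h⟩ := rsw 1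
  have hc1 : c₀ ≤ 1 := (h 1 2 (by norm_num) le_rfl (by norm_num)).trans (pr_le_one _ _)
  refine ⟨1 - c₀, by linarith, by linarith, fun a c t ht W => ?_⟩
  have h1 : c₀ ≤ pr W {ω | du ω ∈ {ω | VC a (a + t + 3 - 1) (c - 1) (c + t) ω}} := by
    refine le_trans ?_ (pr_dual_ge W (VC_loc _ _ _ _) (VC_mono _ _ _ _))
    rw [pr_vc]
    refine h _ _ (by omega) (by omega) ?_
    push_cast
    omega
  have h2 : pr W {ω | HC a (a + t + 3) c (c + t) ω} ≤
      pr W {ω | du ω ∈ {ω | VC a (a + t + 3 - 1) (c - 1) (c + t) ω}}ᶜ :=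
    pr_mono fun ω hω => block' (by omega) (by omega) hω
  rw [pr_compl] at h2
  linarith

/-- Long rectangles. -/
theorem hp_le : ∃ q : ℝ, 0 ≤ q ∧ q < 1 ∧ ∀ (k : ℕ) (w t : ℤ), 0 ≤ t → k * (t + 4) ≤ w + 1 →
    hp w t ≤ q ^ k := by
  obtain ⟨q, hq0, hq1, h⟩ := pr_hc_le
  refine ⟨q, hq0, hq1, fun k w t ht hk => ?_⟩
  unfold hp
  have h1 : ∀ i j : ℕ, i < j → Disjoint (EW (i * (t + 4)) (i * (t + 4) + t + 3) 0 t)
      (EW (j * (t + 4)) (j * (t + 4) + t + 3) 0 t) := by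
    intro i j hij
    rw [Finset.disjoint_left]
    intro e h1 h2
    rw [mem_EW] at h1 h2
    simp only [mem_Rect] at h1 h2
    have h3 : ((i : ℤ) + 1) * (t + 4) ≤ j * (t + 4) :=
      mul_le_mul_of_nonneg_right (by exact_mod_cast hij) (by omega)
    have h4 : ((i : ℤ) + 1) * (t + 4) = i * (t + 4) + (t + 4) := by ring
    omega
  refine le_trans (pr_mono ?_) (pr_iInter_le (W := EW 0 w 0 t) hq0
    (fun i : ℕ => EW (i * (t + 4)) (i * (t + 4) + t + 3) 0 t)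
    (fun i : ℕ => {ω | HC (i * (t + 4)) (i * (t + 4) + t + 3) 0 t ω}) h1
    (fun i => HC_loc _ _ _ _) k (fun i _ => ?_))
  · rintro ω ⟨y, y', h2, h3, h4, h5, h6⟩ i hi
    have h7 : ((i : ℤ) + 1) * (t + 4) ≤ k * (t + 4) :=
      mul_le_mul_of_nonneg_right (by exact_mod_cast hi) (by omega)
    have h8 : ((i : ℤ) + 1) * (t + 4) = i * (t + 4) + (t + 4) := by ring
    have h9 : 0 ≤ (i : ℤ) * (t + 4) := mul_nonneg (Int.natCast_nonneg i) (by omega)
    change HC (i * (t + 4)) (i * (t + 4) + t + 3) 0 t ω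
    exact hc_strip h9 (by omega) (by omega) h9 ⟨le_rfl, by omega, h2, h3⟩ (by omega) h6
  · have h2 := h (i * (t + 4)) 0 t ht (EW 0 w 0 t)
    rw [zero_add] at h2
    exact h2

end Pool.Agent.PercW
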