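import Mathlib

/-!
# Counting (task LowCount): pure mathematics
-/

set_option autoImplicit false

namespace Pool.Agent.PercL

open Finset

/-- The weight of a pair at distance `m`. -/
noncomputable def wt (m : ℤ) : ℝ := if m ≤ 1 then 1 else ((m / 2 : ℤ) : ℝ) ^ (-(1 / 2) : ℝ)

lemma wt_nonneg (m : ℤ) : 0 ≤ wt m := by
  unfold wt
  split_ifs with h
  · exact zero_le_one
  · have : (0 : ℤ) ≤ m / 2 := by omega
    exact Real.rpow_nonneg (by exact_mod_cast this) _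

lemma wt_le_one (m : ℤ) : wt m ≤ 1 := by
  unfold wt
  split_ifs with h
  · exact le_refl 1
  · have h1 : (1 : ℤ) ≤ m / 2 := by omega
    have h2 : (1 : ℝ) ≤ ((m / 2 : ℤ) : ℝ) := by exact_mod_cast h1
    exact Real.rpow_le_one_of_one_le_of_nonpos h2 (by norm_num)

lemma wt_anti {a b : ℤ} (h : a ≤ b) : wt b ≤ wt a := by
  by_cases ha : a ≤ 1
  · have : wt a = 1 := by unfold wt; rw [if_pos ha]
    rw [this]
    exact wt_le_one b
  · have hb : ¬ b ≤ 1 := by omega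
    unfold wt
    rw [if_neg ha, if_neg hb]
    have h1 : (0 : ℤ) < a / 2 := by omega
    have h2 : a / 2 ≤ b / 2 := by omega
    exact Real.rpow_le_rpow_of_nonpos (by exact_mod_cast h1) (by exact_mod_cast h2) (by norm_num)

lemma wt_succ_le (j : ℕ) : wt ((j + 1 : ℕ) : ℤ) ≤ 2 * ((j + 1 : ℕ) : ℝ) ^ (-(1 / 2) : ℝ) := by
  have hj : (0 : ℝ) < ((j + 1 : ℕ) : ℝ) := by positivity
  have h4 : ((((j + 1 : ℕ) : ℝ)) / 4) ^ (-(1 / 2) : ℝ) = 2 * ((j + 1 : ℕ) : ℝ) ^ (-(1 / 2) : ℝ) := by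
    rw [Real.div_rpow hj.le (by norm_num), Real.rpow_neg (by norm_num : (0 : ℝ) ≤ 4),
      ← Real.sqrt_eq_rpow, show (4 : ℝ) = 2 ^ 2 by norm_num, Real.sqrt_sq (by norm_num)]
    field_simp
  rw [← h4]
  by_cases h : ((j + 1 : ℕ) : ℤ) ≤ 1
  · have hj0 : j = 0 := by omega
    subst hj0
    refine (wt_le_one _).trans ?_
    exact Real.one_le_rpow_of_pos_of_le_one_of_nonpos (by norm_num) (by norm_num) (by norm_num)
  · unfold wt
    rw [if_neg h]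
    refine Real.rpow_le_rpow_of_nonpos (by positivity) ?_ (by norm_num)
    have h1 : ((j + 1 : ℕ) : ℤ) ≤ 4 * (((j + 1 : ℕ) : ℤ) / 2) := by omega
    have h2 : ((j + 1 : ℕ) : ℝ) ≤ 4 * (((((j + 1 : ℕ) : ℤ) / 2 : ℤ)) : ℝ) := by exact_mod_cast h1
    linarith

lemma sum_inv_sqrt (s : ℕ) :
    ∑ j ∈ range s, ((j + 1 : ℕ) : ℝ) ^ (-(1 / 2) : ℝ) ≤ 2 * (s : ℝ) ^ (1 / 2 : ℝ) := by
  induction s with
  | zero => simp
  | succ s ih =>
    rw [Finset.sum_range_succ]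
    have hs : (0 : ℝ) < ((s + 1 : ℕ) : ℝ) := by positivity
    have h1 : ((s + 1 : ℕ) : ℝ) ^ (-(1 / 2) : ℝ) = (√((s + 1 : ℕ) : ℝ))⁻¹ := by
      rw [Real.rpow_neg hs.le, ← Real.sqrt_eq_rpow]
    rw [h1, ← Real.sqrt_eq_rpow]
    rw [← Real.sqrt_eq_rpow] at ih
    have h2 : 0 < √((s + 1 : ℕ) : ℝ) := Real.sqrt_pos.2 hs
    have h3 : √((s + 1 : ℕ) : ℝ) ^ 2 = (s : ℝ) + 1 := by
      rw [Real.sq_sqrt hs.le]; push_cast; ring
    have h4 : √(s : ℝ) ^ 2 = (s : ℝ) := Real.sq_sqrt (Nat.cast_nonneg s)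
    have h5 : 0 ≤ √(s : ℝ) := Real.sqrt_nonneg _
    have h6 : (√((s + 1 : ℕ) : ℝ))⁻¹ ≤ 2 * √((s + 1 : ℕ) : ℝ) - 2 * √(s : ℝ) := by
      rw [inv_le_iff_one_le_mul₀ h2]
      nlinarith [sq_nonneg (√((s + 1 : ℕ) : ℝ) - √(s : ℝ))]
    linarith

lemma sum_wt_range (s : ℕ) (hs : 1 ≤ s) :
    ∑ j ∈ range (s + 1), wt (j : ℤ) ≤ 5 * (s : ℝ) ^ (1 / 2 : ℝ) := by
  rw [Finset.sum_range_succ']
  have h1 : ∑ j ∈ range s, wt ((j + 1 : ℕ) : ℤ) ≤
      ∑ j ∈ range s, 2 * ((j + 1 : ℕ) : ℝ) ^ (-(1 / 2) : ℝ) :=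
    Finset.sum_le_sum fun j _ => wt_succ_le j
  rw [← Finset.mul_sum] at h1
  have h2 := sum_inv_sqrt s
  have h3 := wt_le_one ((0 : ℕ) : ℤ)
  have h4 : (1 : ℝ) ≤ (s : ℝ) ^ (1 / 2 : ℝ) :=
    Real.one_le_rpow (by exact_mod_cast hs) (by norm_num)
  calc _ ≤ 2 * (2 * (s : ℝ) ^ (1 / 2 : ℝ)) + (s : ℝ) ^ (1 / 2 : ℝ) :=
        add_le_add (h1.trans (mul_le_mul_of_nonneg_left h2 (by norm_num))) (h3.trans h4)
    _ = 5 * (s : ℝ) ^ (1 / 2 : ℝ) := by ring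

lemma sum_image_le {S : Finset ℤ} {p : ℤ} {s : ℕ}
    (hinj : Set.InjOn (fun q : ℤ => (p - q).natAbs) S) (hS : ∀ q ∈ S, (p - q).natAbs ≤ s) :
    ∑ q ∈ S, wt |p - q| ≤ ∑ j ∈ range (s + 1), wt (j : ℤ) := by
  have h1 : ∑ q ∈ S, wt |p - q| = ∑ q ∈ S, (fun j : ℕ => wt (j : ℤ)) ((p - q).natAbs) :=
    Finset.sum_congr rfl fun q _ => by rw [Int.abs_eq_natAbs]
  rw [h1, ← Finset.sum_image (f := fun j : ℕ => wt (j : ℤ)) hinj]
  refine Finset.sum_le_sum_of_subset_of_nonneg ?_ fun j _ _ => wt_nonneg _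
  intro j hj
  obtain ⟨q, hq, rfl⟩ := Finset.mem_image.1 hj
  exact Finset.mem_range.2 (Nat.lt_succ_of_le (hS q hq))

lemma sum_line (s : ℕ) (hs : 1 ≤ s) (x p : ℤ) (hp : p ∈ Icc x (x + s)) :
    ∑ q ∈ Icc x (x + s), wt |p - q| ≤ 10 * (s : ℝ) ^ (1 / 2 : ℝ) := by
  rw [Finset.mem_Icc] at hp
  have hsplit : Icc x (x + s) = Icc x p ∪ Icc (p + 1) (x + s) := by
    ext q
    simp only [Finset.mem_Icc, Finset.mem_union]
    omega
  have hdis : Disjoint (Icc x p) (Icc (p + 1) (x + (s : ℤ))) := by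
    rw [Finset.disjoint_left]
    intro q hq hq'
    rw [Finset.mem_Icc] at hq hq'
    omega
  rw [hsplit, Finset.sum_union hdis]
  · have h1 : ∑ q ∈ Icc x p, wt |p - q| ≤ ∑ j ∈ range (s + 1), wt (j : ℤ) := by
      refine sum_image_le ?_ ?_
      · intro q hq q' hq' h
        simp only [Finset.coe_Icc, Set.mem_Icc] at hq hq'
        simp only at h
        omega
      · intro q hq
        rw [Finset.mem_Icc] at hq
        omega
    have h2 : ∑ q ∈ Icc (p + 1) (x + s), wt |p - q| ≤ ∑ j ∈ range (s + 1), wt (j : ℤ) := by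
      refine sum_image_le ?_ ?_
      · intro q hq q' hq' h
        simp only [Finset.coe_Icc, Set.mem_Icc] at hq hq'
        simp only at h
        omega
      · intro q hq
        rw [Finset.mem_Icc] at hq
        omega
    have h3 := sum_wt_range s hs
    linarith

/-- Sum over pairs of points of a square of side `s`: for every `p` there are at most `8 (m + 1)`
points at distance `m`, and `∑_{m ≤ s} (m + 1) wt m ≤ C s ^ (3 / 2)`. -/
theorem sum_wt : ∃ C : ℝ, 0 < C ∧ ∀ (s : ℕ) (x y : ℤ), 1 ≤ s →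
    ∑ p ∈ Icc x (x + s) ×ˢ Icc y (y + s), ∑ q ∈ Icc x (x + s) ×ˢ Icc y (y + s),
      wt (max |p.1 - q.1| |p.2 - q.2|) ≤ C * (s : ℝ) ^ (7 / 2 : ℝ) := by
  refine ⟨80, by norm_num, fun s x y hs => ?_⟩
  have hs1 : (1 : ℝ) ≤ s := by exact_mod_cast hs
  have hcard : ∀ z : ℤ, ((Icc z (z + s)).card : ℝ) = s + 1 := by
    intro z
    rw [Int.card_Icc]
    have : (z + s + 1 - z).toNat = s + 1 := by omega
    rw [this]
    push_cast
    rfl
  have hroot : (0 : ℝ) ≤ (s : ℝ) ^ (1 / 2 : ℝ) := by positivity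
  have h1 : ∀ p ∈ Icc x (x + s) ×ˢ Icc y (y + s), ∑ q ∈ Icc x (x + s) ×ˢ Icc y (y + s),
      wt (max |p.1 - q.1| |p.2 - q.2|) ≤ ((s : ℝ) + 1) * (10 * (s : ℝ) ^ (1 / 2 : ℝ)) := by
    intro p hp
    rw [Finset.mem_product] at hp
    calc ∑ q ∈ Icc x (x + s) ×ˢ Icc y (y + s), wt (max |p.1 - q.1| |p.2 - q.2|)
        ≤ ∑ q ∈ Icc x (x + s) ×ˢ Icc y (y + s), wt |p.1 - q.1| :=
          Finset.sum_le_sum fun q _ => wt_anti (le_max_left _ _)
      _ = ∑ q ∈ Icc x (x + s), ∑ q' ∈ Icc y (y + s), wt |p.1 - q| := Finset.sum_product _ _ _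
      _ = ((s : ℝ) + 1) * ∑ q ∈ Icc x (x + s), wt |p.1 - q| := by
          rw [Finset.mul_sum]
          refine Finset.sum_congr rfl fun q _ => ?_
          rw [Finset.sum_const, nsmul_eq_mul, hcard]
      _ ≤ ((s : ℝ) + 1) * (10 * (s : ℝ) ^ (1 / 2 : ℝ)) :=
          mul_le_mul_of_nonneg_left (sum_line s hs x p.1 hp.1) (by positivity)
  refine (Finset.sum_le_sum h1).trans ?_
  rw [Finset.sum_const, nsmul_eq_mul, Finset.card_product, Nat.cast_mul, hcard, hcard]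
  have h2 : (s : ℝ) ^ (7 / 2 : ℝ) = (s : ℝ) ^ 3 * (s : ℝ) ^ (1 / 2 : ℝ) := by
    rw [← Real.rpow_natCast, ← Real.rpow_add (by linarith)]
    norm_num
  rw [h2]
  have h3 : ((s : ℝ) + 1) * (s + 1) * (s + 1) ≤ 8 * (s : ℝ) ^ 3 := by
    have : (s : ℝ) + 1 ≤ 2 * s := by linarith
    calc ((s : ℝ) + 1) * (s + 1) * (s + 1) ≤ (2 * s) * (2 * s) * (2 * s) := by gcongr
      _ = 8 * (s : ℝ) ^ 3 := by ring
  nlinarith [mul_le_mul_of_nonneg_right h3 hroot]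

/-- The number of even points of a square. -/
theorem card_even (s : ℕ) (x y : ℤ) :
    (s : ℝ) ^ 2 / 4 ≤ (((Icc x (x + s) ×ˢ Icc y (y + s)).filter
      fun p => (p.1 + p.2) % 2 = 0).card : ℝ) := by
  have h1 : (s + 1) * ((s + 1) / 2) ≤ ((Icc x (x + s) ×ˢ Icc y (y + s)).filter
      fun p => (p.1 + p.2) % 2 = 0).card := by
    have h2 : (range (s + 1) ×ˢ range ((s + 1) / 2)).card = (s + 1) * ((s + 1) / 2) := by
      rw [Finset.card_product, Finset.card_range, Finset.card_range]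
    rw [← h2]
    refine Finset.card_le_card_of_injOn
      (fun k => (x + k.1, y + (x + k.1 + y) % 2 + 2 * k.2)) ?_ ?_
    · intro k hk
      simp only [Finset.coe_product, Finset.coe_range, Set.mem_prod, Set.mem_Iio] at hk
      simp only [Finset.coe_filter, Finset.mem_product, Finset.mem_Icc, Set.mem_ofPred_eq]
      omega
    · intro k _ k' _ h
      simp only [Prod.mk.injEq] at h
      ext <;> omega
  have h4 : s ≤ 2 * ((s + 1) / 2) := by omega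
  have h5 : s * s ≤ 2 * ((s + 1) * ((s + 1) / 2)) := by nlinarith
  have h6 : ((s * s : ℕ) : ℝ) ≤ ((2 * ((s + 1) * ((s + 1) / 2)) : ℕ) : ℝ) := by exact_mod_cast h5
  have h7 : (((s + 1) * ((s + 1) / 2) : ℕ) : ℝ) ≤ (((Icc x (x + s) ×ˢ Icc y (y + s)).filter
      fun p => (p.1 + p.2) % 2 = 0).card : ℝ) := by exact_mod_cast h1
  push_cast at h6 h7 ⊢
  have h8 : (0 : ℝ) ≤ (s : ℝ) * s := by positivity
  nlinarith

end Pool.Agent.PercL
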