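import Pool.Agent.Lib.MP_6bd702_percw.LowDefs
import Pool.Agent.Lib.MP_6bd702_percu2.Cross

/-!
# Crossings in cross position; colours near a far tip on the west side (task LowCut)

`meet_cross` = `PercT.cross_meet` (done).

`farTip_west_up/down`: as `farTip_up/down` in `TipsB.lean`.
-/

set_option autoImplicit false

namespace Pool.Agent.PercL

open Finset Pool.Agent.Perc

/-- A left-right path of a rectangle and a bottom-top path of a rectangle in cross position meet. -/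
theorem meet_cross {ξ : Cfg} {x₀ x₁ y₀ y₁ x₀' x₁' y₀' y₁' : ℤ} (h1 : x₀ ≤ x₀') (h2 : x₀' < x₁')
    (h3 : x₁' ≤ x₁) (h4 : y₀' ≤ y₀) (h5 : y₀ < y₁) (h6 : y₁ ≤ y₁') {u v u' v' : ℤ × ℤ}
    (hu : u.1 = x₀ ∧ y₀ ≤ u.2 ∧ u.2 ≤ y₁) (hv : v.1 = x₁)
    (hu' : u'.2 = y₀' ∧ x₀' ≤ u'.1 ∧ u'.1 ≤ x₁') (hv' : v'.2 = y₁')
    (hpar : (u.1 + u.2) % 2 = (u'.1 + u'.2) % 2)
    (h : Conn ξ (RF x₀ x₁ y₀ y₁) u v) (h' : Conn ξ (RF x₀' x₁' y₀' y₁') u' v') :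
    ∃ z, Conn ξ (RF x₀ x₁ y₀ y₁) u z ∧ Conn ξ (RF x₀' x₁' y₀' y₁') u' z ∧
      x₀' ≤ z.1 ∧ z.1 ≤ x₁' ∧ y₀ ≤ z.2 ∧ z.2 ≤ y₁ := by
  obtain ⟨w, w1, w2, w3, w4, w5, w6⟩ := PercT.cross_meet h1 h2 h3 h4 h5 h6 hu hv hu' hv' hpar h h'
  exact ⟨w, w5, w6, w1, w2, w3, w4⟩

variable {ω : Cfg} {x₀ x₁ y₀ y₁ : ℤ} {e : UE}

theorem farTip_west_up {ρ h : ℤ} (ht : FarTip ω x₀ x₁ y₀ y₁ e ρ (x₀, h, true)) (hx : x₀ < x₁)
    (h2x : ρ < x₁ - x₀) {w : ℤ × ℤ} (hw : OnBd x₀ x₁ y₀ y₁ w) (hwi : Wi ρ (x₀, h) w)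
    (hup : (w.1 = x₀ ∧ h < w.2) ∨ w.2 = y₁) :
    potR ω x₀ x₁ y₀ y₁ e w = potR ω x₀ x₁ y₀ y₁ e (x₀, h + 1) := by
  obtain ⟨htM, htb, hfar⟩ := ht
  obtain ⟨w1, w2⟩ := w
  have hh : y₀ ≤ h ∧ h < y₁ := by unfold BdE at htb; simp at htb; exact htb
  unfold OnBd at hw
  unfold Wi at hwi
  simp only at hw hwi hup
  have key : ∀ b, h + 1 ≤ b → b ≤ y₁ → b ≤ h + ρ →
      potR ω x₀ x₁ y₀ y₁ e (x₀, h + 1) = potR ω x₀ x₁ y₀ y₁ e (x₀, b) := by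
    intro b h1 h2 h3
    refine seg_v (by omega) (by omega) h1 h2 fun j h4 h5 h6 => ?_
    have h7 := hfar _ h6 (Or.inr ⟨rfl, by simp only; omega, by simp only; omega, Or.inl rfl⟩)
      (by unfold Wi; simp [ua]; omega) (by unfold Wi; simp [ua, ub]; omega)
    simp only [Prod.mk.injEq, true_and, and_true] at h7
    omega
  rcases hup with ⟨rfl, h1⟩ | rfl
  · exact (key w2 (by omega) (by omega) (by omega)).symm
  · rw [key w2 (by omega) (by omega) (by omega)]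
    refine (seg_h (by omega) (by omega) (by omega) (by omega) fun j h4 h5 h6 => ?_).symm
    have h7 := hfar _ h6 (Or.inl ⟨rfl, by simp only; omega, by simp only; omega, Or.inr rfl⟩)
      (by unfold Wi; simp [ua]; omega) (by unfold Wi; simp [ua, ub]; omega)
    simp at h7

theorem farTip_west_down {ρ h : ℤ} (ht : FarTip ω x₀ x₁ y₀ y₁ e ρ (x₀, h, true)) (hx : x₀ < x₁)
    (h2x : ρ < x₁ - x₀) {w : ℤ × ℤ} (hw : OnBd x₀ x₁ y₀ y₁ w) (hwi : Wi ρ (x₀, h) w)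
    (hdown : (w.1 = x₀ ∧ w.2 ≤ h) ∨ w.2 = y₀) (hρ : 1 ≤ ρ) :
    potR ω x₀ x₁ y₀ y₁ e w = potR ω x₀ x₁ y₀ y₁ e (x₀, h) := by
  obtain ⟨htM, htb, hfar⟩ := ht
  obtain ⟨w1, w2⟩ := w
  have hh : y₀ ≤ h ∧ h < y₁ := by unfold BdE at htb; simp at htb; exact htb
  unfold OnBd at hw
  unfold Wi at hwi
  simp only at hw hwi hdown
  have key : ∀ b, b ≤ h → y₀ ≤ b → h - ρ ≤ b →
      potR ω x₀ x₁ y₀ y₁ e (x₀, b) = potR ω x₀ x₁ y₀ y₁ e (x₀, h) := by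
    intro b h1 h2 h3
    refine seg_v (by omega) h2 h1 (by omega) fun j h4 h5 h6 => ?_
    have h7 := hfar _ h6 (Or.inr ⟨rfl, by simp only; omega, by simp only; omega, Or.inl rfl⟩)
      (by unfold Wi; simp [ua]; omega) (by unfold Wi; simp [ua, ub]; omega)
    simp only [Prod.mk.injEq, true_and, and_true] at h7
    omega
  rcases hdown with ⟨rfl, h1⟩ | rfl
  · exact key w2 (by omega) (by omega) (by omega)
  · rw [← key w2 (by omega) (by omega) (by omega)]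
    refine (seg_h (by omega) (by omega) (by omega) (by omega) fun j h4 h5 h6 => ?_).symm
    have h7 := hfar _ h6 (Or.inl ⟨rfl, by simp only; omega, by simp only; omega, Or.inl rfl⟩)
      (by unfold Wi; simp [ua]; omega) (by unfold Wi; simp [ua, ub]; omega)
    simp at h7

end Pool.Agent.PercL
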