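import Pool.Agent.Lib.MP_6bd702_percw.LowLandE
import Pool.Agent.Lib.MP_6bd702_percw.LowLandW
import Pool.Agent.Lib.MP_6bd702_percw.LowBasic

/-!
# The gluing lemma (task LowGlue)

`glue`: take the crossing `(u', v')` of the long vertical tube of parity `a` of `Tubes`; by
`land_east_a` (with `t = h' + 4 r`) `u` is joined in `ω` inside `SS` to a vertex joined in `ξ`, off
`SS`, to `u'`; by `land_west_a` (with `X = x₁ + 4 r`, `s = h + 3 r`) the same for the other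
component; `ω'` agrees with `ω` on the first `SS`, with `ω₁` on the second one (they are disjoint
because the rectangles are) and with `ξ` elsewhere; the zone of `land_east_a` does not meet the second
rectangle (`x₁ + 9 r ≤ X₀`), the zone of `land_west_a` does not meet the first one. The same with
`land_east_b`, `land_west_b` (`t = h' - r`, `X = x₁ + 7 r`, `s = h - 2 r`), applied to `he.symm`.

`success`: `glue` with `x₁ = R`, `G = QF 0 B`, then `mem_MM_of_conn` (`CoreB.lean`).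
-/

set_option autoImplicit false

namespace Pool.Agent.PercL

open Finset Pool.Agent.Perc

/-- Transport of a connection to a configuration which agrees on the faces. -/
theorem conn_agree {ζ Ω : Cfg} {F G : Set (ℤ × ℤ)} {p q : ℤ × ℤ} (h : Conn ζ F p q)
    (hF : F ⊆ G) (hc : ∀ f ∈ F, ζ f = Ω f) : Conn Ω G p q :=
  ((GridA.conn_iff F hc p q).1 h).mono hF

/-- One strand. -/
theorem strand {ω ω₁ ξ : Cfg} {E E' Z₁ Z₂ G : Set (ℤ × ℤ)} {u w c w' u' : ℤ × ℤ}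
    (h1 : Conn ω E u w) (h2 : Conn ξ (Z₁ \ E) w c) (h3 : Conn ω₁ E' u' w')
    (h4 : Conn ξ (Z₂ \ E') w' c) (hd : ∀ f ∈ E', f ∉ E) (hd1 : ∀ f ∈ Z₁, f ∉ E')
    (hd2 : ∀ f ∈ Z₂, f ∉ E) (hE : E ⊆ G) (hE' : E' ⊆ G) (hZ₁ : Z₁ ⊆ G) (hZ₂ : Z₂ ⊆ G) :
    Conn (mixC E ω (mixC E' ω₁ ξ)) G u u' := by
  have c1 : Conn (mixC E ω (mixC E' ω₁ ξ)) G u w :=
    conn_agree h1 hE fun f hf => by rw [mixC, if_pos hf]
  have c2 : Conn (mixC E ω (mixC E' ω₁ ξ)) G w c :=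
    conn_agree h2 (Set.sdiff_subset.trans hZ₁) fun f hf => by
      rw [mixC, if_neg hf.2, mixC, if_neg (hd1 f hf.1)]
  have c3 : Conn (mixC E ω (mixC E' ω₁ ξ)) G u' w' :=
    conn_agree h3 hE' fun f hf => by rw [mixC, if_neg (hd f hf), mixC, if_pos hf]
  have c4 : Conn (mixC E ω (mixC E' ω₁ ξ)) G w' c :=
    conn_agree h4 (Set.sdiff_subset.trans hZ₂) fun f hf => by
      rw [mixC, if_neg (hd2 f hf.1), mixC, if_neg hf.2]
  exact (c1.trans c2).trans (c4.symm.trans c3.symm)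

theorem glue {a : ℤ} {ω ω₁ ξ : Cfg} {x₀ x₁ y₀ y₁ X₀ X₁ Y₀ Y₁ : ℤ} {e e' : UE} {u v u' v' : ℤ × ℤ}
    (he : Joins e u v) (he' : Joins e' u' v') (hu : InR x₀ x₁ y₀ y₁ u) (hv : InR x₀ x₁ y₀ y₁ v)
    (hu' : InR X₀ X₁ Y₀ Y₁ u') (hv' : InR X₀ X₁ Y₀ Y₁ v') {h h' r : ℤ} (hr : 1 ≤ r)
    (hx : x₀ + 8 * r < x₁) (hy : y₀ + 8 * r < y₁) (hX : X₀ + 8 * r < X₁) (hY : Y₀ + 8 * r < Y₁)
    (hfar : FarTip ω x₀ x₁ y₀ y₁ e (4 * r) (x₁, h, true))
    (hfar' : FarTip ω₁ X₀ X₁ Y₀ Y₁ e' (4 * r) (X₀, h', true))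
    (hpar : par (x₁, h + 1) = par u) (hpar' : par (X₀, h' + 1) = par u')
    (ha : (u.1 + u.2 - a) % 2 = 0) (ha' : (u'.1 + u'.2 - a) % 2 = 0)
    (hxX : x₁ + 9 * r ≤ X₀) (hh : h ≤ h') (hT : ξ ∈ Tubes a x₁ h X₀ h' r) {G : Set (ℤ × ℤ)}
    (hG1 : (RF x₀ x₁ y₀ y₁ : Set (ℤ × ℤ)) ⊆ G) (hG2 : (RF X₀ X₁ Y₀ Y₁ : Set (ℤ × ℤ)) ⊆ G)
    (hG3 : (RF (x₁ - 4 * r) (X₀ + 4 * r) (h - 4 * r) (h' + 4 * r) : Set (ℤ × ℤ)) ⊆ G) :
    Conn (mixC (SS ω (RF x₀ x₁ y₀ y₁) e) ω (mixC (SS ω₁ (RF X₀ X₁ Y₀ Y₁) e') ω₁ ξ)) G u u' ∧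
    Conn (mixC (SS ω (RF x₀ x₁ y₀ y₁) e) ω (mixC (SS ω₁ (RF X₀ X₁ Y₀ Y₁) e') ω₁ ξ)) G v v' := by
  obtain ⟨⟨t1, t2, t3, t4, t5, t6, t7⟩, s1, s2, s3, s4, s5, s6, s7⟩ := hT
  set E := SS ω (RF x₀ x₁ y₀ y₁ : Set (ℤ × ℤ)) e with hE
  set E' := SS ω₁ (RF X₀ X₁ Y₀ Y₁ : Set (ℤ × ℤ)) e' with hE'
  have hES : E ⊆ (RF x₀ x₁ y₀ y₁ : Set (ℤ × ℤ)) := fun f hf => hf.1
  have hES' : E' ⊆ (RF X₀ X₁ Y₀ Y₁ : Set (ℤ × ℤ)) := fun f hf => hf.1
  have hd : ∀ f ∈ E', f ∉ E := fun f hf hf' => by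
    have h1 := mem_RF'.1 (hES hf')
    have h2 := mem_RF'.1 (hES' hf)
    omega
  have hpv : par v ≠ par u := he.par_ne.symm
  have hpv' : par v' ≠ par u' := he'.par_ne.symm
  constructor
  · obtain ⟨p, q, p1, p2, p3, p4, p5, p6⟩ := t4
    obtain ⟨w, w1, w2⟩ := land_east_a (t := h' + 4 * r) he hu hv hr hx hy hfar hpar ha (by omega)
      t1 t2 t3 ⟨p1, p2, p3⟩ p4 p5 p6
    obtain ⟨w', w3, w4⟩ := land_west_a (X := x₁ + 4 * r) (s := h + 3 * r) he' hu' hv' hr hX hY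
      hfar' hpar' ha' (by omega) (by omega) t5 t6 t7 ⟨p1, p2, by omega⟩ p4 p5
      (by rwa [show x₁ + 4 * r + r = x₁ + 5 * r by ring])
    refine strand w1 w2 w3 w4 hd ?_ ?_ (hES.trans hG1) (hES'.trans hG2) ?_ ?_
    · intro f hf hf'
      have h1 := mem_RF'.1 hf
      have h2 := mem_RF'.1 (hES' hf')
      omega
    · intro f hf hf'
      have h1 := mem_RF'.1 hf
      have h2 := mem_RF'.1 (hES hf')
      omega
    · intro f hf
      refine hG3 ?_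
      rw [mem_RF'] at hf ⊢
      omega
    · intro f hf
      refine hG3 ?_
      rw [mem_RF'] at hf ⊢
      omega
  · obtain ⟨p, q, p1, p2, p3, p4, p5, p6⟩ := s4
    obtain ⟨w, w1, w2⟩ := land_east_b (b := a + 1) (t := h' - r) he.symm hv hu hr hx hy hfar
      (by unfold par at *; simp only at *; omega) (by unfold par at *; simp only at *; omega)
      (by omega) s1 s2 s3 ⟨p1, p2, p3⟩ p4 p5 p6
    obtain ⟨w', w3, w4⟩ := land_west_b (b := a + 1) (X := x₁ + 7 * r) (s := h - 2 * r) he'.symm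
      hv' hu' hr hX hY hfar' (by unfold par at *; simp only at *; omega)
      (by unfold par at *; simp only at *; omega) (by omega) (by omega) s5 s6 s7
      ⟨p1, p2, by omega⟩ p4 p5 (by rwa [show x₁ + 7 * r + r = x₁ + 8 * r by ring])
    refine strand w1 w2 w3 w4 hd ?_ ?_ (hES.trans hG1) (hES'.trans hG2) ?_ ?_
    · intro f hf hf'
      have h1 := mem_RF'.1 hf
      have h2 := mem_RF'.1 (hES' hf')
      omega
    · intro f hf hf'
      have h1 := mem_RF'.1 hf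
      have h2 := mem_RF'.1 (hES hf')
      omega
    · intro f hf
      refine hG3 ?_
      rw [mem_RF'] at hf ⊢
      omega
    · intro f hf
      refine hG3 ?_
      rw [mem_RF'] at hf ⊢
      omega

/-- The end of `ue p d` of a given parity. -/
theorem exists_end {p : ℤ × ℤ} {R b : ℤ} (d : Fin 4) (hR : 1 ≤ R) :
    ∃ u v, Joins (ue p d) u v ∧ (u.1 + u.2 - b) % 2 = 0 ∧
      InR (p.1 - R) (p.1 + R) (p.2 - R) (p.2 + R) u ∧
      InR (p.1 - R) (p.1 + R) (p.2 - R) (p.2 + R) v := by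
  have h1 := ue_joins p d
  have h2 := par_nb p d
  have h3 := inR_center (p := p) (d := d) hR
  by_cases hb : (p.1 + p.2 - b) % 2 = 0
  · exact ⟨p, nb p d, h1, hb, h3.1, h3.2⟩
  · refine ⟨nb p d, p, h1.symm, ?_, h3.2, h3.1⟩
    unfold par at h2
    omega

theorem success {a : ℤ} {ω ω₁ ξ : Cfg} {R s r B h h' : ℤ} {d d' : Fin 4} {p : ℤ × ℤ}
    (hp : (p.1 + p.2) % 2 = 0) (hr : 1 ≤ r) (hR : 4 * r < R) (hs : 4 * r < s)
    (hfar : FT ω (0, 0) d R (4 * r) (R, h, true)) (ha : (R + (h + 1) - a) % 2 = 0)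
    (hfar' : FT ω₁ p d' s (4 * r) (p.1 - s, h', true)) (ha' : (p.1 - s + (h' + 1) - a) % 2 = 0)
    (h1 : R + 9 * r ≤ p.1 - s) (h2 : h ≤ p.2 - s) (h3 : p.1 + s + 4 * r ≤ B)
    (h4 : p.2 + s + 4 * r ≤ B) (h5 : R + 4 * r ≤ B) (hT : ξ ∈ Tubes a R h (p.1 - s) h' r) :
    ue p d' ∈ MM (mixC (SQ ω (0, 0) d R) ω (mixC (SQ ω₁ p d' s) ω₁ ξ)) (QF (0, 0) B)
      (ue (0, 0) d) := by
  obtain ⟨u, v, j1, j2, j3, j4⟩ := exists_end (p := (0, 0)) (b := a) (R := R) d (by omega)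
  obtain ⟨u', v', k1, k2, k3, k4⟩ := exists_end (p := p) (b := a) (R := s) d' (by omega)
  simp only [zero_sub, zero_add] at j3 j4
  have hfarR : FarTip ω (-R) R (-R) R (ue (0, 0) d) (4 * r) (R, h, true) := by
    have := hfar
    unfold FT at this
    simpa only [zero_sub, zero_add] using this
  have hbd := hfarR.2.1
  have hbd' := hfar'.2.1
  have hh1 : -R ≤ h ∧ h < R := by
    unfold BdE at hbd
    simp only [Bool.true_eq_false, false_and, true_and, false_or] at hbd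
    omega
  have hh2 : p.2 - s ≤ h' ∧ h' < p.2 + s := by
    unfold BdE at hbd'
    simp only [Bool.true_eq_false, false_and, true_and, false_or] at hbd'
    omega
  have hg := glue (G := (QF (0, 0) B : Set (ℤ × ℤ))) j1 k1 j3 j4 k3 k4 hr (by omega) (by omega)
    (by omega) (by omega) hfarR hfar'
    (by unfold par; simp only; omega) (by unfold par; simp only; omega) j2 k2 h1 (by omega) hT
    (by intro f hf; unfold QF; rw [mem_RF'] at hf ⊢; simp only [zero_sub, zero_add]; omega)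
    (by intro f hf; unfold QF; rw [mem_RF'] at hf ⊢; simp only [zero_sub, zero_add]; omega)
    (by intro f hf; unfold QF; rw [mem_RF'] at hf ⊢; simp only [zero_sub, zero_add]; omega)
  have e1 : SQ ω (0, 0) d R = SS ω (RF (-R) R (-R) R) (ue (0, 0) d) := by
    unfold SQ QF; simp only [zero_sub, zero_add]
  have e2 : SQ ω₁ p d' s = SS ω₁ (RF (p.1 - s) (p.1 + s) (p.2 - s) (p.2 + s)) (ue p d') := rfl
  rw [← e1, ← e2] at hg
  have hBu : ∀ w, InR (-R) R (-R) R w → InR (0 - B) (0 + B) (0 - B) (0 + B) w := by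
    intro w hw; unfold InR at *; omega
  have hBu' : ∀ w, InR (p.1 - s) (p.1 + s) (p.2 - s) (p.2 + s) w →
      InR (0 - B) (0 + B) (0 - B) (0 + B) w := by
    intro w hw; unfold InR at *; omega
  exact mem_MM_of_conn j1 (hBu _ j3) (hBu _ j4) k1 (hBu' _ k3) (hBu' _ k4) hg.1 hg.2

end Pool.Agent.PercL
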