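import Pool.Agent.Lib.MP_6bd702_percw.LowSym

/-!
# Two visited unit edges (task LowTwo)

If `ue p d₁` and `ue q d₂` are in the component of `ue 0 d` then by `arms_of_MM` (with the square
`QF p k`, where the mixed configuration is `ξ`) both have two arms of length `k` in `ξ`; the squares
`QF p k` and `QF q k` are disjoint because the distance of `p` and `q` is at least `2 k`:
`pr_inter_of_disjoint`, `pr_eq_of_depOn`, `pr_TA`.
-/

set_option autoImplicit false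

namespace Pool.Agent.PercL

open Finset Pool.Agent.Perc

/-- The event that `ue p d'` is visited. -/
def Vis (ω : Cfg) (d : Fin 4) (R B : ℤ) (p : ℤ × ℤ) (d' : Fin 4) : Set Cfg :=
  {ξ | ue p d' ∈ MM (mixC (SQ ω (0, 0) d R) ω ξ) (QF (0, 0) B) (ue (0, 0) d)}

namespace LowTwo

theorem mem_QF {p f : ℤ × ℤ} {R : ℤ} :
    f ∈ QF p R ↔ (p.1 - R ≤ f.1 ∧ f.1 < p.1 + R) ∧ p.2 - R ≤ f.2 ∧ f.2 < p.2 + R := by
  unfold QF RF
  rw [mem_product, mem_Ico, mem_Ico]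

/-- A visited unit edge has two arms. -/
theorem arms_of_vis (ω : Cfg) {d d₁ : Fin 4} {R B : ℤ} {p : ℤ × ℤ} {k : ℕ} (hk : 1 ≤ k)
    (hp : (p.1 + p.2) % 2 = 0) (h1 : R + k + 1 ≤ p.1) (hR : 1 ≤ R)
    {ξ : Cfg} (h : ξ ∈ Vis ω d R B p d₁) : ξ ∈ TA p d₁ k := by
  refine arms_of_MM (p := ((0, 0) : ℤ × ℤ)) (q := p) (ρ := (k : ℤ)) (F := (QF (0, 0) B : Set (ℤ × ℤ)))
    (d := d) (ω := mixC (SQ ω (0, 0) d R) ω ξ) ?_ h (by exact_mod_cast hk) ?_ ?_
  · unfold par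
    simpa using hp
  · rintro ⟨h2, -⟩
    have h3 := (abs_lt.1 h2).1
    simp only [zero_sub] at h3
    omega
  · intro f hf
    have hf1 := (mem_QF.1 hf).1.1
    unfold mixC
    rw [if_neg]
    intro hS
    have hS1 : f ∈ QF (0, 0) R := by exact_mod_cast hS.1
    have h4 := (mem_QF.1 hS1).1.2
    simp only [zero_add] at h4
    omega

end LowTwo

open LowTwo

theorem two_point (ω : Cfg) {d d₁ d₂ : Fin 4} {R B : ℤ} {p q : ℤ × ℤ} {k : ℕ} (hk : 1 ≤ k)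
    (hp : (p.1 + p.2) % 2 = 0) (hq : (q.1 + q.2) % 2 = 0) (hR : 1 ≤ R)
    (h1 : R + k + 1 ≤ p.1) (h2 : R + k + 1 ≤ q.1) (h3 : p.1 + k ≤ B) (h4 : q.1 + k ≤ B)
    (h5 : |p.2| + k ≤ B) (h6 : |q.2| + k ≤ B)
    (hpq : 2 * (k : ℤ) ≤ max |p.1 - q.1| |p.2 - q.2|) :
    pr (QF (0, 0) B) (Vis ω d R B p d₁ ∩ Vis ω d R B q d₂) ≤ p2 k ^ 2 := by
  have hmono : pr (QF (0, 0) B) (Vis ω d R B p d₁ ∩ Vis ω d R B q d₂) ≤
      pr (QF (0, 0) B) (TA p d₁ k ∩ TA q d₂ k) := by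
    refine pr_mono _ ?_
    rintro ξ ⟨e1, e2⟩
    exact ⟨arms_of_vis ω hk hp h1 hR e1, arms_of_vis ω hk hq h2 hR e2⟩
  refine hmono.trans (le_of_eq ?_)
  have hA : DepOn (QF p k : Set (ℤ × ℤ)) (TA p d₁ k) := depOn_TA
  have hB : DepOn (QF q k : Set (ℤ × ℤ)) (TA q d₂ k) := depOn_TA
  have hd : Disjoint (QF p k) (QF q k) := by
    rw [Finset.disjoint_left]
    intro f hf1 hf2
    have e1 := mem_QF.1 hf1
    have e2 := mem_QF.1 hf2
    rcases le_max_iff.1 hpq with h7 | h7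
    · rcases le_abs.1 h7 with h8 | h8 <;> omega
    · rcases le_abs.1 h7 with h8 | h8 <;> omega
  have hsub : QF p k ∪ QF q k ⊆ QF (0, 0) B := by
    have a1 := abs_le.1 (le_refl |p.2|)
    have a2 := abs_le.1 (le_refl |q.2|)
    intro f hf
    rw [mem_QF]
    simp only [zero_sub, zero_add]
    rcases mem_union.1 hf with hf | hf
    · have e1 := mem_QF.1 hf
      omega
    · have e1 := mem_QF.1 hf
      omega
  have hAB : DepOn ((QF p k ∪ QF q k : Finset (ℤ × ℤ)) : Set (ℤ × ℤ)) (TA p d₁ k ∩ TA q d₂ k) := by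
    intro ω₁ ω₂ h
    have i1 := hA ω₁ ω₂ fun f hf => h f (by
      rw [Finset.coe_union]
      exact Or.inl hf)
    have i2 := hB ω₁ ω₂ fun f hf => h f (by
      rw [Finset.coe_union]
      exact Or.inr hf)
    exact and_congr i1 i2
  rw [pr_eq_of_depOn hAB hsub, pr_inter_of_disjoint hA hB hd, pr_TA (le_refl _),
    pr_TA (le_refl _), sq]

end Pool.Agent.PercL
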