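import Pool.Agent.Lib.MP_6bd702_percw.LowVisit
import Pool.Agent.Lib.MP_6bd702_percw.LowFar
import Pool.Agent.Lib.MP_6bd702_percw.LowCount
import Pool.Agent.Lib.MP_6bd702_percw.LowTwo
import Pool.Agent.Lib.MP_6bd702_percw.LowMix

/-!
# First and second moment, Paley-Zygmund (task LowMoment)

`s = M r`, `B = R + 8 M r`, `Dset` = even points of the square
`[R + 2 s, R + 3 s] × [h + 2 s, h + 3 s]`.

first: `visit_ge (K = 5 M)` with `a = R + h + 1`, `pr_WestT`, `far_le_west` (`ρ = 4 r`), `FarBd`,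
`card_even`: `∑ ≥ (s ^ 2 / 4) * cV * (c / 2) * r ^ (-1/4)`.
second: `two_point` with `k = m / 2`, `m = max |p.1 - q.1| |p.2 - q.2| ≥ 2` (probability `≤ 1` if
`m ≤ 1`), `p2 k ≤ C k ^ (-1/4)`, so `p2 k ^ 2 ≤ C ^ 2 wt m`; `sum_wt`.
moment_east: `paley_zygmund` for the family of the pairs `(p, d')`; `(p, d') ↦ ue p d'` is injective
for even `p`, so the number of visited pairs is at most `ncard` (`MM_finite`).
-/

set_option autoImplicit false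

namespace Pool.Agent.PercL

open Finset Pool.Agent.Perc

/-- The even points of the remote square. -/
noncomputable def Dset (R h s : ℤ) : Finset (ℤ × ℤ) :=
  (Icc (R + 2 * s) (R + 3 * s) ×ˢ Icc (h + 2 * s) (h + 3 * s)).filter fun p => (p.1 + p.2) % 2 = 0

theorem mem_Dset {R h s : ℤ} {p : ℤ × ℤ} : p ∈ Dset R h s ↔
    ((R + 2 * s ≤ p.1 ∧ p.1 ≤ R + 3 * s) ∧ h + 2 * s ≤ p.2 ∧ p.2 ≤ h + 3 * s) ∧
      (p.1 + p.2) % 2 = 0 := by
  unfold Dset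
  rw [mem_filter, mem_product, mem_Icc, mem_Icc]

/-- The height of a far tip on the east side. -/
theorem FT_height {ω : Cfg} {r R h : ℤ} {d : Fin 4}
    (h1 : FT ω (0, 0) d R r (R, h, true)) : -R ≤ h ∧ h < R := by
  obtain ⟨-, h2, -⟩ := h1
  rcases h2 with ⟨h3, -⟩ | ⟨-, h3, h4, -⟩
  · simp at h3
  · simp only at h3 h4
    omega

theorem QF_subset {p : ℤ × ℤ} {s B : ℤ} (h1 : -B ≤ p.1 - s) (h2 : p.1 + s ≤ B)
    (h3 : -B ≤ p.2 - s) (h4 : p.2 + s ≤ B) : QF p s ⊆ QF (0, 0) B := by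
  intro f hf
  unfold QF at hf ⊢
  rw [mem_RFi] at hf ⊢
  simp only
  omega

/-- One point of the remote square. -/
theorem first_point {M : ℕ} (hM : 12 ≤ M) {c : ℝ} (hF : FarBd M c) :
    ∃ c₁ : ℝ, 0 < c₁ ∧ ∀ (ω : Cfg) (r R h : ℤ) (d : Fin 4), 1 ≤ r → M * r ≤ R →
      FT ω (0, 0) d R (4 * r) (R, h, true) → ∀ p ∈ Dset R h (M * r),
        c₁ * (c / 2 * (r : ℝ) ^ (-(1 / 4) : ℝ)) ≤ ∑ d' : Fin 4,
          pr (QF (0, 0) (R + 8 * (M * r))) (Vis ω d R (R + 8 * (M * r)) p d') := by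
  obtain ⟨c₁, hc₁, hV⟩ := visit_ge (5 * M)
  refine ⟨c₁, hc₁, fun ω r R h d hr hMR hFT p hp => ?_⟩
  have hM' : (12 : ℤ) ≤ M := by exact_mod_cast hM
  have hs : 12 * r ≤ M * r := by nlinarith
  obtain ⟨hh1, hh2⟩ := FT_height hFT
  rw [mem_Dset] at hp
  obtain ⟨⟨⟨p1, p2⟩, p3, p4⟩, p5⟩ := hp
  have hK : ((5 * M : ℕ) : ℤ) * r = 5 * (M * r) := by push_cast; ring
  generalize hsd : (M : ℤ) * r = s at *
  have h1 : ∀ d' : Fin 4, c₁ * pr (QF (0, 0) s) (WestT (R + (h + 1)) (0, 0) d' s (4 * r)) ≤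
      pr (QF (0, 0) (R + 8 * s)) (Vis ω d R (R + 8 * s) p d') := by
    intro d'
    have h2 := hV ω (R + (h + 1)) r s R h (R + 8 * s) d d' p p5 hr (by omega) (by omega) hFT
      (by simp) (by omega) (by rw [hK]; omega) (by omega) (by rw [hK]; omega) (by omega)
      (by omega) (by omega)
    rwa [pr_WestT p5 (QF_subset (by omega) (by omega) (by omega) (by omega))] at h2
  have h3 := far_le_west (a := R + (h + 1)) (R := s) (ρ := 4 * r) (by omega) (by omega)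
  have h4 := hF r hr
  rw [hsd] at h4
  calc c₁ * (c / 2 * (r : ℝ) ^ (-(1 / 4) : ℝ))
      ≤ c₁ * ∑ d' : Fin 4, pr (QF (0, 0) s) (WestT (R + (h + 1)) (0, 0) d' s (4 * r)) := by
        apply mul_le_mul_of_nonneg_left _ hc₁.le
        linarith
    _ = ∑ d' : Fin 4, c₁ * pr (QF (0, 0) s) (WestT (R + (h + 1)) (0, 0) d' s (4 * r)) := by
        rw [mul_sum]
    _ ≤ _ := sum_le_sum fun d' _ => h1 d'

theorem rpow_two_sub {r : ℝ} (hr : 1 ≤ r) : r ^ (7 / 4 : ℝ) = r ^ 2 * r ^ (-(1 / 4) : ℝ) := by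
  rw [← Real.rpow_natCast, ← Real.rpow_add (by linarith)]
  norm_num

theorem first_moment {M : ℕ} (hM : 12 ≤ M) {c : ℝ} (hc : 0 < c) (hF : FarBd M c) :
    ∃ c₁ : ℝ, 0 < c₁ ∧ ∀ (ω : Cfg) (r R h : ℤ) (d : Fin 4), 1 ≤ r → M * r ≤ R →
      FT ω (0, 0) d R (4 * r) (R, h, true) →
        c₁ * (r : ℝ) ^ (7 / 4 : ℝ) ≤ ∑ i ∈ Dset R h (M * r) ×ˢ (univ : Finset (Fin 4)),
          pr (QF (0, 0) (R + 8 * (M * r))) (Vis ω d R (R + 8 * (M * r)) i.1 i.2) := by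
  obtain ⟨c₁, hc₁, h1⟩ := first_point hM hF
  refine ⟨c₁ * (c / 8), by positivity, fun ω r R h d hr hMR hFT => ?_⟩
  have h2 := h1 ω r R h d hr hMR hFT
  rw [sum_product]
  have h3 := sum_le_sum h2
  rw [sum_const, nsmul_eq_mul] at h3
  refine le_trans ?_ h3
  -- the number of points
  obtain ⟨k, rfl⟩ := Int.eq_ofNat_of_zero_le (by omega : (0 : ℤ) ≤ r)
  have h4 := card_even (M * k) (R + 2 * (M * k)) (h + 2 * (M * k))
  have h5 : (Dset R h (M * (k : ℤ))).card = ((Icc (R + 2 * (M * k)) (R + 2 * (M * k) +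
      ((M * k : ℕ) : ℤ)) ×ˢ Icc (h + 2 * (M * k)) (h + 2 * (M * k) + ((M * k : ℕ) : ℤ))).filter
      fun p => (p.1 + p.2) % 2 = 0).card := by
    unfold Dset
    congr 3
    · congr 1
      push_cast
      ring
    · congr 1
      push_cast
      ring
  rw [← h5] at h4
  have hk : (1 : ℝ) ≤ ((k : ℤ) : ℝ) := by exact_mod_cast hr
  have hk' : ((k : ℤ) : ℝ) = (k : ℝ) := by simp
  have hMk : ((k : ℤ) : ℝ) ^ 2 ≤ ((M * k : ℕ) : ℝ) ^ 2 := by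
    rw [hk']
    have : (1 : ℝ) ≤ M := by exact_mod_cast (by omega : 1 ≤ M)
    rw [hk'] at hk
    push_cast
    have h6 : (k : ℝ) ≤ M * k := by nlinarith
    exact pow_le_pow_left₀ (by linarith) h6 2
  rw [rpow_two_sub hk]
  have hpos : 0 < ((k : ℤ) : ℝ) ^ (-(1 / 4) : ℝ) := Real.rpow_pos_of_pos (by linarith) _
  have h7 : ((k : ℤ) : ℝ) ^ 2 / 4 ≤ ((Dset R h (M * (k : ℤ))).card : ℝ) := by
    refine le_trans ?_ h4
    linarith
  calc c₁ * (c / 8) * (((k : ℤ) : ℝ) ^ 2 * ((k : ℤ) : ℝ) ^ (-(1 / 4) : ℝ))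
      = ((k : ℤ) : ℝ) ^ 2 / 4 * (c₁ * (c / 2 * ((k : ℤ) : ℝ) ^ (-(1 / 4) : ℝ))) := by ring
    _ ≤ _ := mul_le_mul_of_nonneg_right h7 (by positivity)

/-- Two points of the remote square. -/
theorem second_point {M : ℕ} (hM : 12 ≤ M) (hP : P2Bounds) :
    ∃ C : ℝ, 0 < C ∧ ∀ (ω : Cfg) (r R h : ℤ) (d : Fin 4), 1 ≤ r → M * r ≤ R →
      FT ω (0, 0) d R (4 * r) (R, h, true) → ∀ p ∈ Dset R h (M * r), ∀ q ∈ Dset R h (M * r),
        ∀ d₁ d₂ : Fin 4, pr (QF (0, 0) (R + 8 * (M * r))) (Vis ω d R (R + 8 * (M * r)) p d₁ ∩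
              Vis ω d R (R + 8 * (M * r)) q d₂) ≤ C * wt (max |p.1 - q.1| |p.2 - q.2|) := by
  obtain ⟨c₀, C, hc₀, hC, hb⟩ := hP
  refine ⟨max 1 (C ^ 2), by positivity, fun ω r R h d hr hMR hFT p hp q hq d₁ d₂ => ?_⟩
  have hM' : (12 : ℤ) ≤ M := by exact_mod_cast hM
  have hs : 12 * r ≤ M * r := by nlinarith
  obtain ⟨hh1, hh2⟩ := FT_height hFT
  rw [mem_Dset] at hp hq
  obtain ⟨⟨⟨p1, p2'⟩, p3, p4⟩, p5⟩ := hp
  obtain ⟨⟨⟨q1, q2⟩, q3, q4⟩, q5⟩ := hq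
  generalize hsd : (M : ℤ) * r = s at *
  generalize hm : max |p.1 - q.1| |p.2 - q.2| = m
  have hms : m ≤ s := by
    rw [← hm]
    refine max_le ?_ ?_ <;> rw [abs_le] <;> constructor <;> omega
  by_cases hm1 : m ≤ 1
  · have h1 : wt m = 1 := by unfold wt; rw [if_pos hm1]
    rw [h1, mul_one]
    exact le_trans (pr_le_one _ _) (le_max_left _ _)
  · push Not at hm1
    obtain ⟨k, hk⟩ := Int.eq_ofNat_of_zero_le (by omega : (0 : ℤ) ≤ m / 2)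
    have hk1 : 1 ≤ k := by omega
    have habs : |p.2| + k ≤ R + 8 * s ∧ |q.2| + k ≤ R + 8 * s := by
      constructor
      · have : |p.2| ≤ R + 3 * s := by rw [abs_le]; constructor <;> omega
        omega
      · have : |q.2| ≤ R + 3 * s := by rw [abs_le]; constructor <;> omega
        omega
    have h1 := two_point ω (d := d) (d₁ := d₁) (d₂ := d₂) (R := R) (B := R + 8 * s) (p := p)
      (q := q) (k := k) hk1 p5 q5 (by omega) (by omega) (by omega) (by omega) (by omega)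
      habs.1 habs.2 (by rw [hm]; omega)
    have h2 : wt m = (k : ℝ) ^ (-(1 / 2) : ℝ) := by
      unfold wt
      rw [if_neg (by omega), hk]
      simp
    have h3 := (hb k hk1).2
    have hk0 : (0 : ℝ) < k := by exact_mod_cast hk1
    have h4 : p2 k ^ 2 ≤ C ^ 2 * (k : ℝ) ^ (-(1 / 2) : ℝ) := by
      have h5 : (0 : ℝ) ≤ p2 k := pr_nonneg _ _
      have h6 : p2 k ^ 2 ≤ (C * (k : ℝ) ^ (-(1 / 4) : ℝ)) ^ 2 := pow_le_pow_left₀ h5 h3 2
      have h7 : ((k : ℝ) ^ (-(1 / 4) : ℝ)) ^ 2 = (k : ℝ) ^ (-(1 / 2) : ℝ) := by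
        rw [← Real.rpow_natCast, ← Real.rpow_mul hk0.le]
        norm_num
      rwa [mul_pow, h7] at h6
    rw [h2]
    refine le_trans h1 (le_trans h4 ?_)
    exact mul_le_mul_of_nonneg_right (le_max_right _ _) (Real.rpow_nonneg hk0.le _)

theorem second_moment {M : ℕ} (hM : 12 ≤ M) (hP : P2Bounds) :
    ∃ C₂ : ℝ, 0 < C₂ ∧ ∀ (ω : Cfg) (r R h : ℤ) (d : Fin 4), 1 ≤ r → M * r ≤ R →
      FT ω (0, 0) d R (4 * r) (R, h, true) →
        ∑ i ∈ Dset R h (M * r) ×ˢ (univ : Finset (Fin 4)),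
          ∑ j ∈ Dset R h (M * r) ×ˢ (univ : Finset (Fin 4)),
            pr (QF (0, 0) (R + 8 * (M * r))) (Vis ω d R (R + 8 * (M * r)) i.1 i.2 ∩
              Vis ω d R (R + 8 * (M * r)) j.1 j.2) ≤ C₂ * (r : ℝ) ^ (7 / 2 : ℝ) := by
  obtain ⟨C, hC, h1⟩ := second_point hM hP
  obtain ⟨Cs, hCs, h2⟩ := sum_wt
  have hM0 : (0 : ℝ) < M := by exact_mod_cast (by omega : 0 < M)
  refine ⟨16 * C * Cs * (M : ℝ) ^ (7 / 2 : ℝ), by positivity, fun ω r R h d hr hMR hFT => ?_⟩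
  have h3 := h1 ω r R h d hr hMR hFT
  obtain ⟨k, rfl⟩ := Int.eq_ofNat_of_zero_le (by omega : (0 : ℤ) ≤ r)
  have hk : 1 ≤ k := by omega
  have hMk : 1 ≤ M * k := Nat.mul_pos (by omega) hk
  have h4 := h2 (M * k) (R + 2 * (M * k)) (h + 2 * (M * k)) hMk
  have hsub : Dset R h (M * (k : ℤ)) ⊆ Icc (R + 2 * (M * k)) (R + 2 * (M * k) +
      ((M * k : ℕ) : ℤ)) ×ˢ Icc (h + 2 * (M * k)) (h + 2 * (M * k) + ((M * k : ℕ) : ℤ)) := by
    intro p hp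
    rw [mem_Dset] at hp
    rw [mem_product, mem_Icc, mem_Icc]
    push_cast
    omega
  have h5 : ∑ p ∈ Dset R h (M * (k : ℤ)), ∑ q ∈ Dset R h (M * (k : ℤ)),
      wt (max |p.1 - q.1| |p.2 - q.2|) ≤ Cs * ((M * k : ℕ) : ℝ) ^ (7 / 2 : ℝ) := by
    refine le_trans ?_ h4
    refine le_trans (sum_le_sum fun p _ => sum_le_sum_of_subset_of_nonneg hsub
      fun q _ _ => wt_nonneg _) ?_
    exact sum_le_sum_of_subset_of_nonneg hsub fun p _ _ => sum_nonneg fun q _ => wt_nonneg _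
  calc ∑ i ∈ Dset R h (M * (k : ℤ)) ×ˢ (univ : Finset (Fin 4)),
          ∑ j ∈ Dset R h (M * (k : ℤ)) ×ˢ (univ : Finset (Fin 4)),
            pr (QF (0, 0) (R + 8 * (M * (k : ℤ)))) (Vis ω d R (R + 8 * (M * (k : ℤ))) i.1 i.2 ∩
              Vis ω d R (R + 8 * (M * (k : ℤ))) j.1 j.2)
      ≤ ∑ i ∈ Dset R h (M * (k : ℤ)) ×ˢ (univ : Finset (Fin 4)),
          ∑ j ∈ Dset R h (M * (k : ℤ)) ×ˢ (univ : Finset (Fin 4)),
            C * wt (max |i.1.1 - j.1.1| |i.1.2 - j.1.2|) := by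
        refine sum_le_sum fun i hi => sum_le_sum fun j hj => ?_
        rw [mem_product] at hi hj
        exact h3 i.1 hi.1 j.1 hj.1 i.2 j.2
    _ = 16 * C * ∑ p ∈ Dset R h (M * (k : ℤ)), ∑ q ∈ Dset R h (M * (k : ℤ)),
          wt (max |p.1 - q.1| |p.2 - q.2|) := by
        simp only [sum_product, sum_const, card_univ, Fintype.card_fin, nsmul_eq_mul, mul_sum]
        refine sum_congr rfl fun p _ => ?_
        refine sum_congr rfl fun q _ => ?_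
        push_cast
        ring
    _ ≤ 16 * C * (Cs * ((M * k : ℕ) : ℝ) ^ (7 / 2 : ℝ)) := by
        exact mul_le_mul_of_nonneg_left h5 (by positivity)
    _ = 16 * C * Cs * (M : ℝ) ^ (7 / 2 : ℝ) * (((k : ℕ) : ℤ) : ℝ) ^ (7 / 2 : ℝ) := by
        push_cast
        rw [Real.mul_rpow (by positivity) (by positivity)]
        ring

theorem ue_inj {p q : ℤ × ℤ} (hp : (p.1 + p.2) % 2 = 0) (hq : (q.1 + q.2) % 2 = 0)
    {d d' : Fin 4} (h : ue p d = ue q d') : (p, d) = (q, d') := by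
  obtain ⟨p1, p2⟩ := p
  obtain ⟨q1, q2⟩ := q
  simp only at hp hq
  fin_cases d <;> fin_cases d' <;> simp [ue] at h ⊢ <;> omega

theorem moment_east {M : ℕ} (hM : 12 ≤ M) (hP : P2Bounds) {c : ℝ} (hc : 0 < c) (hF : FarBd M c) :
    ∃ c₁ c₂ : ℝ, 0 < c₁ ∧ 0 < c₂ ∧ ∀ (ω : Cfg) (r R h : ℤ) (d : Fin 4), 1 ≤ r → M * r ≤ R →
      FT ω (0, 0) d R (4 * r) (R, h, true) →
        c₂ ≤ pr (QF (0, 0) (R + 8 * (M * r))) {ξ | c₁ * (r : ℝ) ^ (7 / 4 : ℝ) ≤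
          ((MM (mixC (SQ ω (0, 0) d R) ω ξ) (QF (0, 0) (R + 8 * (M * r)))
            (ue (0, 0) d)).ncard : ℝ)} := by
  obtain ⟨c₁, hc₁, h1⟩ := first_moment hM hc hF
  obtain ⟨C₂, hC₂, h2⟩ := second_moment hM hP
  refine ⟨c₁ / 2, c₁ ^ 2 / (4 * C₂), by positivity, by positivity,
    fun ω r R h d hr hMR hFT => ?_⟩
  have hr0 : (0 : ℝ) < r := by exact_mod_cast hr
  have hpos : (0 : ℝ) < (r : ℝ) ^ (7 / 4 : ℝ) := Real.rpow_pos_of_pos hr0 _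
  have h3 := paley_zygmund (W := QF (0, 0) (R + 8 * (M * r)))
    (Dset R h (M * r) ×ˢ (univ : Finset (Fin 4)))
    (fun i => Vis ω d R (R + 8 * (M * r)) i.1 i.2)
    (mul_pos hc₁ hpos) (h1 ω r R h d hr hMR hFT) (h2 ω r R h d hr hMR hFT)
  have h4 : c₁ ^ 2 / (4 * C₂) = (c₁ * (r : ℝ) ^ (7 / 4 : ℝ)) ^ 2 /
      (4 * (C₂ * (r : ℝ) ^ (7 / 2 : ℝ))) := by
    have h5 : ((r : ℝ) ^ (7 / 4 : ℝ)) ^ 2 = (r : ℝ) ^ (7 / 2 : ℝ) := by
      rw [← Real.rpow_natCast, ← Real.rpow_mul hr0.le]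
      norm_num
    have h6 : (0 : ℝ) < (r : ℝ) ^ (7 / 2 : ℝ) := Real.rpow_pos_of_pos hr0 _
    rw [mul_pow, h5]
    field_simp
  rw [h4]
  refine le_trans h3 (pr_mono _ fun ξ hξ => ?_)
  simp only [Set.mem_ofPred_eq] at hξ ⊢
  have hM' : (12 : ℤ) ≤ M := by exact_mod_cast hM
  have hs : 12 * r ≤ M * r := by nlinarith
  refine le_trans (by linarith) (le_trans hξ ?_)
  rw [Nat.cast_le]
  classical
  rw [← Set.ncard_coe_finset]
  refine Set.ncard_le_ncard_of_injOn (fun i : (ℤ × ℤ) × Fin 4 => ue i.1 i.2) ?_ ?_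
    (MM_finite _ _ _ _ (by omega))
  · intro i hi
    rw [mem_coe, mem_filter] at hi
    exact hi.2
  · intro i hi j hj hij
    rw [mem_coe, mem_filter, mem_product, mem_Dset] at hi hj
    exact ue_inj hi.1.1.2 hj.1.1.2 hij

end Pool.Agent.PercL
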