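import Pool.Agent.Lib.MP_6bd702_percw.LowGlue
import Pool.Agent.Lib.MP_6bd702_percw.LowTubes
import Pool.Agent.Lib.MP_6bd702_percw.LowMix

/-!
# A remote unit edge is visited (task LowVisit)

`visit_ge`: `pr_mixC` with `S ξ = SQ ξ p d' s` (stopping by `SQ_stop`), `A = WestT a p d' s (4 r)`,
`B ξ = Tubes a R h (p.1 - s) h' r` (`h'` chosen from `A`), `X` = the event on the right side;
`success`, `pr_Tubes K`.
-/

set_option autoImplicit false

namespace Pool.Agent.PercL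

open Finset Pool.Agent.Perc

open Classical in
/-- The height of a far tip on the west side (zero if there is none). -/
noncomputable def hW (a : ℤ) (p : ℤ × ℤ) (d : Fin 4) (R ρ : ℤ) (ω : Cfg) : ℤ :=
  if H : ∃ h, (p.1 - R + (h + 1) - a) % 2 = 0 ∧ FT ω p d R ρ (p.1 - R, h, true) then H.choose else 0

theorem hW_spec {a : ℤ} {p : ℤ × ℤ} {d : Fin 4} {R ρ : ℤ} {ω : Cfg} (h : ω ∈ WestT a p d R ρ) :
    (p.1 - R + (hW a p d R ρ ω + 1) - a) % 2 = 0 ∧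
      FT ω p d R ρ (p.1 - R, hW a p d R ρ ω, true) := by
  have h' : ∃ h, (p.1 - R + (h + 1) - a) % 2 = 0 ∧ FT ω p d R ρ (p.1 - R, h, true) := h
  unfold hW
  rw [dif_pos h']
  exact h'.choose_spec

theorem visit_ge (K : ℕ) : ∃ c : ℝ, 0 < c ∧ ∀ (ω : Cfg) (a r s R h B : ℤ) (d d' : Fin 4)
    (p : ℤ × ℤ), (p.1 + p.2) % 2 = 0 → 1 ≤ r → 4 * r < R → 4 * r < s →
    FT ω (0, 0) d R (4 * r) (R, h, true) → (R + (h + 1) - a) % 2 = 0 →
    R + 9 * r ≤ p.1 - s → p.1 - s ≤ R + K * r → h ≤ p.2 - s → p.2 + s ≤ h + K * r →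
    p.1 + s + 4 * r ≤ B → p.2 + s + 4 * r ≤ B → R + 4 * r ≤ B →
    c * pr (QF (0, 0) B) (WestT a p d' s (4 * r)) ≤
      pr (QF (0, 0) B) {ξ | ue p d' ∈ MM (mixC (SQ ω (0, 0) d R) ω ξ) (QF (0, 0) B)
        (ue (0, 0) d)} := by
  obtain ⟨c, hc, hT⟩ := pr_Tubes K
  refine ⟨c, hc, ?_⟩
  intro ω a r s R h B d d' p hp hr hR hs hfar ha h1 h2 h3 h4 h5 h6 h7
  have hh : -R ≤ h ∧ h < R := by
    have hb := hfar.2.1
    unfold BdE at hb
    simp at hb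
    omega
  refine pr_mixC (fun ξ => SQ ξ p d' s) (fun ω₁ ω₂ hω => SQ_stop hω) (WestT a p d' s (4 * r)) _
    (fun ω₁ => Tubes a R h (p.1 - s) (hW a p d' s (4 * r) ω₁) r) ?_ ?_
  · intro ω₁ hω₁
    have hsp := (hW_spec hω₁).2
    have hb := hsp.2.1
    unfold BdE at hb
    simp at hb
    refine hT a r R h (p.1 - s) (hW a p d' s (4 * r) ω₁) hr h1 h2 (by omega) (by omega)
      (QF (0, 0) B) ?_
    intro f hf
    have hf' : R - 4 * r ≤ f.1 ∧ f.1 < p.1 - s + 4 * r ∧ h - 4 * r ≤ f.2 ∧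
        f.2 < hW a p d' s (4 * r) ω₁ + 4 * r := mem_RFi.1 hf
    exact mem_RFi.2 ⟨by simp only; omega, by simp only; omega, by simp only; omega,
      by simp only; omega⟩
  · intro ω₁ hω₁ ξ hξ
    have hsp := hW_spec hω₁
    exact success hp hr hR hs hfar ha hsp.2 hsp.1 h1 h3 h5 h6 h7 hξ

end Pool.Agent.PercL
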