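import Pool.Agent.Lib.MP_6bd702_percw.Stair
import Pool.Agent.Lib.MP_6bd702_perc.Planar
import Pool.Agent.Lib.MP_6bd702_perc.Dict
import Pool.Agent.Lib.MP_6bd702_perc.SmallClusters

/-!
# RSW in the face grid: transfer of the staircase
-/

set_option autoImplicit false

namespace Pool.Agent.Perc

open Finset
open Pool.Agent.MP_6bd702

namespace RswF

/-- The open edges of a configuration. -/
def EE (ω : Cfg) : Set Edg := {e | ω (phiE e) = !e.2.2}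

/-- A step along an open edge is a bond. -/
theorem bond_of_step {ω : Cfg} {m : ℤ} {u v : ℤ × ℤ} (h : H23.Step (EE ω) (H23.Band m) u v) :
    Bond ω {f | -m ≤ f.2 ∧ f.2 < 2 * m} (phiV u) (phiV v) := by
  obtain ⟨hu, hv, e, he, hh⟩ := h
  obtain ⟨x, y, t⟩ := e
  simp only [H23.Band, Set.mem_ofPred_eq] at hu hv
  simp only [EE, Set.mem_ofPred_eq, phiE] at he
  cases t
  · simp only [H23.ea, H23.eb, Bool.false_eq_true, if_false] at hh he
    refine ⟨x + y, x - y, ?_, Or.inl ⟨by simpa using he, ?_⟩⟩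
    · rcases hh with ⟨rfl, rfl⟩ | ⟨rfl, rfl⟩ <;> simp only [Set.mem_ofPred_eq] at * <;> omega
    · rcases hh with ⟨rfl, rfl⟩ | ⟨rfl, rfl⟩
      · left
        constructor <;> ext <;> simp only [phiV] <;> ring
      · right
        constructor <;> ext <;> simp only [phiV] <;> ring
  · simp only [H23.ea, H23.eb, if_true] at hh he
    refine ⟨x + y, x - y - 1, ?_, Or.inr ⟨by simpa using he, ?_⟩⟩
    · rcases hh with ⟨rfl, rfl⟩ | ⟨rfl, rfl⟩ <;> simp only [Set.mem_ofPred_eq] at * <;> omega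
    · rcases hh with ⟨rfl, rfl⟩ | ⟨rfl, rfl⟩
      · left
        constructor <;> ext <;> simp only [phiV] <;> ring
      · right
        constructor <;> ext <;> simp only [phiV] <;> ring

theorem conn_of_conn {ω : Cfg} {m : ℤ} {u v : ℤ × ℤ} (h : H23.Conn (EE ω) (H23.Band m) u v) :
    Conn ω {f | -m ≤ f.2 ∧ f.2 < 2 * m} (phiV u) (phiV v) := by
  induction h with
  | refl => exact Relation.ReflTransGen.refl
  | tail _ hb ih => exact ih.tail (bond_of_step hb)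

/-- A path in a horizontal strip which goes from the left of `x₀` to the right of `x₁` crosses the
rectangle. -/
theorem lr_of_conn {ω : Cfg} {c x₀ x₁ y₀ y₁ : ℤ} {F : Set (ℤ × ℤ)} {u v : ℤ × ℤ}
    (hF : ∀ f ∈ F, y₀ ≤ f.2 ∧ f.2 < y₁) (hx : x₀ < x₁) (hpar : (u.1 + u.2 - c) % 2 = 0)
    (hu : u.1 ≤ x₀) (hv : x₁ ≤ v.1) (h : Conn ω F u v) : ω ∈ LR c x₀ x₁ y₀ y₁ := by
  have key : v.1 ≤ x₀ ∨ (v.1 ≤ x₁ ∧ ∃ s : ℤ × ℤ, s.1 = x₀ ∧ y₀ ≤ s.2 ∧ s.2 ≤ y₁ ∧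
      (s.1 + s.2 - c) % 2 = 0 ∧ Conn ω (RF x₀ x₁ y₀ y₁) s v) ∨ ω ∈ LR c x₀ x₁ y₀ y₁ := by
    clear hv
    induction h with
    | refl => exact Or.inl hu
    | @tail w w' hw hb ih =>
      have hp := Conn.parity hw
      have hstep : (w'.1 = w.1 + 1 ∨ w'.1 = w.1 - 1) ∧ y₀ ≤ w.2 ∧ w.2 ≤ y₁ ∧
          Bond ω {f | f.1 = min w.1 w'.1 ∧ y₀ ≤ f.2 ∧ f.2 < y₁} w w' := by
        obtain ⟨x, y, hm, hh⟩ := hb
        have hm' := hF _ hm
        simp only at hm'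
        refine ⟨?_, ?_, ?_, x, y, ?_, hh⟩
        · rcases hh with ⟨_, ⟨rfl, rfl⟩ | ⟨rfl, rfl⟩⟩ | ⟨_, ⟨rfl, rfl⟩ | ⟨rfl, rfl⟩⟩
          · left; rfl
          · right; dsimp only; omega
          · left; rfl
          · right; dsimp only; omega
        · rcases hh with ⟨_, ⟨rfl, rfl⟩ | ⟨rfl, rfl⟩⟩ | ⟨_, ⟨rfl, rfl⟩ | ⟨rfl, rfl⟩⟩ <;>
            simp only <;> omega
        · rcases hh with ⟨_, ⟨rfl, rfl⟩ | ⟨rfl, rfl⟩⟩ | ⟨_, ⟨rfl, rfl⟩ | ⟨rfl, rfl⟩⟩ <;>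
            simp only <;> omega
        · change x = min w.1 w'.1 ∧ y₀ ≤ y ∧ y < y₁
          refine ⟨?_, hm'⟩
          rcases hh with ⟨_, ⟨rfl, rfl⟩ | ⟨rfl, rfl⟩⟩ | ⟨_, ⟨rfl, rfl⟩ | ⟨rfl, rfl⟩⟩ <;>
            simp only <;> omega
      obtain ⟨hx1, hw1, hw2, hb'⟩ := hstep
      have hbond : x₀ ≤ min w.1 w'.1 → min w.1 w'.1 < x₁ →
          Conn ω (RF x₀ x₁ y₀ y₁) w w' := by
        intro h1 h2
        refine Relation.ReflTransGen.single ?_
        obtain ⟨x, y, hm, hh⟩ := hb'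
        refine ⟨x, y, ?_, hh⟩
        simp only [Set.mem_ofPred_eq] at hm
        simp only [RF, coe_product, coe_Ico, Set.mem_prod, Set.mem_Ico]
        omega
      rcases ih with h4 | ⟨h4, s, h5, h6, h7, h8, h9⟩ | h4
      · by_cases h5 : w'.1 ≤ x₀
        · exact Or.inl h5
        · right; left
          have hwx : w.1 = x₀ := by omega
          exact ⟨by omega, w, hwx, hw1, hw2, by omega, hbond (by omega) (by omega)⟩
      · by_cases h10 : w'.1 ≤ x₀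
        · exact Or.inl h10
        · right
          by_cases h11 : w'.1 ≤ x₁
          · left
            exact ⟨h11, s, h5, h6, h7, h8, h9.trans (hbond (by omega) (by omega))⟩
          · right
            exact ⟨s, w, h5, h6, h7, by omega, h8, h9⟩
      · exact Or.inr (Or.inr h4)
  rcases key with h4 | ⟨h4, s, h5, h6, h7, h8, h9⟩ | h4
  · omega
  · exact ⟨s, v, h5, h6, h7, by omega, h8, h9⟩
  · exact h4

/-- The staircase crosses a rectangle of the face grid. -/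
theorem lr_of_stair {ω : Cfg} {m : ℤ} (hm : 0 < m) {J : ℕ} (h : EE ω ∈ H23.StEv m (J + 1))
    {x₀ x₁ y₀ y₁ : ℤ} (hx : x₀ < x₁) (h1 : m ≤ x₀) (h2 : x₁ ≤ 2 * (J * m) + m) (h3 : y₀ ≤ -m)
    (h4 : 2 * m ≤ y₁) : ω ∈ LR 0 x₀ x₁ y₀ y₁ := by
  obtain ⟨y, x, x', g1, g2, g3, g4, g5, g6, gV, gC⟩ := H23.stair_conn hm h
  have hc := conn_of_conn gC
  refine lr_of_conn (F := {f | -m ≤ f.2 ∧ f.2 < 2 * m}) ?_ hx ?_ ?_ ?_ hc
  · intro f hf
    simp only [Set.mem_ofPred_eq] at hf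
    omega
  · simp only [phiV]
    omega
  · simp only [phiV]
    omega
  · simp only [phiV]
    omega

/-- Lower bound for the staircase in the face grid. -/
theorem pr_stair {m : ℤ} {c : ℝ} (hc0 : 0 ≤ c) (hm : 2 ≤ m)
    (hc : ∀ w t : ℤ, 0 < w → 2 ≤ t → w ≤ 2 * t → c ≤ H23.hp w t) (J : ℕ)
    {x₀ x₁ y₀ y₁ : ℤ} (hx : x₀ < x₁) (h1 : m ≤ x₀) (h2 : x₁ ≤ 2 * (J * m) + m) (h3 : y₀ ≤ -m)
    (h4 : 2 * m ≤ y₁) : (c ^ 6) ^ (J + 1) ≤ pr (RF x₀ x₁ y₀ y₁) (LR 0 x₀ x₁ y₀ y₁) := by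
  classical
  obtain ⟨N, hN⟩ : ∃ N : ℕ, (N : ℤ) = ((J + 1 : ℕ) + 1) * m :=
    ⟨(((J + 1 : ℕ) + 1) * m).toNat, Int.toNat_of_nonneg (by positivity)⟩
  have e1 := H23.pr_StEv hc0 hm hc (J + 1) (W := boxE N) (by
    rw [SmallClusters.boxE_eq, hN])
  have e2 : H23.pr (boxE N) (H23.StEv m (J + 1)) =
      prB N {T : Finset Edg | (T : Set Edg) ∈ H23.StEv m (J + 1)} := by
    rw [SmallClusters.prB_eq]
    refine H23.pr_congr fun ω hω => ?_
    constructor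
    · intro h
      have hfin : ω.Finite := (boxE N).finite_toSet.subset hω
      exact ⟨hfin.toFinset, by simpa using h, by simp⟩
    · rintro ⟨T, hT, rfl⟩
      exact hT
  set S := (boxE N).image phiE ∪ RF x₀ x₁ y₀ y₁ with hS
  have e3 := pr_cfgE N (S := S) (fun e he => mem_union_left _ (mem_image_of_mem _ he))
    {T : Finset Edg | (T : Set Edg) ∈ H23.StEv m (J + 1)}
  rw [e2, ← e3] at e1
  refine e1.trans ?_
  rw [← pr_eq_of_depOn (depOn_LR 0 x₀ x₁ y₀ y₁) (S' := S) subset_union_right]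
  refine pr_mono _ ?_
  intro ω h
  have h5 : EE ω ∈ H23.StEv m (J + 1) := by
    refine H23.StEv_upper m (J + 1) ?_ h
    intro e he
    rw [mem_coe, cfgE, mem_filter] at he
    exact he.2
  exact lr_of_stair (by omega) h5 hx h1 h2 h3 h4

end RswF

end Pool.Agent.Perc
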