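import Pool.Agent.Lib.MP_6bd702_percw.RswA

/-!
# RSW in the face grid: rectangles of bounded aspect ratio
-/

set_option autoImplicit false

namespace Pool.Agent.Perc

open Finset
open Pool.Agent.MP_6bd702

/-- `LR` depends on the parity only. -/
theorem LR_congr {c c' : ℤ} (h : (c - c') % 2 = 0) (x₀ x₁ y₀ y₁ : ℤ) :
    LR c x₀ x₁ y₀ y₁ = LR c' x₀ x₁ y₀ y₁ := by
  ext ω
  constructor
  · rintro ⟨u, v, h1, h2, h3, h4, h5, h6⟩
    exact ⟨u, v, h1, h2, h3, h4, by omega, h6⟩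
  · rintro ⟨u, v, h1, h2, h3, h4, h5, h6⟩
    exact ⟨u, v, h1, h2, h3, h4, by omega, h6⟩

/-- `BT` depends on the parity only. -/
theorem BT_congr {c c' : ℤ} (h : (c - c') % 2 = 0) (x₀ x₁ y₀ y₁ : ℤ) :
    BT c x₀ x₁ y₀ y₁ = BT c' x₀ x₁ y₀ y₁ := by
  ext ω
  constructor
  · rintro ⟨u, v, h1, h2, h3, h4, h5, h6⟩
    exact ⟨u, v, h1, h2, h3, h4, by omega, h6⟩
  · rintro ⟨u, v, h1, h2, h3, h4, h5, h6⟩
    exact ⟨u, v, h1, h2, h3, h4, by omega, h6⟩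

theorem lr_shift (a b c x₀ x₁ y₀ y₁ : ℤ) (ω : Cfg) :
    shiftC a b ω ∈ LR c x₀ x₁ y₀ y₁ ↔
      ω ∈ LR (c + a + b) (x₀ + a) (x₁ + a) (y₀ + b) (y₁ + b) := by
  constructor
  · rintro ⟨u, v, h1, h2, h3, h4, h5, h6⟩
    rw [conn_shift, DictA.rf_shift] at h6
    exact ⟨_, _, by dsimp only; omega, by dsimp only; omega, by dsimp only; omega,
      by dsimp only; omega, by dsimp only; omega, h6⟩
  · rintro ⟨u, v, h1, h2, h3, h4, h5, h6⟩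
    refine ⟨(u.1 - a, u.2 - b), (v.1 - a, v.2 - b), by dsimp only; omega, by dsimp only; omega,
      by dsimp only; omega, by dsimp only; omega, by dsimp only; omega, ?_⟩
    rw [conn_shift, DictA.rf_shift]
    simpa using h6

/-- Translation invariance of the crossing probabilities. -/
theorem pr_LR_shift (a b c x₀ x₁ y₀ y₁ : ℤ) :
    pr (RF (x₀ + a) (x₁ + a) (y₀ + b) (y₁ + b))
      (LR (c + a + b) (x₀ + a) (x₁ + a) (y₀ + b) (y₁ + b)) =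
    pr (RF x₀ x₁ y₀ y₁) (LR c x₀ x₁ y₀ y₁) := by
  have h1 : LR (c + a + b) (x₀ + a) (x₁ + a) (y₀ + b) (y₁ + b) =
      {ω : Cfg | (fun x : ℤ × ℤ => ω (x.1 + a, x.2 + b)) ∈ LR c x₀ x₁ y₀ y₁} := by
    ext ω
    exact (lr_shift a b c x₀ x₁ y₀ y₁ ω).symm
  rw [h1]
  refine pr_comp (f := fun x : ℤ × ℤ => (x.1 + a, x.2 + b)) ?_ ?_ (depOn_LR c x₀ x₁ y₀ y₁)
  · intro x _ y _ h
    simp only [Prod.mk.injEq, add_left_inj] at h
    exact Prod.ext h.1 h.2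
  · intro x hx
    simp only [RF, mem_product, mem_Ico] at hx ⊢
    omega

theorem pr_LR_window {S : Finset (ℤ × ℤ)} {x₀ x₁ y₀ y₁ : ℤ} (h : RF x₀ x₁ y₀ y₁ ⊆ S) (c : ℤ) :
    pr S (LR c x₀ x₁ y₀ y₁) = pr (RF x₀ x₁ y₀ y₁) (LR c x₀ x₁ y₀ y₁) :=
  pr_eq_of_depOn (depOn_LR c x₀ x₁ y₀ y₁) h

theorem pr_BT_window {S : Finset (ℤ × ℤ)} {x₀ x₁ y₀ y₁ : ℤ} (h : RF x₀ x₁ y₀ y₁ ⊆ S) (c : ℤ) :
    pr S (BT c x₀ x₁ y₀ y₁) = pr (RF x₀ x₁ y₀ y₁) (BT c x₀ x₁ y₀ y₁) :=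
  pr_eq_of_depOn (depOn_BT c x₀ x₁ y₀ y₁) h

namespace RswF

/-- Prescribing the values on a set of faces. -/
theorem pr_fix {S D : Finset (ℤ × ℤ)} (hD : D ⊆ S) (g : ℤ × ℤ → Bool) :
    1 / 2 ^ D.card ≤ pr S {ω | ∀ f ∈ D, ω f = g f} := by
  classical
  have h1 : DepOn (D : Set (ℤ × ℤ)) {ω | ∀ f ∈ D, ω f = g f} := by
    intro ω ω' h
    simp only [Set.mem_ofPred_eq]
    constructor
    · intro h2 f hf
      rw [← h f (by exact_mod_cast hf)]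
      exact h2 f hf
    · intro h2 f hf
      rw [h f (by exact_mod_cast hf)]
      exact h2 f hf
  rw [pr_eq_of_depOn h1 hD]
  have h2 : cfg (D.filter (fun f => g f = true)) ∈ {ω : Cfg | ∀ f ∈ D, ω f = g f} := by
    intro f hf
    simp only [cfg, mem_filter, hf, true_and]
    cases g f <;> simp
  generalize {ω : Cfg | ∀ f ∈ D, ω f = g f} = A at h2 ⊢
  rw [pr]
  gcongr
  rw [Nat.one_le_cast, Nat.one_le_iff_ne_zero, ← Nat.pos_iff_ne_zero, Finset.card_pos]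
  exact ⟨D.filter (fun f => g f = true),
    mem_filter.2 ⟨mem_powerset.2 (filter_subset _ _), h2⟩⟩

/-- The height of the zigzag path. -/
def zig (c y₀ x : ℤ) : ℤ := if (x + y₀ - c) % 2 = 0 then y₀ else y₀ + 1

theorem zig_conn {ω : Cfg} {c x₀ x₁ y₀ y₁ : ℤ} (hy : y₀ < y₁)
    (h : ∀ x, x₀ ≤ x → x < x₁ → ω (x, y₀) = decide ((x + y₀ - c) % 2 = 0)) (n : ℕ)
    (hn : x₀ + n ≤ x₁) : Conn ω (RF x₀ x₁ y₀ y₁) (x₀, zig c y₀ x₀) (x₀ + n, zig c y₀ (x₀ + n)) := by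
  induction n with
  | zero =>
    simp only [Nat.cast_zero, add_zero]
    exact Relation.ReflTransGen.refl
  | succ n ih =>
    have ih' := ih (by push_cast at hn; omega)
    refine ih'.tail ?_
    have hw := h (x₀ + n) (by omega) (by push_cast at hn; omega)
    refine ⟨x₀ + n, y₀, ?_, ?_⟩
    · simp only [RF, coe_product, coe_Ico, Set.mem_prod, Set.mem_Ico]
      push_cast at hn
      omega
    · push_cast
      by_cases hp : (x₀ + n + y₀ - c) % 2 = 0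
      · left
        refine ⟨by rw [hw]; simpa using hp, Or.inl ⟨?_, ?_⟩⟩
        · rw [zig, if_pos hp]
        · rw [zig, if_neg (by omega)]
          ext
          · dsimp only; ring
          · rfl
      · right
        refine ⟨by rw [hw]; simpa using hp, Or.inl ⟨?_, ?_⟩⟩
        · rw [zig, if_neg hp]
        · rw [zig, if_pos (by omega)]
          ext
          · dsimp only; ring
          · rfl

/-- Crossings always have positive probability. -/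
theorem pr_LR_pos (c : ℤ) {x₀ x₁ y₀ y₁ : ℤ} (hx : x₀ < x₁) (hy : y₀ < y₁) :
    1 / 2 ^ (x₁ - x₀).toNat ≤ pr (RF x₀ x₁ y₀ y₁) (LR c x₀ x₁ y₀ y₁) := by
  classical
  set D : Finset (ℤ × ℤ) := (Ico x₀ x₁).image fun x => (x, y₀) with hD
  have hcard : D.card = (x₁ - x₀).toNat := by
    rw [hD, card_image_of_injective _ (fun a b h => (Prod.mk.inj h).1), Int.card_Ico]
  have h1 := pr_fix (S := RF x₀ x₁ y₀ y₁) (D := D) (by
    intro f hf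
    obtain ⟨x, hx', rfl⟩ := mem_image.1 hf
    rw [mem_Ico] at hx'
    simp only [RF, mem_product, mem_Ico]
    omega) (fun f => decide ((f.1 + f.2 - c) % 2 = 0))
  rw [hcard] at h1
  refine h1.trans (pr_mono _ ?_)
  intro ω hω
  have h2 : ∀ x, x₀ ≤ x → x < x₁ → ω (x, y₀) = decide ((x + y₀ - c) % 2 = 0) := by
    intro x h3 h4
    exact hω (x, y₀) (mem_image.2 ⟨x, mem_Ico.2 ⟨h3, h4⟩, rfl⟩)
  have h3 := zig_conn hy h2 (x₁ - x₀).toNat (by omega)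
  refine ⟨_, _, rfl, ?_, ?_, ?_, ?_, h3⟩
  · dsimp only [zig]; split_ifs <;> omega
  · dsimp only [zig]; split_ifs <;> omega
  · dsimp only; omega
  · dsimp only [zig]; split_ifs <;> omega

end RswF

/-- **RSW in the face grid**: left-right crossings of rectangles whose width is at most `k` times
the height. -/
theorem rswF (k : ℕ) : ∃ c : ℝ, 0 < c ∧ ∀ col x₀ x₁ y₀ y₁ : ℤ, x₀ < x₁ → y₀ < y₁ →
    x₁ - x₀ ≤ k * (y₁ - y₀) → c ≤ pr (RF x₀ x₁ y₀ y₁) (LR col x₀ x₁ y₀ y₁) := by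
  obtain ⟨c, hc, hrsw⟩ := H23.rsw 2
  refine ⟨min ((c ^ 6) ^ (2 * k + 1 + 1)) (1 / 2 ^ (5 * k)), by positivity, ?_⟩
  intro col x₀ x₁ y₀ y₁ hx hy hk
  by_cases ht : 6 ≤ y₁ - y₀
  · refine (min_le_left _ _).trans ?_
    set m := (y₁ - y₀) / 3 with hm
    have hm2 : 2 ≤ m := by omega
    -- the translation
    obtain ⟨a, ha1, ha2, ha3⟩ : ∃ a : ℤ, x₀ - m - 1 ≤ a ∧ a ≤ x₀ - m ∧
        (a + (y₀ + m) - col) % 2 = 0 := by
      by_cases h : (x₀ - m + (y₀ + m) - col) % 2 = 0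
      · exact ⟨x₀ - m, by omega, le_rfl, h⟩
      · exact ⟨x₀ - m - 1, le_rfl, by omega, by omega⟩
    have hkm : x₁ - x₀ ≤ 4 * (k * m) + 2 * m - 1 := by
      have h1 : (k : ℤ) * (y₁ - y₀) ≤ k * (3 * m + 2) :=
        mul_le_mul_of_nonneg_left (by omega) (Int.natCast_nonneg k)
      have h2 : (k : ℤ) * (3 * m + 2) ≤ k * (4 * m) :=
        mul_le_mul_of_nonneg_left (by omega) (Int.natCast_nonneg k)
      have h3 : (k : ℤ) * (4 * m) = 4 * (k * m) := by ring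
      omega
    have e2 : ((2 * k + 1 : ℕ) : ℤ) * m = 2 * (k * m) + m := by push_cast; ring
    have h1 := RswF.pr_stair hc.le hm2 (by exact_mod_cast hrsw) (2 * k + 1)
      (x₀ := x₀ - a) (x₁ := x₁ - a) (y₀ := -m) (y₁ := y₁ - (y₀ + m)) (by omega) (by omega)
      (by rw [e2]; omega) le_rfl (by omega)
    refine h1.trans (le_of_eq ?_)
    rw [← pr_LR_shift a (y₀ + m) 0 (x₀ - a) (x₁ - a) (-m) (y₁ - (y₀ + m)),
      LR_congr (c' := col) (by omega)]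
    have e3 : x₀ - a + a = x₀ := by ring
    have e4 : x₁ - a + a = x₁ := by ring
    have e5 : -m + (y₀ + m) = y₀ := by ring
    have e6 : y₁ - (y₀ + m) + (y₀ + m) = y₁ := by ring
    rw [e3, e4, e5, e6]
  · refine (min_le_right _ _).trans ((?_ : _ ≤ _).trans (RswF.pr_LR_pos col hx hy))
    apply one_div_le_one_div_of_le (by positivity)
    apply pow_le_pow_right₀ (by norm_num)
    have h1 : (k : ℤ) * (y₁ - y₀) ≤ k * 5 :=
      mul_le_mul_of_nonneg_left (by omega) (Int.natCast_nonneg k)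
    omega

/-! ### Bottom-top crossings -/

namespace RswF

/-- Transposition. -/
theorem conn_swap {ω : Cfg} {x₀ x₁ y₀ y₁ : ℤ} {u v : ℤ × ℤ}
    (h : Conn (fun f => ω (f.2, f.1)) (RF x₀ x₁ y₀ y₁) u v) :
    Conn ω (RF y₀ y₁ x₀ x₁) (u.2, u.1) (v.2, v.1) := by
  refine GridA.conn_lift (fun w : ℤ × ℤ => (w.2, w.1)) ?_ h
  rintro w w' ⟨x, y, hm, hh⟩
  refine ⟨y, x, ?_, ?_⟩
  · simp only [RF, coe_product, coe_Ico, Set.mem_prod, Set.mem_Ico] at hm ⊢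
    omega
  · rcases hh with ⟨h1, ⟨rfl, rfl⟩ | ⟨rfl, rfl⟩⟩ | ⟨h1, ⟨rfl, rfl⟩ | ⟨rfl, rfl⟩⟩
    · exact Or.inl ⟨h1, Or.inl ⟨rfl, rfl⟩⟩
    · exact Or.inl ⟨h1, Or.inr ⟨rfl, rfl⟩⟩
    · exact Or.inr ⟨h1, Or.inr ⟨rfl, rfl⟩⟩
    · exact Or.inr ⟨h1, Or.inl ⟨rfl, rfl⟩⟩

theorem lr_swap {ω : Cfg} {c x₀ x₁ y₀ y₁ : ℤ} :
    (fun f : ℤ × ℤ => ω (f.2, f.1)) ∈ LR c y₀ y₁ x₀ x₁ ↔ ω ∈ BT c x₀ x₁ y₀ y₁ := by
  constructor
  · rintro ⟨u, v, h1, h2, h3, h4, h5, h6⟩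
    exact ⟨_, _, h1, h2, h3, h4, by dsimp only; omega, conn_swap h6⟩
  · rintro ⟨u, v, h1, h2, h3, h4, h5, h6⟩
    refine ⟨(u.2, u.1), (v.2, v.1), h1, h2, h3, h4, by dsimp only; omega, ?_⟩
    exact conn_swap (ω := fun f : ℤ × ℤ => ω (f.2, f.1)) h6

end RswF

theorem pr_BT_eq (c x₀ x₁ y₀ y₁ : ℤ) :
    pr (RF x₀ x₁ y₀ y₁) (BT c x₀ x₁ y₀ y₁) = pr (RF y₀ y₁ x₀ x₁) (LR c y₀ y₁ x₀ x₁) := by
  have h1 : BT c x₀ x₁ y₀ y₁ =
      {ω : Cfg | (fun f : ℤ × ℤ => ω (f.2, f.1)) ∈ LR c y₀ y₁ x₀ x₁} := by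
    ext ω
    exact RswF.lr_swap.symm
  rw [h1]
  refine pr_comp (f := fun x : ℤ × ℤ => (x.2, x.1)) ?_ ?_ (depOn_LR c y₀ y₁ x₀ x₁)
  · intro x _ y _ h
    simp only [Prod.mk.injEq] at h
    exact Prod.ext h.2 h.1
  · intro x hx
    simp only [RF, mem_product, mem_Ico] at hx ⊢
    omega

/-- **RSW in the face grid**: bottom-top crossings of rectangles whose height is at most `k` times
the width. -/
theorem rswF' (k : ℕ) : ∃ c : ℝ, 0 < c ∧ ∀ col x₀ x₁ y₀ y₁ : ℤ, x₀ < x₁ → y₀ < y₁ →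
    y₁ - y₀ ≤ k * (x₁ - x₀) → c ≤ pr (RF x₀ x₁ y₀ y₁) (BT col x₀ x₁ y₀ y₁) := by
  obtain ⟨c, hc, h⟩ := rswF k
  refine ⟨c, hc, fun col x₀ x₁ y₀ y₁ hx hy hk => ?_⟩
  rw [pr_BT_eq]
  exact h col y₀ y₁ x₀ x₁ hy hx hk

end Pool.Agent.Perc
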