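import Pool.Agent.Lib.MP_6bd702_pr_h23.Small

/-!
# A staircase of crossings of axis-parallel rectangles

The union of the crossings joins the left side to the right top along the diagonal, inside the
band `-m ≤ x - y ≤ 2 m`.
-/

set_option autoImplicit false

namespace Pool.Agent.MP_6bd702.H23

open Finset

/-- A horizontal and a vertical crossing of a rectangle are connected. -/
theorem meet {a b c d x x' y y' : ℤ} (hcd : c < d) {ω : Set Ed} (hx : a ≤ x ∧ x ≤ b)
    (h : Conn ω (Rect a b c d) (x, c) (x', d)) (hy : c ≤ y ∧ y ≤ d) (hab : a ≤ b)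
    (h' : Conn ω (Rect a b c d) (a, y) (b, y')) : Conn ω (Rect a b c d) (x, c) (a, y) := by
  obtain ⟨w, h1, h2⟩ := hc_vc_meet hcd hx h hy hab h'
  exact h2.trans h1.symm

/-- The events of one step of the staircase with base `k`. -/
def StepEv (m k : ℤ) : Set (Set Ed) :=
  {ω | HC k (k + 2 * m) k (k + m) ω ∧ VC (k + m) (k + 2 * m) k (k + 2 * m) ω ∧
    HC (k + m) (k + 2 * m) k (k + m) ω ∧ VC (k + m) (k + 2 * m) k (k + m) ω ∧
    HC (k + m) (k + 2 * m) (k + m) (k + 2 * m) ω ∧ VC (k + m) (k + 2 * m) (k + m) (k + 2 * m) ω}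

/-- The band along the diagonal. -/
def Band (m : ℤ) : Set (ℤ × ℤ) := {w | -m ≤ w.1 - w.2 ∧ w.1 - w.2 ≤ 2 * m}

/-- The staircase. -/
def StEv (m : ℤ) (J : ℕ) : Set (Set Ed) := {ω | ∀ j < J, ω ∈ StepEv m (j * m)}

theorem StepEv_upper (m k : ℤ) : IsUpperSet (StepEv m k) := fun _ _ h h1 =>
  ⟨HC_mono _ _ _ _ h h1.1, VC_mono _ _ _ _ h h1.2.1, HC_mono _ _ _ _ h h1.2.2.1,
    VC_mono _ _ _ _ h h1.2.2.2.1, HC_mono _ _ _ _ h h1.2.2.2.2.1,
    VC_mono _ _ _ _ h h1.2.2.2.2.2⟩

theorem StEv_upper (m : ℤ) (J : ℕ) : IsUpperSet (StEv m J) :=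
  fun _ _ h h1 j hj => StepEv_upper m _ h (h1 j hj)

theorem pr_StepEv {m k : ℤ} {W : Finset Ed} {c : ℝ} (hc0 : 0 ≤ c) (hm : 2 ≤ m)
    (hW : EW k (k + 2 * m) k (k + 2 * m) ⊆ W)
    (hc : ∀ w t : ℤ, 0 < w → 2 ≤ t → w ≤ 2 * t → c ≤ hp w t) : c ^ 6 ≤ pr W (StepEv m k) := by
  have e : StepEv m k = {ω | HC k (k + 2 * m) k (k + m) ω} ∩
      ({ω | VC (k + m) (k + 2 * m) k (k + 2 * m) ω} ∩
      ({ω | HC (k + m) (k + 2 * m) k (k + m) ω} ∩
      ({ω | VC (k + m) (k + 2 * m) k (k + m) ω} ∩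
      ({ω | HC (k + m) (k + 2 * m) (k + m) (k + 2 * m) ω} ∩
        {ω | VC (k + m) (k + 2 * m) (k + m) (k + 2 * m) ω})))) := rfl
  have p1 : c ≤ pr W {ω | HC k (k + 2 * m) k (k + m) ω} := by
    rw [pr_hc_window ((EW_sub le_rfl le_rfl le_rfl (by omega)).trans hW)]
    exact hc _ _ (by omega) (by omega) (by omega)
  have p2 : c ≤ pr W {ω | VC (k + m) (k + 2 * m) k (k + 2 * m) ω} := by
    rw [pr_vc_window ((EW_sub (by omega) le_rfl le_rfl le_rfl).trans hW)]
    exact hc _ _ (by omega) (by omega) (by omega)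
  have p3 : c ≤ pr W {ω | HC (k + m) (k + 2 * m) k (k + m) ω} := by
    rw [pr_hc_window ((EW_sub (by omega) le_rfl le_rfl (by omega)).trans hW)]
    exact hc _ _ (by omega) (by omega) (by omega)
  have p4 : c ≤ pr W {ω | VC (k + m) (k + 2 * m) k (k + m) ω} := by
    rw [pr_vc_window ((EW_sub (by omega) le_rfl le_rfl (by omega)).trans hW)]
    exact hc _ _ (by omega) (by omega) (by omega)
  have p5 : c ≤ pr W {ω | HC (k + m) (k + 2 * m) (k + m) (k + 2 * m) ω} := by
    rw [pr_hc_window ((EW_sub (by omega) le_rfl (by omega) le_rfl).trans hW)]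
    exact hc _ _ (by omega) (by omega) (by omega)
  have p6 : c ≤ pr W {ω | VC (k + m) (k + 2 * m) (k + m) (k + 2 * m) ω} := by
    rw [pr_vc_window ((EW_sub (by omega) le_rfl (by omega) le_rfl).trans hW)]
    exact hc _ _ (by omega) (by omega) (by omega)
  have u5 := harris_up (W := W) (HC_mono (k + m) (k + 2 * m) (k + m) (k + 2 * m))
    (VC_mono (k + m) (k + 2 * m) (k + m) (k + 2 * m))
  have i5 := (HC_mono (k + m) (k + 2 * m) (k + m) (k + 2 * m)).inter
    (VC_mono (k + m) (k + 2 * m) (k + m) (k + 2 * m))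
  have u4 := harris_up (W := W) (VC_mono (k + m) (k + 2 * m) k (k + m)) i5
  have i4 := (VC_mono (k + m) (k + 2 * m) k (k + m)).inter i5
  have u3 := harris_up (W := W) (HC_mono (k + m) (k + 2 * m) k (k + m)) i4
  have i3 := (HC_mono (k + m) (k + 2 * m) k (k + m)).inter i4
  have u2 := harris_up (W := W) (VC_mono (k + m) (k + 2 * m) k (k + 2 * m)) i3
  have i2 := (VC_mono (k + m) (k + 2 * m) k (k + 2 * m)).inter i3
  have u1 := harris_up (W := W) (HC_mono k (k + 2 * m) k (k + m)) i2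
  rw [e]
  have q5 : c * c ≤ _ := (mul_le_mul p5 p6 hc0 (pr_nonneg _ _)).trans u5
  have q4 : c * (c * c) ≤ _ := (mul_le_mul p4 q5 (by positivity) (pr_nonneg _ _)).trans u4
  have q3 : c * (c * (c * c)) ≤ _ := (mul_le_mul p3 q4 (by positivity) (pr_nonneg _ _)).trans u3
  have q2 : c * (c * (c * (c * c))) ≤ _ :=
    (mul_le_mul p2 q3 (by positivity) (pr_nonneg _ _)).trans u2
  have q1 : c * (c * (c * (c * (c * c)))) ≤ _ :=
    (mul_le_mul p1 q2 (by positivity) (pr_nonneg _ _)).trans u1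
  calc c ^ 6 = c * (c * (c * (c * (c * c)))) := by ring
    _ ≤ _ := q1

theorem pr_StEv {m : ℤ} {c : ℝ} (hc0 : 0 ≤ c) (hm : 2 ≤ m)
    (hc : ∀ w t : ℤ, 0 < w → 2 ≤ t → w ≤ 2 * t → c ≤ hp w t) (J : ℕ) {W : Finset Ed}
    (hW : EW 0 ((J + 1) * m) 0 ((J + 1) * m) ⊆ W) : (c ^ 6) ^ J ≤ pr W (StEv m J) := by
  induction J with
  | zero =>
    have : StEv m 0 = Set.univ := by
      ext ω
      simp [StEv]
    rw [this, pr_univ, pow_zero]
  | succ J ih =>
    have hJ : (0 : ℤ) ≤ J * m := by positivity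
    have e2 : ((J + 1 : ℕ) + 1 : ℤ) * m = J * m + 2 * m := by push_cast; ring
    have e3 : ((J : ℤ) + 1) * m = J * m + m := by ring
    rw [e2] at hW
    have h1 := ih (by
      rw [e3]
      exact (EW_sub le_rfl (by omega) le_rfl (by omega)).trans hW)
    have h2 := pr_StepEv (m := m) (k := J * m) hc0 hm
      ((EW_sub (by omega) le_rfl (by omega) le_rfl).trans hW) hc
    have h3 := harris_up (W := W) (StEv_upper m J) (StepEv_upper m (J * m))
    rw [pow_succ]
    refine (mul_le_mul h1 h2 (by positivity) (pr_nonneg _ _)).trans (h3.trans (pr_mono ?_))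
    rintro ω ⟨h4, h5⟩ j hj
    rcases Nat.lt_succ_iff_lt_or_eq.1 hj with h6 | rfl
    · exact h4 j h6
    · exact h5

theorem stair_conn {m : ℤ} (hm : 0 < m) {J : ℕ} {ω : Set Ed} (h : ω ∈ StEv m (J + 1)) :
    ∃ y x x' : ℤ, 0 ≤ y ∧ y ≤ m ∧ J * m + m ≤ x ∧ x ≤ J * m + 2 * m ∧
      J * m + m ≤ x' ∧ x' ≤ J * m + 2 * m ∧
      Conn ω (Rect (J * m + m) (J * m + 2 * m) (J * m) (J * m + 2 * m)) (x, J * m)
        (x', J * m + 2 * m) ∧
      Conn ω (Band m) (0, y) (x, J * m) := by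
  -- inside one step: from the horizontal crossing to the vertical one
  have inner : ∀ k : ℤ, ω ∈ StepEv m k → ∀ y y' x x' : ℤ, k ≤ y → y ≤ k + m →
      k + m ≤ x → x ≤ k + 2 * m →
      Conn ω (Rect k (k + 2 * m) k (k + m)) (k, y) (k + 2 * m, y') →
      Conn ω (Rect (k + m) (k + 2 * m) k (k + 2 * m)) (x, k) (x', k + 2 * m) →
      Conn ω (Band m) (k, y) (x, k) := by
    rintro k ⟨_, _, h3, h4, _, _⟩ y y' x x' hy1 hy2 hx1 hx2 hH hV
    obtain ⟨z, z', hz1, hz2, _, _, hz⟩ := h3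
    obtain ⟨t, t', ht1, ht2, _, _, ht⟩ := h4
    -- the vertical crossing of the square meets the long horizontal crossing
    have a1 : Conn ω (Rect k (k + 2 * m) k (k + m)) (t, k) (k, y) :=
      meet (by omega) ⟨by omega, by omega⟩ (ht.mono le_rfl (by
        intro v hv; simp only [mem_Rect] at hv ⊢; omega)) ⟨hy1, hy2⟩ (by omega) hH
    -- the two crossings of the square meet
    have a2 : Conn ω (Rect (k + m) (k + 2 * m) k (k + m)) (t, k) (k + m, z) :=
      meet (by omega) ⟨ht1, ht2⟩ ht ⟨hz1, hz2⟩ (by omega) hz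
    -- the horizontal crossing of the square meets the long vertical crossing
    have a3 : Conn ω (Rect (k + m) (k + 2 * m) k (k + 2 * m)) (x, k) (k + m, z) :=
      meet (by omega) ⟨hx1, hx2⟩ hV ⟨hz1, by omega⟩ (by omega) (hz.mono le_rfl (by
        intro v hv; simp only [mem_Rect] at hv ⊢; omega))
    have b1 : Conn ω (Band m) (k, y) (t, k) := a1.symm.mono le_rfl (by
      intro v hv; simp only [mem_Rect, Band, Set.mem_ofPred_eq] at hv ⊢; omega)
    have b2 : Conn ω (Band m) (t, k) (k + m, z) := a2.mono le_rfl (by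
      intro v hv; simp only [mem_Rect, Band, Set.mem_ofPred_eq] at hv ⊢; omega)
    have b3 : Conn ω (Band m) (k + m, z) (x, k) := a3.symm.mono le_rfl (by
      intro v hv; simp only [mem_Rect, Band, Set.mem_ofPred_eq] at hv ⊢; omega)
    exact (b1.trans b2).trans b3
  induction J with
  | zero =>
    have h0 := h 0 (by omega)
    simp only [Nat.cast_zero, zero_mul] at h0 ⊢
    obtain ⟨y, y', hy1, hy2, _, _, hH⟩ := h0.1
    obtain ⟨x, x', hx1, hx2, hx3, hx4, hV⟩ := h0.2.1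
    exact ⟨y, x, x', by omega, by omega, by omega, by omega, by omega, by omega, hV,
      inner 0 h0 y y' x x' (by omega) (by omega) (by omega) (by omega) hH hV⟩
  | succ J ih =>
    obtain ⟨y₀, x₀, x₀', g1, g2, g3, g4, g5, g6, gV, gC⟩ := ih fun j hj => h j (by omega)
    have h0 := h (J + 1) (by omega)
    have hJ := h J (by omega)
    have e1 : ((J + 1 : ℕ) : ℤ) * m = J * m + m := by push_cast; ring
    rw [e1] at h0 ⊢
    generalize (J : ℤ) * m = k at *
    obtain ⟨y, y', hy1, hy2, _, _, hH⟩ := h0.1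
    obtain ⟨x, x', hx1, hx2, hx3, hx4, hV⟩ := h0.2.1
    have hin := inner (k + m) h0 y y' x x' (by omega) (by omega) (by omega) (by omega) hH hV
    obtain ⟨_, _, _, _, h5, h6⟩ := hJ
    obtain ⟨z, z', hz1, hz2, _, _, hz⟩ := h5
    obtain ⟨t, t', ht1, ht2, _, _, ht⟩ := h6
    -- horizontal crossing of the second square and the previous vertical crossing
    have a1 : Conn ω (Rect (k + m) (k + 2 * m) k (k + 2 * m)) (x₀, k) (k + m, z) :=
      meet (by omega) ⟨by omega, by omega⟩ gV ⟨by omega, by omega⟩ (by omega)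
        (hz.mono le_rfl (by
          intro v hv; simp only [mem_Rect] at hv ⊢; omega))
    have a2 : Conn ω (Rect (k + m) (k + 2 * m) (k + m) (k + 2 * m)) (t, k + m) (k + m, z) :=
      meet (by omega) ⟨ht1, ht2⟩ ht ⟨hz1, hz2⟩ (by omega) hz
    have ht' : Conn ω (Rect (k + m) (k + m + 2 * m) (k + m) (k + m + m)) (t, k + m)
        (t', k + m + m) := by
      have e2 : k + m + m = k + 2 * m := by ring
      rw [e2]
      exact ht.mono le_rfl (by
        intro v hv; simp only [mem_Rect] at hv ⊢; omega)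
    have a3 : Conn ω (Rect (k + m) (k + m + 2 * m) (k + m) (k + m + m)) (t, k + m) (k + m, y) :=
      meet (by omega) ⟨by omega, by omega⟩ ht' ⟨by omega, by omega⟩ (by omega) hH
    have b1 : Conn ω (Band m) (x₀, k) (k + m, z) := a1.mono le_rfl (by
      intro v hv; simp only [mem_Rect, Band, Set.mem_ofPred_eq] at hv ⊢; omega)
    have b2 : Conn ω (Band m) (k + m, z) (t, k + m) := a2.symm.mono le_rfl (by
      intro v hv; simp only [mem_Rect, Band, Set.mem_ofPred_eq] at hv ⊢; omega)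
    have b3 : Conn ω (Band m) (t, k + m) (k + m, y) := a3.mono le_rfl (by
      intro v hv; simp only [mem_Rect, Band, Set.mem_ofPred_eq] at hv ⊢; omega)
    exact ⟨y₀, x, x', g1, g2, by omega, by omega, by omega, by omega, hV,
      (((gC.trans b1).trans b2).trans b3).trans hin⟩

end Pool.Agent.MP_6bd702.H23
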