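import Pool.Agent.Lib.MP_6bd702_percw.TipsB

/-!
# Symmetries of the model
-/

set_option autoImplicit false

namespace Pool.Agent.Perc

open Finset

/-- A symmetry (one direction): action on the vertices, on the faces and on the unit edges; `b` tells
whether the two diagonals of the faces are exchanged. -/
structure HSym where
  v : ℤ × ℤ ≃ ℤ × ℤ
  f : ℤ × ℤ ≃ ℤ × ℤ
  s : UE ≃ UE
  b : Bool
  joins' : ∀ a p q, Joins a p q → Joins (s a) (v p) (v q)
  mt' : ∀ (ω : Cfg) (g : ℤ × ℤ) (a a' : UE), Mt ω g a a' →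
    Mt (fun g => xor b (ω (f.symm g))) (f g) (s a) (s a')
  bond' : ∀ (ω : Cfg) (g p q : ℤ × ℤ), Bond ω {g} p q →
    Bond (fun g => xor b (ω (f.symm g))) {f g} (v p) (v q)

namespace HSym

variable {ω ω' : Cfg} {F F' : Set (ℤ × ℤ)} {e a a' : UE} {f : ℤ × ℤ} {u v : ℤ × ℤ}
  {x₀ x₁ y₀ y₁ : ℤ}

/-- The action on configurations. -/
def act (σ : HSym) (ω : Cfg) : Cfg := fun g => xor σ.b (ω (σ.f.symm g))

theorem act_f (σ : HSym) (ω : Cfg) (g : ℤ × ℤ) : σ.act ω (σ.f g) = xor σ.b (ω g) := by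
  unfold act; rw [Equiv.symm_apply_apply]

theorem mt_act (σ : HSym) {g : ℤ × ℤ} (h : Mt ω g a a') :
    Mt (σ.act ω) (σ.f g) (σ.s a) (σ.s a') := σ.mt' ω g a a' h

theorem joins_act (σ : HSym) (h : Joins a u v) : Joins (σ.s a) (σ.v u) (σ.v v) :=
  σ.joins' a u v h

theorem bond_act (σ : HSym) (h : Bond ω F u v) : Bond (σ.act ω) (σ.f '' F) (σ.v u) (σ.v v) := by
  obtain ⟨g, hg, hb, -, -⟩ := h.exists_face
  exact (σ.bond' ω g u v hb).of_single ⟨g, hg, rfl⟩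

theorem conn_act (σ : HSym) (h : Conn ω F u v) : Conn (σ.act ω) (σ.f '' F) (σ.v u) (σ.v v) := by
  induction h with
  | refl => exact Relation.ReflTransGen.refl
  | tail _ hb ih => exact ih.tail (σ.bond_act hb)

theorem mem_MM_act (σ : HSym) (h : a ∈ MM ω F e) : σ.s a ∈ MM (σ.act ω) (σ.f '' F) (σ.s e) := by
  induction h with
  | refl => exact mem_MM_self
  | tail _ hs ih =>
    obtain ⟨g, hg, hm⟩ := hs
    exact MM_step ⟨g, hg, rfl⟩ (σ.mt_act hm) ih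

/-- Composition. -/
def comp (σ τ : HSym) : HSym where
  v := τ.v.trans σ.v
  f := τ.f.trans σ.f
  s := τ.s.trans σ.s
  b := xor σ.b τ.b
  joins' a p q h := σ.joins' _ _ _ (τ.joins' _ _ _ h)
  mt' ω g a a' h := by
    have h1 := σ.mt' _ _ _ _ (τ.mt' ω g a a' h)
    simpa [Bool.xor_assoc] using h1
  bond' ω g p q h := by
    have h1 := σ.bond' _ _ _ _ (τ.bond' ω g p q h)
    simpa [Bool.xor_assoc] using h1

theorem act_comp (σ τ : HSym) (ω : Cfg) : (σ.comp τ).act ω = σ.act (τ.act ω) := by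
  funext g
  simp [act, comp]

end HSym

/-- Transposition. -/
def hsymT : HSym where
  v := Equiv.prodComm ℤ ℤ
  f := Equiv.prodComm ℤ ℤ
  s := ⟨fun a => (a.2.1, a.1, !a.2.2), fun a => (a.2.1, a.1, !a.2.2),
    fun a => by simp, fun a => by simp⟩
  b := false
  joins' := by
    rintro ⟨x, y, b⟩ ⟨p1, p2⟩ ⟨q1, q2⟩ h
    unfold Joins at *
    cases b <;> simp [ua, ub] at h ⊢ <;> omega
  mt' := by
    rintro ω ⟨x, y⟩ a a' h
    unfold Mt at *
    rcases h with ⟨h0, h⟩ | ⟨h0, h⟩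
    · left
      refine ⟨by simpa using h0, ?_⟩
      rcases h with ⟨rfl, rfl⟩ | ⟨rfl, rfl⟩ | ⟨rfl, rfl⟩ | ⟨rfl, rfl⟩ <;>
        simp [bo, le', to', ri]
    · right
      refine ⟨by simpa using h0, ?_⟩
      rcases h with ⟨rfl, rfl⟩ | ⟨rfl, rfl⟩ | ⟨rfl, rfl⟩ | ⟨rfl, rfl⟩ <;>
        simp [bo, le', to', ri]
  bond' := by
    rintro ω ⟨x, y⟩ p q ⟨x', y', hg, h⟩
    simp only [Set.mem_singleton_iff, Prod.mk.injEq] at hg
    obtain ⟨rfl, rfl⟩ := hg
    refine ⟨y', x', by simp, ?_⟩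
    rcases h with ⟨h0, h⟩ | ⟨h0, h⟩
    · left
      refine ⟨by simpa using h0, ?_⟩
      rcases h with ⟨rfl, rfl⟩ | ⟨rfl, rfl⟩ <;> simp
    · right
      refine ⟨by simpa using h0, ?_⟩
      rcases h with ⟨rfl, rfl⟩ | ⟨rfl, rfl⟩ <;> simp

/-- Reflection `x ↦ c - x`. -/
def hsymX (c : ℤ) : HSym where
  v := ⟨fun w => (c - w.1, w.2), fun w => (c - w.1, w.2), fun w => by simp, fun w => by simp⟩
  f := ⟨fun w => (c - w.1 - 1, w.2), fun w => (c - w.1 - 1, w.2),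
    fun w => Prod.ext (by simp only; omega) rfl, fun w => Prod.ext (by simp only; omega) rfl⟩
  s := ⟨fun a => (if a.2.2 then c - a.1 else c - a.1 - 1, a.2.1, a.2.2),
    fun a => (if a.2.2 then c - a.1 else c - a.1 - 1, a.2.1, a.2.2),
    fun a => by obtain ⟨x, y, b⟩ := a; cases b <;> simp; omega,
    fun a => by obtain ⟨x, y, b⟩ := a; cases b <;> simp; omega⟩
  b := true
  joins' := by
    rintro ⟨x, y, b⟩ ⟨p1, p2⟩ ⟨q1, q2⟩ h
    unfold Joins at *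
    cases b <;> simp [ua, ub] at h ⊢ <;> omega
  mt' := by
    rintro ω ⟨x, y⟩ a a' h
    have hx : c - (c - x - 1) - 1 = x := by ring
    unfold Mt at *
    rcases h with ⟨h0, h⟩ | ⟨h0, h⟩
    · right
      refine ⟨by simp [hx, h0], ?_⟩
      rcases h with ⟨rfl, rfl⟩ | ⟨rfl, rfl⟩ | ⟨rfl, rfl⟩ | ⟨rfl, rfl⟩ <;>
        simp [bo, le', to', ri] <;> omega
    · left
      refine ⟨by simp [hx, h0], ?_⟩
      rcases h with ⟨rfl, rfl⟩ | ⟨rfl, rfl⟩ | ⟨rfl, rfl⟩ | ⟨rfl, rfl⟩ <;>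
        simp [bo, le', to', ri] <;> omega
  bond' := by
    rintro ω ⟨x, y⟩ p q ⟨x', y', hg, h⟩
    simp only [Set.mem_singleton_iff, Prod.mk.injEq] at hg
    obtain ⟨rfl, rfl⟩ := hg
    have hx : c - (c - x' - 1) - 1 = x' := by ring
    refine ⟨c - x' - 1, y', by simp, ?_⟩
    rcases h with ⟨h0, h⟩ | ⟨h0, h⟩
    · right
      refine ⟨by simp [hx, h0], ?_⟩
      rcases h with ⟨rfl, rfl⟩ | ⟨rfl, rfl⟩ <;> simp <;> omega
    · left
      refine ⟨by simp [hx, h0], ?_⟩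
      rcases h with ⟨rfl, rfl⟩ | ⟨rfl, rfl⟩ <;> simp <;> omega

/-- Translation. -/
def hsymS (s t : ℤ) : HSym where
  v := ⟨fun w => (w.1 + s, w.2 + t), fun w => (w.1 - s, w.2 - t), fun w => by simp,
    fun w => by simp⟩
  f := ⟨fun w => (w.1 + s, w.2 + t), fun w => (w.1 - s, w.2 - t), fun w => by simp,
    fun w => by simp⟩
  s := ⟨fun a => (a.1 + s, a.2.1 + t, a.2.2), fun a => (a.1 - s, a.2.1 - t, a.2.2),
    fun a => by simp, fun a => by simp⟩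
  b := false
  joins' := by
    rintro ⟨x, y, b⟩ ⟨p1, p2⟩ ⟨q1, q2⟩ h
    unfold Joins at *
    cases b <;> simp [ua, ub] at h ⊢ <;> omega
  mt' := by
    rintro ω ⟨x, y⟩ a a' h
    unfold Mt at *
    rcases h with ⟨h0, h⟩ | ⟨h0, h⟩
    · left
      refine ⟨by simpa using h0, ?_⟩
      rcases h with ⟨rfl, rfl⟩ | ⟨rfl, rfl⟩ | ⟨rfl, rfl⟩ | ⟨rfl, rfl⟩ <;>
        simp [bo, le', to', ri] <;> omega
    · right
      refine ⟨by simpa using h0, ?_⟩
      rcases h with ⟨rfl, rfl⟩ | ⟨rfl, rfl⟩ | ⟨rfl, rfl⟩ | ⟨rfl, rfl⟩ <;>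
        simp [bo, le', to', ri] <;> omega
  bond' := by
    rintro ω ⟨x, y⟩ p q ⟨x', y', hg, h⟩
    simp only [Set.mem_singleton_iff, Prod.mk.injEq] at hg
    obtain ⟨rfl, rfl⟩ := hg
    refine ⟨x' + s, y' + t, by simp, ?_⟩
    rcases h with ⟨h0, h⟩ | ⟨h0, h⟩
    · left
      refine ⟨by simpa using h0, ?_⟩
      rcases h with ⟨rfl, rfl⟩ | ⟨rfl, rfl⟩ <;> simp <;> omega
    · right
      refine ⟨by simpa using h0, ?_⟩
      rcases h with ⟨rfl, rfl⟩ | ⟨rfl, rfl⟩ <;> simp <;> omega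

/-- A symmetry with its inverse. -/
structure Sym extends HSym where
  inv : HSym
  hv : inv.v = v.symm
  hf : inv.f = f.symm
  hs : inv.s = s.symm
  hb : inv.b = b

/-- Transposition. -/
def symT : Sym where
  toHSym := hsymT
  inv := hsymT
  hv := rfl
  hf := rfl
  hs := rfl
  hb := rfl

/-- Reflection `x ↦ c - x`. -/
def symX (c : ℤ) : Sym where
  toHSym := hsymX c
  inv := hsymX c
  hv := rfl
  hf := rfl
  hs := rfl
  hb := rfl

/-- Translation. -/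
def symS (s t : ℤ) : Sym where
  toHSym := hsymS s t
  inv := hsymS (-s) (-t)
  hv := by
    ext w <;> simp [hsymS] <;> rfl
  hf := by
    ext w <;> simp [hsymS] <;> rfl
  hs := by
    ext w <;> simp [hsymS] <;> rfl
  hb := rfl

end Pool.Agent.Perc
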